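import Mathlib

-- part MP_151be3_an.Pt
section

/-! Dual variables: weights on finite sets, a functional (weak-star topology) and an offset. -/

namespace Pool.Agent.MP_151be3_an

open Set Filter Topology Metric

/-- dual variables. -/
abbrev Pt (X : Type*) [NormedAddCommGroup X] [NormedSpace ℝ X] :=
  (Finset X → ℝ) × WeakDual ℝ X × ℝ

variable {X : Type*} [NormedAddCommGroup X] [NormedSpace ℝ X]

namespace Pt

/-- the functional of a point. -/
noncomputable def fn (P : Pt X) : StrongDual ℝ X := WeakDual.toStrongDual P.2.1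

/-- the affine value of a point. -/
noncomputable def val (P : Pt X) (x : X) : ℝ := P.fn x - P.2.2

/-- constructor. -/
noncomputable def mk' (a : Finset X → ℝ) (ξ : StrongDual ℝ X) (β : ℝ) : Pt X :=
  (a, StrongDual.toWeakDual ξ, β)

@[simp] theorem mk'_a (a : Finset X → ℝ) (ξ : StrongDual ℝ X) (β : ℝ) : (mk' a ξ β).1 = a := rfl
@[simp] theorem mk'_fn (a : Finset X → ℝ) (ξ : StrongDual ℝ X) (β : ℝ) : (mk' a ξ β).fn = ξ := rfl
@[simp] theorem mk'_b (a : Finset X → ℝ) (ξ : StrongDual ℝ X) (β : ℝ) : (mk' a ξ β).2.2 = β := rfl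

/-- midpoint. -/
noncomputable def mid (P Q : Pt X) : Pt X :=
  mk' (fun π => (P.1 π + Q.1 π) / 2) ((1 / 2 : ℝ) • (P.fn + Q.fn)) ((P.2.2 + Q.2.2) / 2)

theorem mid_val (P Q : Pt X) (x : X) : (mid P Q).val x = (P.val x + Q.val x) / 2 := by
  simp only [val, mid, mk'_fn, mk'_b, smul_apply, add_apply, smul_eq_mul]
  ring

theorem continuous_fn_apply (x : X) : Continuous fun P : Pt X => P.fn x :=
  (WeakDual.eval_continuous x).comp (continuous_fst.comp continuous_snd)

theorem continuous_val (x : X) : Continuous fun P : Pt X => P.val x :=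
  (continuous_fn_apply x).sub (continuous_snd.comp continuous_snd)

theorem continuous_a (π : Finset X) : Continuous fun P : Pt X => P.1 π :=
  (continuous_apply π).comp continuous_fst

theorem isClosed_norm_sub_le (e : StrongDual ℝ X) (r : ℝ) :
    IsClosed {P : Pt X | ‖P.fn - e‖ ≤ r} := by
  have h := (WeakDual.isClosed_closedBall e r).preimage
    (f := fun P : Pt X => P.2.1) (continuous_fst.comp continuous_snd)
  convert h using 1
  ext P
  simp only [mem_ofPred_eq, mem_preimage, mem_closedBall, dist_eq_norm, fn]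

theorem lsc_norm_sub (e : StrongDual ℝ X) : LowerSemicontinuous fun P : Pt X => ‖P.fn - e‖ :=
  lowerSemicontinuous_iff_isClosed_preimage.2 fun r => isClosed_norm_sub_le e r

/-- the box containing all dual variables that are used. -/
structure Box (P : Pt X) : Prop where
  nonneg : ∀ π, 0 ≤ P.1 π
  sum_le : ∀ s : Finset (Finset X), ∑ π ∈ s, P.1 π ≤ 1
  norm_le : ‖P.fn‖ ≤ 1
  off_le : |P.2.2| ≤ 1

theorem Box.le_one {P : Pt X} (h : Box P) (π : Finset X) : P.1 π ≤ 1 := by
  simpa using h.sum_le {π}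

theorem Box.abs_val {P : Pt X} (h : Box P) (x : X) : |P.val x| ≤ ‖x‖ + 1 := by
  have h1 := P.fn.le_opNorm x
  have h2 : ‖P.fn‖ * ‖x‖ ≤ ‖x‖ := mul_le_of_le_one_left (norm_nonneg _) h.norm_le
  rw [Real.norm_eq_abs] at h1
  have h3 := abs_sub (P.fn x) P.2.2
  rw [val]
  linarith [h.off_le]

theorem isCompact_box : IsCompact {P : Pt X | Box P} := by
  have h1 : IsCompact ((Set.pi univ fun _ : Finset X => Icc (0 : ℝ) 1) ×ˢ
      ((WeakDual.toStrongDual ⁻¹' closedBall (0 : StrongDual ℝ X) 1) ×ˢ Icc (-1 : ℝ) 1)) :=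
    (isCompact_univ_pi fun _ => isCompact_Icc).prod
      ((WeakDual.isCompact_closedBall _ _).prod isCompact_Icc)
  refine h1.of_isClosed_subset ?_ ?_
  · have : {P : Pt X | Box P} = (⋂ π, {P : Pt X | 0 ≤ P.1 π}) ∩
        (⋂ s : Finset (Finset X), {P : Pt X | ∑ π ∈ s, P.1 π ≤ 1}) ∩
        {P : Pt X | ‖P.fn - 0‖ ≤ 1} ∩ {P : Pt X | |P.2.2| ≤ 1} := by
      ext P
      simp only [mem_ofPred_eq, mem_inter_iff, mem_iInter, sub_zero]
      exact ⟨fun h => ⟨⟨⟨h.1, h.2⟩, h.3⟩, h.4⟩, fun h => ⟨h.1.1.1, h.1.1.2, h.1.2, h.2⟩⟩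
    rw [this]
    refine (((isClosed_iInter fun π => isClosed_le continuous_const (continuous_a π)).inter
      (isClosed_iInter fun s => isClosed_le (continuous_finsetSum _ fun π _ => continuous_a π)
        continuous_const)).inter (isClosed_norm_sub_le 0 1)).inter
      (isClosed_le (continuous_snd.comp continuous_snd).abs continuous_const)
  · intro P hP
    refine ⟨fun π _ => ⟨hP.nonneg π, Box.le_one hP π⟩, ?_, abs_le.1 hP.off_le⟩
    simpa [fn] using hP.norm_le

end Pt

end Pool.Agent.MP_151be3_an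

end

-- part MP_151be3_an.Penalty
section

/-! The penalty function and the affine part of the maximisation problem. -/

namespace Pool.Agent.MP_151be3_an

open Set Filter Topology Metric

variable {X : Type*} [NormedAddCommGroup X] [NormedSpace ℝ X]

/-- index set of the penalty terms. -/
abbrev Ix (X : Type*) := (ℕ × ℕ × ℕ) × Finset X

/-- summable weight. -/
noncomputable def rho (t : ℕ × ℕ × ℕ) : ℝ := (1 / 2 : ℝ) ^ Encodable.encode t

/-- weight of a penalty term. -/
noncomputable def wt (t : ℕ × ℕ × ℕ) : ℝ := (1 / 4 : ℝ) ^ (t.1 + t.2.1) * rho t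

theorem rho_pos (t : ℕ × ℕ × ℕ) : 0 < rho t := by unfold rho; positivity

theorem wt_pos (t : ℕ × ℕ × ℕ) : 0 < wt t := by
  have := rho_pos t
  unfold wt; positivity

theorem summable_rho : Summable rho := summable_geometric_two_encode

theorem wt_le (t : ℕ × ℕ × ℕ) {n : ℕ} (h : n ≤ t.1 + t.2.1) : wt t ≤ (1 / 4 : ℝ) ^ n * rho t :=
  mul_le_mul_of_nonneg_right (pow_le_pow_of_le_one (by norm_num) (by norm_num) h) (rho_pos t).le

section

variable (en : Finset X → ℕ → StrongDual ℝ X)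

/-- the code used in a penalty term. -/
def cd (j : Ix X) : StrongDual ℝ X := en j.2 (Nat.unpair j.1.2.2).1

/-- the inner expression of a penalty term. -/
noncomputable def inner (ω : ℕ → Pt X) (j : Ix X) : ℝ :=
  (ω j.1.2.1).1 j.2 - 1 / ((j.1.2.2 : ℝ) + 1) +
    ‖(ω j.1.1).fn - cd en j‖ * (1 / ((1 + ‖cd en j‖) * ((j.1.2.2 : ℝ) + 1)))

/-- a penalty term. -/
noncomputable def term (ω : ℕ → Pt X) (j : Ix X) : ℝ :=
  wt j.1 * (((ω j.1.2.1).1 j.2) ^ 2 + (max (inner en ω j) 0) ^ 2)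

/-- the penalty. -/
noncomputable def pen (ω : ℕ → Pt X) : ℝ := ∑' j, term en ω j

end

/-- dominating family. -/
noncomputable def dom (ω : ℕ → Pt X) (j : Ix X) : ℝ := rho j.1 * (ω j.1.2.1).1 j.2

/-- the linear part. -/
noncomputable def lin (ω : ℕ → Pt X) : StrongDual ℝ X := ∑' i, (1 / 2 : ℝ) ^ i • (ω i).fn

/-- the affine part. -/
noncomputable def aff (ω : ℕ → Pt X) (x : X) : ℝ := ∑' i, (1 / 2 : ℝ) ^ i * (ω i).val x

variable {en : Finset X → ℕ → StrongDual ℝ X} {ω ω' : ℕ → Pt X}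

theorem inner_le (h : ∀ i, (ω i).Box) (j : Ix X) : inner en ω j ≤ (ω j.1.2.1).1 j.2 := by
  have h1 : ‖(ω j.1.1).fn - cd en j‖ ≤ 1 + ‖cd en j‖ :=
    (norm_sub_le _ _).trans (by linarith [(h j.1.1).norm_le])
  have h2 : ‖(ω j.1.1).fn - cd en j‖ * (1 / ((1 + ‖cd en j‖) * ((j.1.2.2 : ℝ) + 1))) ≤
      1 / ((j.1.2.2 : ℝ) + 1) := by
    calc _ ≤ (1 + ‖cd en j‖) * (1 / ((1 + ‖cd en j‖) * ((j.1.2.2 : ℝ) + 1))) := by gcongr
      _ = _ := by field_simp
  unfold inner
  linarith

theorem term_nonneg (j : Ix X) : 0 ≤ term en ω j := by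
  have := wt_pos j.1
  unfold term; positivity

theorem term_le (h : ∀ i, (ω i).Box) (j : Ix X) :
    term en ω j ≤ 2 * (wt j.1 * (ω j.1.2.1).1 j.2) := by
  have h0 := (h j.1.2.1).nonneg j.2
  have h1 := (h j.1.2.1).le_one j.2
  have h2 : max (inner en ω j) 0 ≤ (ω j.1.2.1).1 j.2 := max_le (inner_le h j) h0
  have h3 : 0 ≤ max (inner en ω j) 0 := le_max_right _ _
  have h4 : ((ω j.1.2.1).1 j.2) ^ 2 + (max (inner en ω j) 0) ^ 2 ≤ 2 * (ω j.1.2.1).1 j.2 := by
    nlinarith
  have := wt_pos j.1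
  unfold term
  nlinarith

theorem term_le' (h : ∀ i, (ω i).Box) (j : Ix X) {n : ℕ} (hn : n ≤ j.1.1 + j.1.2.1) :
    term en ω j ≤ 2 * (1 / 4 : ℝ) ^ n * dom ω j := by
  refine (term_le h j).trans ?_
  have h0 := (h j.1.2.1).nonneg j.2
  have := mul_le_mul_of_nonneg_right (wt_le j.1 hn) h0
  unfold dom
  linarith

theorem dom_nonneg (h : ∀ i, (ω i).Box) (j : Ix X) : 0 ≤ dom ω j :=
  mul_nonneg (rho_pos _).le ((h _).nonneg _)

theorem summable_dom (h : ∀ i, (ω i).Box) : Summable (dom ω) ∧ ∑' j, dom ω j ≤ ∑' t, rho t := by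
  have h1 : ∀ t : ℕ × ℕ × ℕ, Summable fun π => dom ω (t, π) := fun t =>
    (summable_of_sum_le (h t.2.1).nonneg (h t.2.1).sum_le).mul_left (rho t)
  have h2 : ∀ t : ℕ × ℕ × ℕ, ∑' π, dom ω (t, π) ≤ rho t := fun t => by
    simp only [dom]
    rw [tsum_mul_left]
    exact mul_le_of_le_one_right (rho_pos t).le
      (Real.tsum_le_of_sum_le (h t.2.1).nonneg (h t.2.1).sum_le)
  have h3 : Summable fun t : ℕ × ℕ × ℕ => ∑' π, dom ω (t, π) :=
    Summable.of_nonneg_of_le (fun t => tsum_nonneg fun π => dom_nonneg h _) h2 summable_rho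
  have h4 : Summable (dom ω) := (summable_prod_of_nonneg (dom_nonneg h)).2 ⟨h1, h3⟩
  refine ⟨h4, ?_⟩
  rw [h4.tsum_prod]
  exact h3.tsum_le_tsum h2 summable_rho

theorem summable_term (h : ∀ i, (ω i).Box) : Summable (term en ω) :=
  Summable.of_nonneg_of_le term_nonneg (fun j => term_le' h j (Nat.zero_le _))
    ((summable_dom h).1.mul_left _)

theorem pen_nonneg : 0 ≤ pen en ω := tsum_nonneg term_nonneg

theorem pen_le (h : ∀ i, (ω i).Box) : pen en ω ≤ 2 * ∑' t, rho t := by
  have h1 := (summable_term (en := en) h).tsum_le_tsum (fun j => term_le' h j (Nat.zero_le _))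
    ((summable_dom h).1.mul_left _)
  rw [tsum_mul_left] at h1
  have h2 := (summable_dom h).2
  unfold pen
  simp only [pow_zero, mul_one] at h1
  linarith

theorem pen_update (h : ∀ i, (ω i).Box) (n : ℕ) {Q : Pt X} (hQ : Q.Box) :
    pen en (Function.update ω n Q) ≤ pen en ω + 2 * (1 / 4 : ℝ) ^ n * ∑' t, rho t := by
  set ω' := Function.update ω n Q with hω'
  have h' : ∀ i, (ω' i).Box := fun i => by
    rcases eq_or_ne i n with rfl | hi
    · simpa [hω'] using hQ
    · simpa [hω', hi] using h i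
  have h1 : ∀ j, term en ω' j ≤ term en ω j + 2 * (1 / 4 : ℝ) ^ n * dom ω' j := by
    intro j
    by_cases hj : n ≤ j.1.1 + j.1.2.1
    · linarith [term_le' (en := en) h' j hj, term_nonneg (en := en) (ω := ω) j]
    · have e1 : ω' j.1.1 = ω j.1.1 := Function.update_of_ne (by omega) _ _
      have e2 : ω' j.1.2.1 = ω j.1.2.1 := Function.update_of_ne (by omega) _ _
      have e3 : term en ω' j = term en ω j := by simp only [term, inner, e1, e2]
      have := dom_nonneg h' j
      rw [e3, le_add_iff_nonneg_right]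
      positivity
  have h2 := (summable_term (en := en) h').tsum_le_tsum h1
    ((summable_term h).add ((summable_dom h').1.mul_left _))
  rw [(summable_term h).tsum_add ((summable_dom h').1.mul_left _), tsum_mul_left] at h2
  have h3 := (summable_dom h').2
  have h4 : 2 * (1 / 4 : ℝ) ^ n * ∑' j, dom ω' j ≤ 2 * (1 / 4 : ℝ) ^ n * ∑' t, rho t := by
    gcongr
  unfold pen
  linarith

theorem lsc_term (j : Ix X) : LowerSemicontinuous fun ω : ℕ → Pt X => term en ω j := by
  have hw := wt_pos j.1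
  have ha : Continuous fun ω : ℕ → Pt X => (ω j.1.2.1).1 j.2 :=
    (Pt.continuous_a j.2).comp (continuous_apply _)
  have hn : LowerSemicontinuous fun ω : ℕ → Pt X => ‖(ω j.1.1).fn - cd en j‖ :=
    (Pt.lsc_norm_sub (cd en j)).comp (continuous_apply _)
  have hc : 0 ≤ 1 / ((1 + ‖cd en j‖) * ((j.1.2.2 : ℝ) + 1)) := by positivity
  have hn' : LowerSemicontinuous fun ω : ℕ → Pt X =>
      ‖(ω j.1.1).fn - cd en j‖ * (1 / ((1 + ‖cd en j‖) * ((j.1.2.2 : ℝ) + 1))) :=
    Continuous.comp_lowerSemicontinuous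
      (g := fun r : ℝ => r * (1 / ((1 + ‖cd en j‖) * ((j.1.2.2 : ℝ) + 1))))
      (continuous_id.mul continuous_const) hn
      (fun a b hab => mul_le_mul_of_nonneg_right hab hc)
  have hi : LowerSemicontinuous fun ω : ℕ → Pt X => inner en ω j :=
    (ha.sub continuous_const).lowerSemicontinuous.add hn'
  have hs : LowerSemicontinuous fun ω : ℕ → Pt X => wt j.1 * (max (inner en ω j) 0) ^ 2 :=
    Continuous.comp_lowerSemicontinuous (g := fun r : ℝ => wt j.1 * (max r 0) ^ 2)
      (by fun_prop) hi (fun a b hab => by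
        have : 0 ≤ max a 0 := le_max_right _ _
        have : max a 0 ≤ max b 0 := max_le_max hab le_rfl
        simp only
        gcongr)
  have := ((ha.pow 2).const_mul (wt j.1)).lowerSemicontinuous.add hs
  have e : (fun ω : ℕ → Pt X => term en ω j) = fun ω : ℕ → Pt X =>
      wt j.1 * ((ω j.1.2.1).1 j.2) ^ 2 + wt j.1 * (max (inner en ω j) 0) ^ 2 := by
    funext ω
    simp only [term]
    ring
  rw [e]
  exact this

theorem lsc_pen : LowerSemicontinuousOn (pen en) {ω : ℕ → Pt X | ∀ i, (ω i).Box} := by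
  intro ω hω y hy
  have h1 : ∀ᶠ s : Finset (Ix X) in atTop, y < ∑ j ∈ s, term en ω j :=
    (summable_term (en := en) hω).hasSum.eventually (p := fun r => y < r) (Ioi_mem_nhds hy)
  obtain ⟨s, hs⟩ := h1.exists
  have h2 := lowerSemicontinuous_sum (a := s) (fun j _ => lsc_term (en := en) j) ω y hs
  filter_upwards [mem_nhdsWithin_of_mem_nhds h2, self_mem_nhdsWithin] with ω' h3 h4
  exact h3.trans_le ((summable_term h4).sum_le_tsum s fun j _ => term_nonneg j)

/-- midpoint of two families. -/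
noncomputable def midf (ω ω' : ℕ → Pt X) : ℕ → Pt X := fun i => Pt.mid (ω i) (ω' i)

theorem inner_mid (j : Ix X) :
    inner en (midf ω ω') j ≤ (inner en ω j + inner en ω' j) / 2 := by
  have hc : 0 ≤ 1 / ((1 + ‖cd en j‖) * ((j.1.2.2 : ℝ) + 1)) := by positivity
  have h1 : ‖(midf ω ω' j.1.1).fn - cd en j‖ ≤
      (‖(ω j.1.1).fn - cd en j‖ + ‖(ω' j.1.1).fn - cd en j‖) / 2 := by
    have : (midf ω ω' j.1.1).fn - cd en j =
        (1 / 2 : ℝ) • (((ω j.1.1).fn - cd en j) + ((ω' j.1.1).fn - cd en j)) := by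
      simp only [midf, Pt.mid, Pt.mk'_fn]
      module
    rw [this, norm_smul]
    have := norm_add_le ((ω j.1.1).fn - cd en j) ((ω' j.1.1).fn - cd en j)
    rw [Real.norm_eq_abs, abs_of_pos (by norm_num)]
    linarith
  have h2 := mul_le_mul_of_nonneg_right h1 hc
  have h3 : (midf ω ω' j.1.2.1).1 j.2 = ((ω j.1.2.1).1 j.2 + (ω' j.1.2.1).1 j.2) / 2 := rfl
  unfold inner
  rw [h3]
  linarith

theorem term_mid (j : Ix X) :
    term en (midf ω ω') j + wt j.1 * ((((ω j.1.2.1).1 j.2 - (ω' j.1.2.1).1 j.2) ^ 2 +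
      (max (inner en ω j) 0 - max (inner en ω' j) 0) ^ 2) / 4) ≤
      (term en ω j + term en ω' j) / 2 := by
  have h3 : (midf ω ω' j.1.2.1).1 j.2 = ((ω j.1.2.1).1 j.2 + (ω' j.1.2.1).1 j.2) / 2 := rfl
  have h1 := inner_mid (en := en) (ω := ω) (ω' := ω') j
  have h2 : max (inner en (midf ω ω') j) 0 ≤
      (max (inner en ω j) 0 + max (inner en ω' j) 0) / 2 := by
    have a1 := le_max_left (inner en ω j) 0
    have a2 := le_max_left (inner en ω' j) 0
    have a3 := le_max_right (inner en ω j) 0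
    have a4 := le_max_right (inner en ω' j) 0
    exact max_le (by linarith) (by linarith)
  have h4 : (max (inner en (midf ω ω') j) 0) ^ 2 ≤
      ((max (inner en ω j) 0 + max (inner en ω' j) 0) / 2) ^ 2 := by
    have := le_max_right (inner en (midf ω ω') j) 0
    gcongr
  have h5 := mul_le_mul_of_nonneg_left h4 (wt_pos j.1).le
  unfold term
  rw [h3]
  linarith

theorem pen_mid (h : ∀ i, (ω i).Box) (h' : ∀ i, (ω' i).Box) (hm : ∀ i, (midf ω ω' i).Box)
    (j : Ix X) :
    pen en (midf ω ω') + wt j.1 * ((((ω j.1.2.1).1 j.2 - (ω' j.1.2.1).1 j.2) ^ 2 +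
      (max (inner en ω j) 0 - max (inner en ω' j) 0) ^ 2) / 4) ≤
      (pen en ω + pen en ω') / 2 := by
  have h1 : HasSum (fun j => (term en ω j + term en ω' j) / 2 - term en (midf ω ω') j)
      ((pen en ω + pen en ω') / 2 - pen en (midf ω ω')) :=
    (((summable_term h).hasSum.add (summable_term h').hasSum).div_const 2).sub
      (summable_term hm).hasSum
  have h2 := le_hasSum h1 j fun k _ => by
    have a1 := term_mid (en := en) (ω := ω) (ω' := ω') k
    have a2 : 0 ≤ wt k.1 * ((((ω k.1.2.1).1 k.2 - (ω' k.1.2.1).1 k.2) ^ 2 +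
      (max (inner en ω k) 0 - max (inner en ω' k) 0) ^ 2) / 4) := by
      have := wt_pos k.1
      positivity
    linarith
  have h3 := term_mid (en := en) (ω := ω) (ω' := ω') j
  linarith

theorem norm_lin_term (h : ∀ i, (ω i).Box) (i : ℕ) :
    ‖(1 / 2 : ℝ) ^ i • (ω i).fn‖ ≤ (1 / 2 : ℝ) ^ i := by
  rw [norm_smul, Real.norm_eq_abs, abs_of_pos (by positivity)]
  exact mul_le_of_le_one_right (by positivity) (h i).norm_le

theorem summable_lin (h : ∀ i, (ω i).Box) : Summable fun i => (1 / 2 : ℝ) ^ i • (ω i).fn :=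
  Summable.of_norm_bounded summable_geometric_two (norm_lin_term h)

theorem norm_lin_le (h : ∀ i, (ω i).Box) : ‖lin ω‖ ≤ 2 :=
  tsum_of_norm_bounded hasSum_geometric_two (norm_lin_term h)

theorem norm_aff_term (h : ∀ i, (ω i).Box) (x : X) (i : ℕ) :
    ‖(1 / 2 : ℝ) ^ i * (ω i).val x‖ ≤ (1 / 2 : ℝ) ^ i * (‖x‖ + 1) := by
  rw [norm_mul, Real.norm_eq_abs, Real.norm_eq_abs, abs_of_pos (by positivity)]
  gcongr
  exact (h i).abs_val x

theorem summable_aff (h : ∀ i, (ω i).Box) (x : X) :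
    Summable fun i => (1 / 2 : ℝ) ^ i * (ω i).val x :=
  Summable.of_norm_bounded (summable_geometric_two.mul_right _) (norm_aff_term h x)

theorem aff_add (h : ∀ i, (ω i).Box) (x y : X) : aff ω y = aff ω x + lin ω (y - x) := by
  have h1 : HasSum (fun i => ((1 / 2 : ℝ) ^ i • (ω i).fn) (y - x)) (lin ω (y - x)) :=
    (summable_lin h).hasSum.mapL (ContinuousLinearMap.apply ℝ ℝ (y - x))
  refine (summable_aff h y).hasSum.unique ?_
  convert (summable_aff h x).hasSum.add h1 using 1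
  · funext i
    simp only [Pt.val, smul_apply, map_sub, smul_eq_mul]
    ring
  · rfl

theorem continuousOn_aff (x : X) :
    ContinuousOn (fun ω : ℕ → Pt X => aff ω x) {ω | ∀ i, (ω i).Box} :=
  continuousOn_tsum
    (fun i => (((Pt.continuous_val x).comp (continuous_apply i)).const_mul _).continuousOn)
    (summable_geometric_two.mul_right (‖x‖ + 1)) fun i _ hω => norm_aff_term hω x i

theorem aff_mid (h : ∀ i, (ω i).Box) (h' : ∀ i, (ω' i).Box) (x : X) :
    aff (midf ω ω') x = (aff ω x + aff ω' x) / 2 := by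
  have := (((summable_aff h x).hasSum.add (summable_aff h' x).hasSum).div_const 2).tsum_eq
  unfold aff
  rw [← this]
  congr 1
  funext i
  simp only [midf, Pt.mid_val]
  ring

theorem aff_update (h : ∀ i, (ω i).Box) (n : ℕ) (Q : Pt X) (x : X) :
    aff (Function.update ω n Q) x = aff ω x + (1 / 2 : ℝ) ^ n * (Q.val x - (ω n).val x) := by
  have h1 := (summable_aff h x).hasSum.update n ((1 / 2 : ℝ) ^ n * Q.val x)
  have h2 : (fun i => (1 / 2 : ℝ) ^ i * (Function.update ω n Q i).val x) =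
      Function.update (fun i => (1 / 2 : ℝ) ^ i * (ω i).val x) n ((1 / 2 : ℝ) ^ n * Q.val x) := by
    funext i
    rcases eq_or_ne i n with rfl | hi
    · simp
    · simp [hi]
  unfold aff
  rw [h2, h1.tsum_eq]
  ring

end Pool.Agent.MP_151be3_an

end
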