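import Pool.Agent.MP_151be3_an.Defs
import Pool.Agent.MP_151be3_an.Mg.Penalty
import Mathlib

-- part MP_151be3_an.Gauge
section

/-! From an even, coercive, convex `C¹` function to an equivalent `C¹` norm. -/

namespace Pool.Agent.MP_151be3_an

open Set Filter Topology Metric
open scoped Pointwise

variable {X : Type*} [NormedAddCommGroup X] [NormedSpace ℝ X]

theorem gauge_hasFDerivAt {f : X → ℝ} {D : StrongDual ℝ X} {l : ℝ} {x : X}
    (habs : Absorbent ℝ {y | f y ≤ l}) (hD : HasFDerivAt f D x)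
    (hsub : ∀ y, f x + D (y - x) ≤ f y) (hx : f x = l) (hpos : 0 < D x)
    (hg : gauge {y | f y ≤ l} x = 1) :
    HasFDerivAt (gauge {y | f y ≤ l}) ((D x)⁻¹ • D) x := by
  set ξ : StrongDual ℝ X := (D x)⁻¹ • D with hξ
  have hξx : ξ x = 1 := by simp [hξ, hpos.ne']
  have hξD : ∀ y, ξ y * D x = D y := fun y => by
    simp only [hξ, smul_apply, smul_eq_mul]; field_simp
  have hlow : ∀ y, ξ y ≤ gauge {y | f y ≤ l} y := by
    intro y
    by_contra hcon
    push Not at hcon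
    obtain ⟨b, hb, hba, z, hz, rfl⟩ := exists_lt_of_gauge_lt habs hcon
    have h1 := hsub z
    have h2 : f z ≤ l := hz
    rw [map_sub] at h1
    have h3 : ξ z ≤ 1 := by
      have := hξD z
      by_contra h4
      push Not at h4
      nlinarith
    simp only [map_smul, smul_eq_mul] at hba
    nlinarith
  rw [hasFDerivAt_iff_isLittleO_nhds_zero, Asymptotics.isLittleO_iff]
  intro ε hε
  set K : ℝ := 2 * (1 + (‖ξ‖ + ε) * ‖x‖) with hK
  have hKpos : 0 < K := by positivity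
  have hD' := hD
  rw [hasFDerivAt_iff_isLittleO_nhds_zero, Asymptotics.isLittleO_iff] at hD'
  have hη : 0 < ε * D x / (2 * K) := by positivity
  obtain ⟨δ, hδ, hδ'⟩ := Metric.eventually_nhds_iff.1 (hD' hη)
  have hA : 0 < ‖ξ‖ + ε := by positivity
  have hr : 0 < min (δ / K) (1 / (2 * (‖ξ‖ + ε))) := by positivity
  filter_upwards [ball_mem_nhds 0 hr] with h hh
  rw [mem_ball_zero_iff, lt_min_iff] at hh
  set σ : ℝ := ξ h + ε * ‖h‖ with hσ
  have hσ1 : |σ| ≤ (‖ξ‖ + ε) * ‖h‖ := by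
    have h1 := ξ.le_opNorm h
    rw [Real.norm_eq_abs] at h1
    have h2 : |σ| ≤ |ξ h| + |ε * ‖h‖| := abs_add_le _ _
    rw [abs_of_nonneg (by positivity : 0 ≤ ε * ‖h‖)] at h2
    linarith
  have hσ2 : |σ| ≤ 1 / 2 := by
    have h1 := hh.2
    rw [lt_div_iff₀ (by positivity)] at h1
    nlinarith
  have hs1 : 1 / 2 ≤ 1 + σ := by linarith [(abs_le.1 hσ2).1]
  have hs2 : 1 + σ ≤ 2 := by linarith [(abs_le.1 hσ2).2]
  have hs0 : 0 < 1 + σ := by linarith
  set k : X := (1 + σ)⁻¹ • (h - σ • x) with hk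
  have hxk : (1 + σ) • (x + k) = x + h := by
    rw [hk, smul_add, smul_smul, mul_inv_cancel₀ hs0.ne', one_smul, add_smul, one_smul]
    abel
  have hinv : (1 + σ)⁻¹ ≤ 2 := by
    rw [inv_le_comm₀ hs0 (by norm_num)]; linarith
  have hinv2 : 1 / 2 ≤ (1 + σ)⁻¹ := by
    rw [le_inv_comm₀ (by norm_num) hs0]; linarith
  have hkn : ‖k‖ ≤ K * ‖h‖ := by
    rw [hk, norm_smul, Real.norm_eq_abs, abs_of_pos (inv_pos.2 hs0)]
    have h1 : ‖h - σ • x‖ ≤ ‖h‖ + (‖ξ‖ + ε) * ‖h‖ * ‖x‖ := by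
      refine (norm_sub_le _ _).trans ?_
      rw [norm_smul, Real.norm_eq_abs]
      gcongr
    calc (1 + σ)⁻¹ * ‖h - σ • x‖ ≤ 2 * (‖h‖ + (‖ξ‖ + ε) * ‖h‖ * ‖x‖) := by gcongr
      _ = K * ‖h‖ := by rw [hK]; ring
  have hDk : D k = -((1 + σ)⁻¹ * (ε * ‖h‖ * D x)) := by
    rw [hk, map_smul, map_sub, map_smul, smul_eq_mul, smul_eq_mul, hσ, ← hξD h]; ring
  have hkδ : dist k 0 < δ := by
    rw [dist_zero_right]
    have h1 := hh.1
    rw [lt_div_iff₀ hKpos] at h1
    linarith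
  have h1 := hδ' hkδ
  rw [Real.norm_eq_abs] at h1
  have h2 : ε * D x / (2 * K) * ‖k‖ ≤ 1 / 2 * (ε * ‖h‖ * D x) := by
    calc ε * D x / (2 * K) * ‖k‖ ≤ ε * D x / (2 * K) * (K * ‖h‖) := by gcongr
      _ = 1 / 2 * (ε * ‖h‖ * D x) := by field_simp
  have h3 : 1 / 2 * (ε * ‖h‖ * D x) ≤ (1 + σ)⁻¹ * (ε * ‖h‖ * D x) := by
    have : 0 ≤ ε * ‖h‖ * D x := by positivity
    gcongr
  have h4 : f (x + k) ≤ l := by linarith [(abs_le.1 h1).2]
  have h5 : gauge {y | f y ≤ l} (x + h) ≤ 1 + σ :=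
    gauge_le_of_mem hs0.le ⟨x + k, h4, hxk⟩
  have h6 := hlow (x + h)
  rw [map_add, hξx] at h6
  rw [hg, Real.norm_eq_abs, abs_le]
  have : 0 ≤ ε * ‖h‖ := by positivity
  constructor <;> linarith

theorem hasC1Norm_of_smooth {f : X → ℝ} {D : X → StrongDual ℝ X}
    (hD : ∀ x, HasFDerivAt f (D x) x) (hDc : Continuous D)
    (hsub : ∀ x y, f x + D x (y - x) ≤ f y) (heven : ∀ x, f (-x) = f x)
    {c M : ℝ} (hc : 0 < c) (hco : ∀ x, c * ‖x‖ - M ≤ f x) : HasC1Norm X := by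
  set l : ℝ := f 0 + 1 with hl
  set s : Set X := {y | f y ≤ l} with hs
  have hfc : Continuous f := continuous_iff_continuousAt.2 fun x => (hD x).continuousAt
  have hconv : Convex ℝ s := by
    intro x hx y hy a b ha hb hab
    have h1 := hsub (a • x + b • y) x
    have h2 := hsub (a • x + b • y) y
    have h3 : a * D (a • x + b • y) (x - (a • x + b • y)) +
        b * D (a • x + b • y) (y - (a • x + b • y)) = 0 := by
      rw [← smul_eq_mul, ← smul_eq_mul, ← map_smul, ← map_smul, ← map_add]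
      have : a • (x - (a • x + b • y)) + b • (y - (a • x + b • y)) =
          (a • x + b • y) - (a + b) • (a • x + b • y) := by module
      rw [this, hab, one_smul, sub_self, map_zero]
    have hx' : f x ≤ l := hx
    have hy' : f y ≤ l := hy
    show f (a • x + b • y) ≤ l
    have h4 : (a + b) * f (a • x + b • y) ≤ (a + b) * l := by nlinarith
    rwa [hab, one_mul, one_mul] at h4
  have hbal : Balanced ℝ s := (balanced_iff_neg_mem hconv).2 fun x hx => by
    show f (-x) ≤ l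
    rw [heven]; exact hx
  have hnhds : s ∈ 𝓝 (0 : X) :=
    hfc.continuousAt.eventually (p := fun t => t ≤ l) (Iic_mem_nhds (by linarith))
  have habs : Absorbent ℝ s := absorbent_nhds_zero hnhds
  obtain ⟨ρ, hρ, hρs⟩ := Metric.mem_nhds_iff.1 hnhds
  have hr : 0 < (l + M) / c := by
    have := hco 0
    simp only [norm_zero, mul_zero] at this
    apply div_pos _ hc; linarith
  have hsr : s ⊆ closedBall 0 ((l + M) / c) := by
    intro x hx
    rw [mem_closedBall_zero_iff, le_div_iff₀ hc]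
    have h1 := hco x
    have h2 : f x ≤ l := hx
    linarith
  have hlow : ∀ x, ((l + M) / c)⁻¹ * ‖x‖ ≤ gauge s x := fun x => by
    rw [mul_comm, ← div_eq_mul_inv]; exact le_gauge_of_subset_closedBall habs hr.le hsr
  have hup : ∀ x, gauge s x ≤ ρ⁻¹ * ‖x‖ := fun x => by
    rw [mul_comm, ← div_eq_mul_inv, ← gauge_ball hρ.le]
    exact gauge_mono (absorbent_ball_zero hρ) hρs x
  have hgc : Continuous (gauge s) := continuous_gauge hconv hnhds
  have hgpos : ∀ x : X, x ≠ 0 → 0 < gauge s x := fun x hx =>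
    lt_of_lt_of_le (mul_pos (inv_pos.2 hr) (norm_pos_iff.2 hx)) (hlow x)
  let nx : X → X := fun x => (gauge s x)⁻¹ • x
  have hnx : ∀ x : X, x ≠ 0 → gauge s (nx x) = 1 := fun x hx => by
    simp only [nx]
    rw [gauge_smul_of_nonneg (inv_pos.2 (hgpos x hx)).le, smul_eq_mul,
      inv_mul_cancel₀ (hgpos x hx).ne']
  have hfnx : ∀ x : X, x ≠ 0 → f (nx x) = l := fun x hx =>
    frontier_le_subset_eq hfc continuous_const
      (mem_frontier_of_gauge_eq_one hconv (mem_of_mem_nhds hnhds) habs (hnx x hx))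
  have hDpos : ∀ x : X, x ≠ 0 → 0 < D (nx x) (nx x) := fun x hx => by
    have h1 := hsub (nx x) 0
    rw [zero_sub, map_neg, hfnx x hx] at h1
    linarith
  have hder : ∀ x : X, x ≠ 0 →
      HasFDerivAt (gauge s) ((D (nx x) (nx x))⁻¹ • D (nx x)) x := by
    intro x hx
    have h1 := gauge_hasFDerivAt habs (hD (nx x)) (hsub (nx x)) (hfnx x hx) (hDpos x hx)
      (hnx x hx)
    have ht := hgpos x hx
    have h2 : HasFDerivAt (fun y : X => (gauge s x)⁻¹ • y)
        ((gauge s x)⁻¹ • ContinuousLinearMap.id ℝ X) x := (hasFDerivAt_id x).const_smul _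
    have h3 := (HasFDerivAt.comp x (f := fun y : X => (gauge s x)⁻¹ • y) h1 h2).const_mul
      (gauge s x)
    refine (h3.congr_fderiv ?_).congr_of_eventuallyEq (Eventually.of_forall ?_)
    swap
    · intro y
      simp only [Function.comp]
      rw [gauge_smul_of_nonneg (inv_pos.2 ht).le, smul_eq_mul, ← mul_assoc,
        mul_inv_cancel₀ ht.ne', one_mul]
    · ext y
      simp only [smul_apply, smul_eq_mul, ContinuousLinearMap.comp_apply,
        ContinuousLinearMap.id_apply, map_smul]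
      field_simp
  refine ⟨gaugeSeminorm hbal hconv habs,
    ⟨_, _, inv_pos.2 hr, inv_pos.2 hρ, fun v => ⟨hlow v, hup v⟩⟩, ?_⟩
  change ContDiffOn ℝ (0 + 1) (gauge s) {0}ᶜ
  rw [contDiffOn_succ_iff_fderiv_of_isOpen isOpen_compl_singleton]
  refine ⟨fun x hx => (hder x hx).differentiableAt.differentiableWithinAt, by simp, ?_⟩
  rw [contDiffOn_zero]
  have hnc : ContinuousOn nx {0}ᶜ :=
    (hgc.continuousOn.inv₀ fun x hx => (hgpos x hx).ne').smul continuousOn_id
  have hDn : ContinuousOn (fun x => D (nx x)) {0}ᶜ := hDc.comp_continuousOn hnc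
  refine ContinuousOn.congr (f := fun x => (D (nx x) (nx x))⁻¹ • D (nx x)) ?_
    fun x hx => (hder x hx).fderiv
  exact ((hDn.clm_apply hnc).inv₀ fun x hx => (hDpos x hx).ne').smul hDn

end Pool.Agent.MP_151be3_an

end

-- part MP_151be3_an.MaxFn
section

/-! The penalised maximum is `C¹`. -/

namespace Pool.Agent.MP_151be3_an

open Set Filter Topology Metric

variable {X : Type*} [NormedAddCommGroup X] [NormedSpace ℝ X]

/-- infinitely many of the sets `K n` force a positive weight on `π` at near-maximisers. -/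
def PinK (K : ℕ → Set (Pt X)) (x : X) (π : Finset X) : Prop :=
  ∃ g > 0, ∀ N, ∃ n ≥ N, ∀ P ∈ K n, (∀ Q ∈ K n, Q.val x ≤ P.val x + g) → 0 < P.1 π

omit [NormedSpace ℝ X] in
theorem tendsto_of_sq_le {f : X → ℝ} {a w : ℝ} {x : X} (hw : 0 < w)
    (h : ∀ y, w * ((a - f y) ^ 2 / 4) ≤ 2 * ‖y - x‖) : Tendsto f (𝓝 x) (𝓝 a) := by
  have h1 : Tendsto (fun y => Real.sqrt (8 * ‖y - x‖ / w)) (𝓝 x) (𝓝 0) := by
    have : Continuous fun y => Real.sqrt (8 * ‖y - x‖ / w) := by fun_prop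
    simpa using this.tendsto x
  rw [tendsto_iff_dist_tendsto_zero]
  refine squeeze_zero (fun _ => dist_nonneg) (fun y => ?_) h1
  rw [Real.dist_eq, abs_sub_comm]
  refine Real.abs_le_sqrt ?_
  rw [le_div_iff₀ hw]
  linarith [h y]

theorem hasC1Norm_of_trunc (K : ℕ → Set (Pt X)) (en : Finset X → ℕ → StrongDual ℝ X)
    (hcomp : ∀ n, IsCompact (K n)) (hne : ∀ n, (K n).Nonempty) (hbox : ∀ n, ∀ P ∈ K n, P.Box)
    (hmid : ∀ n, ∀ P ∈ K n, ∀ Q ∈ K n, Pt.mid P Q ∈ K n)
    (h0 : ∀ ξ : StrongDual ℝ X, ‖ξ‖ ≤ 1 → ∃ P ∈ K 0, P.fn = ξ ∧ P.2.2 = 0)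
    (htr : ∀ x : X, ∀ ω : ℕ → Pt X, (∀ i, ω i ∈ K i) → ∃ ω' : ℕ → Pt X, (∀ i, ω' i ∈ K i) ∧
      (∀ i, (ω' i).val x = (ω i).val x) ∧
      (∀ π, (∀ n, (ω' n).1 π = 0) ∨ ((∀ n, (ω' n).1 π = (ω n).1 π) ∧
        ∀ i l, ‖(ω' i).fn - en π l‖ ≤ ‖(ω i).fn - en π l‖)) ∧
      ∀ i, ∀ ε > 0, ∃ π l, ‖(ω' i).fn - en π l‖ ≤ ε ∧ PinK K x π) :
    HasC1Norm X := by
  classical
  have hb : ∀ {ω : ℕ → Pt X}, (∀ i, ω i ∈ K i) → ∀ i, (ω i).Box := fun h i => hbox i _ (h i)
  -- existence of good maximisers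
  have hex : ∀ x : X, ∃ ω : ℕ → Pt X, (∀ i, ω i ∈ K i) ∧
      (∀ ω' : ℕ → Pt X, (∀ i, ω' i ∈ K i) → aff ω' x - pen en ω' ≤ aff ω x - pen en ω) ∧
      ∀ i, ∀ ε > 0, ∃ π l, ‖(ω i).fn - en π l‖ ≤ ε ∧ PinK K x π := by
    intro x
    have hsub : Set.pi univ K ⊆ {ω : ℕ → Pt X | ∀ i, (ω i).Box} :=
      fun ω hω i => hbox i _ (hω i trivial)
    have hl : LowerSemicontinuousOn (fun ω => pen en ω + -aff ω x) (Set.pi univ K) :=
      (lsc_pen.add (continuousOn_aff x).neg.lowerSemicontinuousOn).mono hsub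
    obtain ⟨ω, hω, hmin⟩ := hl.exists_isMinOn (univ_pi_nonempty_iff.2 hne)
      (isCompact_univ_pi hcomp)
    have hω' : ∀ i, ω i ∈ K i := fun i => hω i trivial
    obtain ⟨ω₁, h1, h2, h3, h4⟩ := htr x ω hω'
    refine ⟨ω₁, h1, fun ω' h' => ?_, h4⟩
    have e1 : aff ω₁ x = aff ω x := by simp only [aff, h2]
    have e2 : pen en ω₁ ≤ pen en ω := by
      refine (summable_term (hb h1)).tsum_le_tsum (fun j => ?_) (summable_term (hb hω'))
      rcases h3 j.2 with h5 | ⟨h5, h6⟩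
      · have h7 := inner_le (en := en) (hb h1) j
        rw [h5] at h7
        have : term en ω₁ j = 0 := by simp [term, h5, max_eq_right h7]
        rw [this]
        exact term_nonneg j
      · have hc : 0 ≤ 1 / ((1 + ‖cd en j‖) * ((j.1.2.2 : ℝ) + 1)) := by positivity
        have h7 : inner en ω₁ j ≤ inner en ω j := by
          have := mul_le_mul_of_nonneg_right (h6 j.1.1 (Nat.unpair j.1.2.2).1) hc
          unfold inner
          rw [h5]
          exact add_le_add le_rfl this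
        have h8 : max (inner en ω₁ j) 0 ≤ max (inner en ω j) 0 := max_le_max h7 le_rfl
        have h9 : 0 ≤ max (inner en ω₁ j) 0 := le_max_right _ _
        have := wt_pos j.1
        unfold term
        rw [h5]
        gcongr
    have := isMinOn_iff.1 hmin ω' fun i _ => h' i
    linarith
  choose m hmK hmax hgood using hex
  set p : X → ℝ := fun x => aff (m x) x - pen en (m x) with hp
  set D : X → StrongDual ℝ X := fun x => lin (m x) with hD
  have hsub : ∀ x y, p x + D x (y - x) ≤ p y := fun x y => by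
    have h1 := hmax y (m x) (hmK x)
    rw [aff_add (hb (hmK x)) x y] at h1
    simp only [hp, hD]
    linarith
  have hDn : ∀ x z, |D x z| ≤ 2 * ‖z‖ := fun x z => by
    have h1 := (D x).le_opNorm z
    rw [Real.norm_eq_abs] at h1
    exact h1.trans (mul_le_mul_of_nonneg_right (norm_lin_le (hb (hmK x))) (norm_nonneg _))
  -- pins give positive weights
  have hpos : ∀ x π, PinK K x π → ∃ n, 0 < (m x n).1 π := by
    rintro x π ⟨g, hg, hN⟩
    have hlim : Tendsto (fun n : ℕ => (1 / 2 : ℝ) ^ n * (2 * ∑' t, rho t)) atTop (𝓝 0) := by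
      simpa using (tendsto_pow_atTop_nhds_zero_of_lt_one (r := (1 / 2 : ℝ)) (by norm_num)
        (by norm_num)).mul_const (2 * ∑' t, rho t)
    obtain ⟨N, hN'⟩ := eventually_atTop.1 (hlim.eventually (p := fun r => r < g) (Iio_mem_nhds hg))
    obtain ⟨n, hn, hn'⟩ := hN N
    refine ⟨n, hn' _ (hmK x n) fun Q hQ => ?_⟩
    have h1 := hmax x (Function.update (m x) n Q) fun i => by
      rcases eq_or_ne i n with rfl | hi
      · simpa using hQ
      · simpa [hi] using hmK x i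
    rw [aff_update (hb (hmK x))] at h1
    have h2 := pen_update (en := en) (hb (hmK x)) n (hbox n Q hQ)
    have h3 := hN' n hn
    have h4 : (1 / 4 : ℝ) ^ n = (1 / 2) ^ n * (1 / 2) ^ n := by rw [← mul_pow]; norm_num
    have h5 : (0 : ℝ) < (1 / 2) ^ n := by positivity
    have h6 : (1 / 2 : ℝ) ^ n * (Q.val x - (m x n).val x) ≤
        (1 / 2 : ℝ) ^ n * ((1 / 2 : ℝ) ^ n * (2 * ∑' t, rho t)) := by
      rw [h4] at h2
      linarith
    linarith [le_of_mul_le_mul_left h6 h5]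
  -- midpoint defect
  have hdef : ∀ x y (j : Ix X), wt j.1 * ((((m x j.1.2.1).1 j.2 - (m y j.1.2.1).1 j.2) ^ 2 +
      (max (inner en (m x) j) 0 - max (inner en (m y) j) 0) ^ 2) / 4) ≤ 2 * ‖y - x‖ := by
    intro x y j
    have hm : ∀ i, midf (m x) (m y) i ∈ K i := fun i => hmid i _ (hmK x i) _ (hmK y i)
    have h1 := pen_mid (en := en) (hb (hmK x)) (hb (hmK y)) (hb hm) j
    have h2 := hmax x _ hm
    rw [aff_mid (hb (hmK x)) (hb (hmK y))] at h2
    have h3 := hsub x y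
    have h4 := aff_add (hb (hmK y)) x y
    have h5 := abs_le.1 (hDn x (y - x))
    have h6 := abs_le.1 (hDn y (y - x))
    simp only [hp, hD] at h3 h5 h6
    linarith [h5.1, h6.2]
  have hcomp' : ∀ x i, Tendsto (fun y => (m y i).fn) (𝓝 x) (𝓝 (m x i).fn) := by
    intro x i
    rw [Metric.tendsto_nhds]
    intro ε hε
    obtain ⟨π, l, h1, h2⟩ := hgood x i (ε / 4) (by positivity)
    obtain ⟨n, hn⟩ := hpos x π h2
    obtain ⟨r, hr⟩ := exists_nat_one_div_lt hn
    set k : ℕ := Nat.pair l r with hk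
    set j : Ix X := ((i, n, k), π) with hj
    have hcd : cd en j = en π l := by simp [cd, hj, hk]
    have hw := wt_pos j.1
    have ha : Tendsto (fun y => (m y n).1 π) (𝓝 x) (𝓝 ((m x n).1 π)) :=
      tendsto_of_sq_le hw fun y => le_trans (by
        have := sq_nonneg (max (inner en (m x) j) 0 - max (inner en (m y) j) 0)
        gcongr
        exact le_add_of_nonneg_right this) (hdef x y j)
    have hs : Tendsto (fun y => max (inner en (m y) j) 0) (𝓝 x)
        (𝓝 (max (inner en (m x) j) 0)) :=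
      tendsto_of_sq_le hw fun y => le_trans (by
        have := sq_nonneg ((m x j.1.2.1).1 j.2 - (m y j.1.2.1).1 j.2)
        gcongr
        exact le_add_of_nonneg_left this) (hdef x y j)
    set c : ℝ := 1 / ((1 + ‖en π l‖) * ((k : ℝ) + 1)) with hc
    have hcpos : 0 < c := by positivity
    have hin : ∀ y, inner en (m y) j = (m y n).1 π - 1 / ((k : ℝ) + 1) +
        ‖(m y i).fn - en π l‖ * c := fun y => by
      unfold inner
      rw [hcd]
    have hkr : 1 / ((k : ℝ) + 1) ≤ 1 / ((r : ℝ) + 1) := by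
      have : (r : ℝ) ≤ k := by exact_mod_cast Nat.right_le_pair l r
      gcongr
    have hipos : 0 < inner en (m x) j := by
      rw [hin]
      have : 0 ≤ ‖(m x i).fn - en π l‖ * c := by positivity
      linarith
    rw [max_eq_left hipos.le] at hs
    have hη : 0 < ε / 4 * c / 2 := by positivity
    filter_upwards [Metric.tendsto_nhds.1 ha _ hη, Metric.tendsto_nhds.1 hs _ hη] with y h3 h4
    rw [Real.dist_eq, abs_lt] at h3 h4
    have h5 := le_max_left (inner en (m y) j) 0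
    have h6 : ‖(m y i).fn - en π l‖ * c < (‖(m x i).fn - en π l‖ + ε / 4) * c := by
      have e1 := hin x
      have e2 := hin y
      linarith [h3.1, h4.2]
    have h7 := lt_of_mul_lt_mul_right h6 hcpos.le
    have h8 := dist_triangle_right (m y i).fn (m x i).fn (en π l)
    simp only [dist_eq_norm] at h8 ⊢
    linarith
  have hDc : Continuous D := continuous_iff_continuousAt.2 fun x =>
    tendsto_tsum_of_dominated_convergence summable_geometric_two
      (fun i => (hcomp' x i).const_smul _)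
      (Eventually.of_forall fun y i => norm_lin_term (hb (hmK y)) i)
  have hder : ∀ x, HasFDerivAt p (D x) x := by
    intro x
    rw [hasFDerivAt_iff_isLittleO, Asymptotics.isLittleO_iff]
    intro ε hε
    filter_upwards [Metric.tendsto_nhds.1 (hDc.tendsto x) ε hε] with y hy
    have h1 := hsub x y
    have h2 := hsub y x
    have h3 := (D y - D x).le_opNorm (y - x)
    rw [dist_eq_norm] at hy
    have h4 : ‖D y - D x‖ * ‖y - x‖ ≤ ε * ‖y - x‖ := by gcongr
    rw [← neg_sub y x, map_neg] at h2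
    rw [Real.norm_eq_abs, sub_apply] at h3
    rw [Real.norm_eq_abs, abs_le]
    have := norm_nonneg (y - x)
    constructor
    · nlinarith
    · linarith [le_abs_self (D y (y - x) - D x (y - x))]
  -- symmetrisation
  refine hasC1Norm_of_smooth (f := fun x => p x + p (-x)) (D := fun x => D x - D (-x))
    (fun x => ?_) (hDc.sub (hDc.comp continuous_neg)) (fun x y => ?_) (fun x => ?_)
    (c := 1) (M := 4 * (∑' t, rho t) + 8) one_pos fun x => ?_
  · have h1 := HasFDerivAt.comp x (f := fun y : X => -y) (hder (-x)) (hasFDerivAt_id x).neg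
    refine ((hder x).add h1).congr_fderiv ?_
    ext y
    simp [sub_eq_add_neg]
  · have h1 := hsub x y
    have h2 := hsub (-x) (-y)
    have : -y - -x = -(y - x) := by abel
    rw [this, map_neg] at h2
    simp only [sub_apply]
    linarith
  · simp only [neg_neg]; ring
  · obtain ⟨ξ, hξ1, hξ2⟩ := exists_dual_vector'' ℝ x
    obtain ⟨P, hP, hP1, hP2⟩ := h0 ξ hξ1
    obtain ⟨Q, hQ, hQ1, hQ2⟩ := h0 (-ξ) (by rwa [norm_neg])
    have hup : ∀ R ∈ K 0, ∀ i, Function.update (m 0) 0 R i ∈ K i := fun R hR i => by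
      rcases eq_or_ne i 0 with rfl | hi
      · simpa using hR
      · simpa [hi] using hmK 0 i
    have h1 := hmax x _ (hup P hP)
    have h2 := hmax (-x) _ (hup Q hQ)
    rw [aff_update (hb (hmK 0))] at h1 h2
    have h3 := pen_le (en := en) (hb (hup P hP))
    have h4 := pen_le (en := en) (hb (hup Q hQ))
    have h5 := aff_add (hb (hmK 0)) 0 x
    have h6 := aff_add (hb (hmK 0)) 0 (-x)
    have h7 : |aff (m 0) 0| ≤ 2 := by
      have := tsum_of_norm_bounded (hasSum_geometric_two.mul_right (‖(0 : X)‖ + 1))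
        (norm_aff_term (hb (hmK 0)) 0)
      simpa [aff] using this
    have h8 := (hb (hmK 0) 0).off_le
    simp only [Pt.val, hP1, hP2, hQ1, hQ2, sub_zero, map_neg, pow_zero, one_mul, neg_apply,
      neg_neg] at h1 h2 h5 h6
    have h9 : ξ x = ‖x‖ := by simpa using hξ2
    have := norm_nonneg x
    simp only [hp]
    linarith [(abs_le.1 h7).1, (abs_le.1 h8).1]

end Pool.Agent.MP_151be3_an

end

-- part MP_151be3_an.Closure
section

/-! Finitary closure operators with countable values. -/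

namespace Pool.Agent.MP_151be3_an

open Set

variable {X : Type*}

/-- `A` is closed under `Φ`. -/
def Clo (Φ : Finset X → Set X) (A : Set X) : Prop := ∀ F : Finset X, (F : Set X) ⊆ A → Φ F ⊆ A

/-- closure of `S` under `Φ`. -/
def cl (Φ : Finset X → Set X) (S : Set X) : Set X := ⋂₀ {A | Clo Φ A ∧ S ⊆ A}

variable {Φ : Finset X → Set X}

theorem subset_cl (S : Set X) : S ⊆ cl Φ S := fun _ hx _ hA => hA.2 hx

theorem clo_cl (S : Set X) : Clo Φ (cl Φ S) := fun F hF _ hx A hA =>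
  hA.1 F (fun _ hy => hF hy A hA) hx

theorem cl_subset {S A : Set X} (hA : Clo Φ A) (hS : S ⊆ A) : cl Φ S ⊆ A :=
  fun _ hx => hx A ⟨hA, hS⟩

theorem cl_mono {S T : Set X} (h : S ⊆ T) : cl Φ S ⊆ cl Φ T :=
  cl_subset (clo_cl T) (h.trans (subset_cl T))

theorem Clo.of_subset {Ψ : Finset X → Set X} {A : Set X} (hA : Clo Ψ A) (h : ∀ F, Φ F ⊆ Ψ F) :
    Clo Φ A := fun F hF => (h F).trans (hA F hF)

theorem exists_finset_of_subset_cl {S : Set X} (F : Finset X) (hF : (F : Set X) ⊆ cl Φ S) :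
    ∃ π : Finset X, (π : Set X) ⊆ S ∧ (F : Set X) ⊆ cl Φ π := by
  classical
  have key : ∀ F : Finset X, (∀ x ∈ F, ∃ π : Finset X, (π : Set X) ⊆ S ∧ x ∈ cl Φ π) →
      ∃ π : Finset X, (π : Set X) ⊆ S ∧ (F : Set X) ⊆ cl Φ π := by
    intro F
    induction F using Finset.induction_on with
    | empty => exact fun _ => ⟨∅, by simp, by simp⟩
    | insert a F _ ih =>
      intro h
      obtain ⟨π₁, h1, h2⟩ := ih fun x hx => h x (Finset.mem_insert_of_mem hx)
      obtain ⟨π₂, h3, h4⟩ := h a (Finset.mem_insert_self _ _)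
      refine ⟨π₁ ∪ π₂, by rw [Finset.coe_union]; exact union_subset h1 h3, ?_⟩
      rw [Finset.coe_insert, Finset.coe_union]
      exact insert_subset (cl_mono subset_union_right h4) (h2.trans (cl_mono subset_union_left))
  have hclo : Clo Φ {x | ∃ π : Finset X, (π : Set X) ⊆ S ∧ x ∈ cl Φ π} := by
    intro G hG x hx
    obtain ⟨π, h1, h2⟩ := key G fun y hy => hG hy
    exact ⟨π, h1, clo_cl _ G h2 hx⟩
  refine key F fun x hx => cl_subset hclo (fun y hy => ?_) (hF hx)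
  exact ⟨{y}, by simpa using hy, subset_cl _ (by simp)⟩

theorem countable_finsets {A : Set X} (hA : A.Countable) :
    {F : Finset X | (F : Set X) ⊆ A}.Countable := by
  have h1 := Set.countable_ofPred_finite_subset hA
  refine Set.Countable.mono ?_ (h1.preimage_of_injOn (f := fun F : Finset X => (F : Set X))
    (Finset.coe_injective.injOn))
  intro F hF
  exact ⟨F.finite_toSet, hF⟩

theorem countable_cl (hΦ : ∀ F, (Φ F).Countable) {S : Set X} (hS : S.Countable) :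
    (cl Φ S).Countable := by
  classical
  let step : Set X → Set X := fun A => A ∪ ⋃ F ∈ {F : Finset X | (F : Set X) ⊆ A}, Φ F
  have hstep : ∀ A : Set X, A.Countable → (step A).Countable := by
    intro A hA
    exact hA.union (Set.Countable.biUnion (countable_finsets hA) fun F _ => hΦ F)
  let T : ℕ → Set X := fun n => step^[n] S
  have hT : ∀ n, T (n + 1) = step (T n) := fun n => Function.iterate_succ_apply' step n S
  have hTc : ∀ n, (T n).Countable := by
    intro n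
    induction n with
    | zero => exact hS
    | succ n ih => rw [hT]; exact hstep _ ih
  have hTm : Monotone T := monotone_nat_of_le_succ fun n => by rw [hT]; exact subset_union_left
  refine (countable_iUnion hTc).mono (cl_subset ?_ (subset_iUnion T 0))
  intro F hF
  obtain ⟨n, hn⟩ : ∃ n, (F : Set X) ⊆ T n :=
    hTm.directed_le.exists_mem_subset_of_finset_subset_biUnion hF
  refine Subset.trans ?_ (subset_iUnion T (n + 1))
  rw [hT]
  exact fun x hx => Or.inr (mem_biUnion (show F ∈ {F : Finset X | (F : Set X) ⊆ T n} from hn) hx)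

end Pool.Agent.MP_151be3_an

end

-- part MP_151be3_an.Club
section

/-! Truncation of dual variables to a sufficiently closed set of vectors. -/

namespace Pool.Agent.MP_151be3_an

open Set Filter Topology Metric

variable {X : Type*} [NormedAddCommGroup X] [NormedSpace ℝ X]

theorem club {K : Set (Pt X)} (hK : IsCompact K) (e : StrongDual ℝ X) (a : Finset X → ℝ)
    (β : ℝ) {ε : ℝ} (hε : 0 ≤ ε) :
    ∃ F : Finset X, ∀ P ∈ K, (∀ u ∈ F, |(P.fn - e) u| ≤ ε * ‖u‖) →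
      (∀ π ⊆ F, |P.1 π - a π| ≤ ε) → |P.2.2 - β| ≤ ε →
      ∃ Q ∈ K, ‖Q.fn - e‖ ≤ ε ∧ (∀ π, |Q.1 π - a π| ≤ ε) ∧ |Q.2.2 - β| ≤ ε := by
  classical
  let C : Finset X → Set (Pt X) := fun F => K ∩ ((⋂ u ∈ F, {P | |(P.fn - e) u| ≤ ε * ‖u‖}) ∩
    ((⋂ π ∈ {π | π ⊆ F}, {P | |P.1 π - a π| ≤ ε}) ∩ {P | |P.2.2 - β| ≤ ε}))
  have hC : ∀ F P, P ∈ C F ↔ P ∈ K ∧ (∀ u ∈ F, |(P.fn - e) u| ≤ ε * ‖u‖) ∧
      (∀ π ⊆ F, |P.1 π - a π| ≤ ε) ∧ |P.2.2 - β| ≤ ε := fun F P => by
    simp only [C, mem_inter_iff, mem_iInter, mem_ofPred_eq]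
  by_cases h : ∀ F, (C F).Nonempty
  · have hcl : ∀ F, IsClosed (C F) := fun F => by
      refine hK.isClosed.inter ((isClosed_biInter fun u _ => ?_).inter
        ((isClosed_biInter fun π _ => ?_).inter ?_))
      · exact isClosed_le ((Pt.continuous_fn_apply u).sub continuous_const).abs continuous_const
      · exact isClosed_le ((Pt.continuous_a π).sub continuous_const).abs continuous_const
      · exact isClosed_le ((continuous_snd.comp continuous_snd).sub continuous_const).abs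
          continuous_const
    have hmono : ∀ F G : Finset X, F ⊆ G → C G ⊆ C F := fun F G hFG P hP => by
      rw [hC] at hP ⊢
      exact ⟨hP.1, fun u hu => hP.2.1 u (hFG hu), fun π hπ => hP.2.2.1 π (hπ.trans hFG),
        hP.2.2.2⟩
    obtain ⟨Q, hQ⟩ := IsCompact.nonempty_iInter_of_directed_nonempty_isCompact_isClosed C
      (fun F G => ⟨F ∪ G, hmono _ _ Finset.subset_union_left,
        hmono _ _ Finset.subset_union_right⟩) h
      (fun F => hK.of_isClosed_subset (hcl F) inter_subset_left) hcl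
    rw [mem_iInter] at hQ
    refine ⟨∅, fun _ _ _ _ _ => ⟨Q, (hQ ∅).1, ?_, fun π => ?_, ((hC _ _).1 (hQ ∅)).2.2.2⟩⟩
    · exact ContinuousLinearMap.opNorm_le_bound _ hε fun u =>
        ((hC _ _).1 (hQ {u})).2.1 u (Finset.mem_singleton_self u)
    · exact ((hC _ _).1 (hQ π)).2.2.1 π (Finset.Subset.refl _)
  · push Not at h
    obtain ⟨F, hF⟩ := h
    refine ⟨F, fun P h1 h2 h3 h4 => ?_⟩
    have : P ∈ C F := (hC _ _).2 ⟨h1, h2, h3, h4⟩
    rw [hF] at this
    exact this.elim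

theorem exists_trunc (K : ℕ → Set (Pt X)) (hcomp : ∀ n, IsCompact (K n))
    (hbox : ∀ n, ∀ P ∈ K n, P.Box) (Φ : Finset X → Set X) (hΦ : ∀ F, (Φ F).Countable)
    (Code : Finset X → Set (StrongDual ℝ X)) (hCc : ∀ F, (Code F).Countable)
    (hCm : ∀ F G, F ⊆ G → Code F ⊆ Code G)
    (hC : ∀ A, Clo Φ A → ∀ ξ : StrongDual ℝ X, ∀ ε > 0, ∃ F : Finset X, (F : Set X) ⊆ A ∧
      ∃ e ∈ Code F, ∀ u ∈ A, |(ξ - e) u| ≤ ε * ‖u‖) :
    ∃ Ψ : Finset X → Set X, (∀ F, (Ψ F).Countable) ∧ (∀ F, Φ F ⊆ Ψ F) ∧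
      ∀ A, Clo Ψ A → ∀ n, ∀ P ∈ K n, ∃ Q ∈ K n,
        (∀ π : Finset X, (π : Set X) ⊆ A → Q.1 π = P.1 π) ∧
        (∀ π : Finset X, ¬ (π : Set X) ⊆ A → Q.1 π = 0) ∧ Q.2.2 = P.2.2 ∧
        (∀ u ∈ A, Q.fn u = P.fn u) ∧
        (∀ F : Finset X, (F : Set X) ⊆ A → ∀ e ∈ Code F, ‖Q.fn - e‖ ≤ ‖P.fn - e‖) ∧
        (∀ ε > 0, ∃ F : Finset X, (F : Set X) ⊆ A ∧ ∃ e ∈ Code F, ‖Q.fn - e‖ ≤ ε) := by
  classical
  have hε : ∀ k : ℕ, (0 : ℝ) < 1 / ((k : ℝ) + 1) := fun k => by positivity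
  have hnv : ∀ (e : StrongDual ℝ X) (k : ℕ),
      ∃ v : X, ‖v‖ < 1 ∧ ‖e‖ - 1 / ((k : ℝ) + 1) < ‖e v‖ := fun e k =>
    e.exists_lt_apply_of_lt_opNorm (by linarith [hε k])
  choose nv hnv1 hnv2 using hnv
  choose bad hbad using fun (n : ℕ) (e : StrongDual ℝ X) (a : Finset X → ℝ) (β : ℝ) (k : ℕ) =>
    club (hcomp n) e a β (hε k).le
  let ex : (F : Finset X) → (F.powerset → ℚ) → Finset X → ℝ := fun F f π =>
    if h : π ∈ F.powerset then (f ⟨π, h⟩ : ℝ) else 0
  let Φ₂ : Finset X → Set X := fun F => ⋃ e ∈ Code F, ⋃ e' ∈ Code F, range (nv (e - e'))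
  let Φ₃ : Finset X → Set X := fun F => ⋃ n : ℕ, ⋃ e ∈ Code F, ⋃ f : F.powerset → ℚ,
    ⋃ β : ℚ, ⋃ k : ℕ, (bad n e (ex F f) β k : Set X)
  refine ⟨fun F => Φ F ∪ (Φ₂ F ∪ Φ₃ F), fun F => (hΦ F).union (Set.Countable.union ?_ ?_),
    fun F => subset_union_left, fun A hA n P hP => ?_⟩
  · exact (hCc F).biUnion fun e _ => (hCc F).biUnion fun e' _ => countable_range _
  · exact countable_iUnion fun n => (hCc F).biUnion fun e _ => countable_iUnion fun f =>
      countable_iUnion fun β => countable_iUnion fun k => (Finset.countable_toSet _)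
  have hA1 : Clo Φ A := hA.of_subset fun F => subset_union_left
  have hlim : Tendsto (fun k : ℕ => 1 / ((k : ℝ) + 1)) atTop (𝓝 0) :=
    tendsto_one_div_add_atTop_nhds_zero_nat
  -- differences of codes are normed by `A`
  have hnorm : ∀ F G : Finset X, (F : Set X) ⊆ A → (G : Set X) ⊆ A → ∀ e ∈ Code F,
      ∀ e' ∈ Code G, ∀ r, 0 ≤ r → (∀ u ∈ A, |(e - e') u| ≤ r * ‖u‖) → ‖e - e'‖ ≤ r := by
    intro F G hF hG e he e' he' r hr h
    have hFG : ((F ∪ G : Finset X) : Set X) ⊆ A := by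
      rw [Finset.coe_union]; exact union_subset hF hG
    have h1 : ∀ k : ℕ, ‖e - e'‖ - 1 / ((k : ℝ) + 1) ≤ r := fun k => by
      have h2 : nv (e - e') k ∈ A := hA _ hFG (Or.inr (Or.inl
        (mem_biUnion (hCm _ _ Finset.subset_union_left he)
          (mem_biUnion (hCm _ _ Finset.subset_union_right he') (mem_range_self k)))))
      have h3 := h _ h2
      have h4 := hnv2 (e - e') k
      rw [Real.norm_eq_abs] at h4
      have h5 : r * ‖nv (e - e') k‖ ≤ r := mul_le_of_le_one_right hr (hnv1 _ _).le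
      linarith
    simpa using le_of_tendsto' (tendsto_const_nhds.sub hlim) h1
  let tr : Finset X → ℝ := fun π => if (π : Set X) ⊆ A then P.1 π else 0
  have hstep : ∀ k : ℕ, ∃ F : Finset X, (F : Set X) ⊆ A ∧ ∃ e ∈ Code F,
      (∀ u ∈ A, |(P.fn - e) u| ≤ 1 / ((k : ℝ) + 1) * ‖u‖) ∧ ∃ Q ∈ K n,
      ‖Q.fn - e‖ ≤ 1 / ((k : ℝ) + 1) ∧ (∀ π, |Q.1 π - tr π| ≤ 2 * (1 / ((k : ℝ) + 1))) ∧
      |Q.2.2 - P.2.2| ≤ 2 * (1 / ((k : ℝ) + 1)) := by
    intro k
    obtain ⟨F₁, hF₁, e, he, he'⟩ := hC A hA1 P.fn _ (hε k)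
    have hfin : {π | ¬ P.1 π < 1 / ((k : ℝ) + 1)}.Finite :=
      (summable_of_sum_le (hbox n P hP).nonneg (hbox n P hP).sum_le).tendsto_cofinite_zero.eventually
        (p := fun r => r < 1 / ((k : ℝ) + 1)) (Iio_mem_nhds (hε k))
    let F₂ : Finset X := (hfin.toFinset.filter fun π : Finset X => (π : Set X) ⊆ A).biUnion id
    have hF₂ : (F₂ : Set X) ⊆ A := by
      intro x hx
      obtain ⟨π, h1, h2⟩ := Finset.mem_biUnion.1 (Finset.mem_coe.1 hx)
      exact (Finset.mem_filter.1 h1).2 h2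
    have hF : ((F₁ ∪ F₂ : Finset X) : Set X) ⊆ A := by
      rw [Finset.coe_union]; exact union_subset hF₁ hF₂
    choose f hf using fun π : (F₁ ∪ F₂).powerset => exists_rat_near (P.1 π) (hε k)
    obtain ⟨β, hβ⟩ := exists_rat_near P.2.2 (hε k)
    have hap : ∀ π, |tr π - ex (F₁ ∪ F₂) f π| ≤ 1 / ((k : ℝ) + 1) := by
      intro π
      by_cases h1 : π ∈ (F₁ ∪ F₂).powerset
      · have h2 : (π : Set X) ⊆ A :=
          (Finset.coe_subset.2 (Finset.mem_powerset.1 h1)).trans hF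
        simp only [tr, ex, dif_pos h1, if_pos h2]
        exact (hf ⟨π, h1⟩).le
      · simp only [tr, ex, dif_neg h1, sub_zero]
        split_ifs with h2
        · rw [abs_of_nonneg ((hbox n P hP).nonneg π)]
          by_contra h3
          refine h1 (Finset.mem_powerset.2 (Finset.Subset.trans ?_ Finset.subset_union_right))
          refine Finset.subset_biUnion_of_mem id (Finset.mem_filter.2 ⟨?_, h2⟩)
          rw [Set.Finite.mem_toFinset]
          exact fun h4 => h3 h4.le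
        · simpa using (hε k).le
    have he2 : e ∈ Code (F₁ ∪ F₂) := hCm _ _ Finset.subset_union_left he
    have hbA : (bad n e (ex (F₁ ∪ F₂) f) β k : Set X) ⊆ A := fun x hx =>
      hA _ hF (Or.inr (Or.inr (mem_iUnion.2 ⟨n, mem_biUnion he2
        (mem_iUnion.2 ⟨f, mem_iUnion.2 ⟨β, mem_iUnion.2 ⟨k, hx⟩⟩⟩)⟩)))
    obtain ⟨Q, hQ, h1, h2, h3⟩ := hbad n e (ex (F₁ ∪ F₂) f) β k P hP
      (fun u hu => he' u (hbA hu))
      (fun π hπ => by
        have h4 : (π : Set X) ⊆ A := (Finset.coe_subset.2 hπ).trans hbA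
        simpa only [tr, if_pos h4] using hap π) hβ.le
    refine ⟨F₁, hF₁, e, he, he', Q, hQ, h1, fun π => ?_, ?_⟩
    · have h4 := abs_le.1 (h2 π)
      have h5 := abs_le.1 (hap π)
      rw [abs_le]
      constructor <;> linarith [h4.1, h4.2, h5.1, h5.2]
    · have h4 := abs_le.1 h3
      have h5 := abs_lt.1 hβ
      rw [abs_le]
      constructor <;> linarith [h4.1, h4.2, h5.1, h5.2]
  choose F hF e he he' Q hQ hQ1 hQ2 hQ3 using hstep
  have hlim2 : Tendsto (fun k : ℕ => 2 * (1 / ((k : ℝ) + 1))) atTop (𝓝 0) := by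
    simpa only [mul_zero] using hlim.const_mul 2
  have hcau : CauchySeq e := by
    refine cauchySeq_of_le_tendsto_0 _ (fun k l N hk hl => ?_) hlim2
    rw [dist_eq_norm]
    refine hnorm _ _ (hF k) (hF l) _ (he k) _ (he l) _ (by positivity) fun u hu => ?_
    have h1 := abs_le.1 (he' k u hu)
    have h2 := abs_le.1 (he' l u hu)
    have h3 : 1 / ((k : ℝ) + 1) * ‖u‖ ≤ 1 / ((N : ℝ) + 1) * ‖u‖ := by gcongr
    have h4 : 1 / ((l : ℝ) + 1) * ‖u‖ ≤ 1 / ((N : ℝ) + 1) * ‖u‖ := by gcongr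
    rw [sub_apply] at h1 h2 ⊢
    rw [abs_le]
    constructor <;> linarith [h1.1, h1.2, h2.1, h2.2]
  obtain ⟨η, hη⟩ := cauchySeq_tendsto_of_complete hcau
  have hQη : Tendsto (fun k => (Q k).fn) atTop (𝓝 η) := by
    have h1 : Tendsto (fun k => (Q k).fn - e k) atTop (𝓝 0) :=
      squeeze_zero_norm hQ1 hlim
    simpa using h1.add hη
  refine ⟨Pt.mk' tr η P.2.2, ?_, fun π hπ => if_pos hπ, fun π hπ => if_neg hπ, rfl,
    fun u hu => ?_, fun G hG e₀ he₀ => ?_, fun ε hε' => ?_⟩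
  · refine (hcomp n).isClosed.mem_of_tendsto (f := Q) (b := atTop) ?_ (Eventually.of_forall hQ)
    refine Tendsto.prodMk_nhds (tendsto_pi_nhds.2 fun π => ?_) (Tendsto.prodMk_nhds ?_ ?_)
    · rw [tendsto_iff_dist_tendsto_zero]
      exact squeeze_zero (fun _ => dist_nonneg) (fun k => hQ2 k π) hlim2
    · exact (NormedSpace.Dual.toWeakDual_continuous.tendsto η).comp hQη
    · rw [tendsto_iff_dist_tendsto_zero]
      exact squeeze_zero (fun _ => dist_nonneg) (fun k => hQ3 k) hlim2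
  · have h1 : Tendsto (fun k => e k u) atTop (𝓝 (η u)) :=
      ((ContinuousLinearMap.apply ℝ ℝ u).continuous.tendsto η).comp hη
    have h2 : Tendsto (fun k => e k u) atTop (𝓝 (P.fn u)) := by
      rw [tendsto_iff_dist_tendsto_zero]
      refine squeeze_zero (fun _ => dist_nonneg) (fun k => ?_)
        (by simpa only [zero_mul] using hlim.mul_const ‖u‖)
      rw [Real.dist_eq, abs_sub_comm]
      exact he' k u hu
    exact tendsto_nhds_unique h1 h2
  · have h1 : ∀ k, ‖e k - e₀‖ ≤ ‖P.fn - e₀‖ + 1 / ((k : ℝ) + 1) := fun k => by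
      refine hnorm _ _ (hF k) hG _ (he k) _ he₀ _ (by positivity) fun u hu => ?_
      have h2 := abs_le.1 (he' k u hu)
      have h3 := (P.fn - e₀).le_opNorm u
      rw [Real.norm_eq_abs, abs_le] at h3
      rw [sub_apply] at h2 h3 ⊢
      rw [abs_le]
      constructor <;> linarith [h2.1, h2.2, h3.1, h3.2]
    have h2 := le_of_tendsto_of_tendsto' (hη.sub_const e₀).norm (tendsto_const_nhds.add hlim) h1
    simpa using h2
  · obtain ⟨k, hk⟩ := (Metric.tendsto_nhds.1 hη ε hε').exists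
    refine ⟨F k, hF k, e k, he k, ?_⟩
    rw [dist_comm, dist_eq_norm] at hk
    exact hk.le

end Pool.Agent.MP_151be3_an

end

-- part MP_151be3_an.Core
section

/-! The abstract renorming theorem: codes and pins give an equivalent `C¹` norm. -/

namespace Pool.Agent.MP_151be3_an

open Set Filter Topology Metric

/-- configurations: a label, a functional and an offset. -/
abbrev Cfg (X : Type*) [NormedAddCommGroup X] [NormedSpace ℝ X] :=
  Finset X × StrongDual ℝ X × ℝ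

variable {X : Type*} [NormedAddCommGroup X] [NormedSpace ℝ X]

/-- value of a configuration. -/
def Cfg.val (c : Cfg X) (x : X) : ℝ := c.2.1 x - c.2.2

/-- all near-maximisers of the value at `x` carry the label `π`. -/
def Pins (E : Set (Cfg X)) (x : X) (π : Finset X) : Prop :=
  ∃ g > 0, ∀ c ∈ E, c.1 ≠ π → ∃ c' ∈ E, c.val x + g ≤ c'.val x

theorem Pt.Box.mid {P Q : Pt X} (hP : P.Box) (hQ : Q.Box) : (Pt.mid P Q).Box := by
  refine ⟨fun π => ?_, fun s => ?_, ?_, ?_⟩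
  · have h1 := hP.nonneg π
    have h2 := hQ.nonneg π
    simp only [Pt.mid, Pt.mk'_a]
    positivity
  · simp only [Pt.mid, Pt.mk'_a]
    rw [← Finset.sum_div, Finset.sum_add_distrib]
    linarith [hP.sum_le s, hQ.sum_le s]
  · simp only [Pt.mid, Pt.mk'_fn]
    rw [norm_smul, Real.norm_eq_abs, abs_of_pos (by norm_num)]
    linarith [norm_add_le P.fn Q.fn, hP.norm_le, hQ.norm_le]
  · simp only [Pt.mid, Pt.mk'_b]
    have h1 := abs_le.1 hP.off_le
    have h2 := abs_le.1 hQ.off_le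
    rw [abs_le]
    constructor <;> linarith [h1.1, h1.2, h2.1, h2.2]

open Classical in
/-- the compact convex set attached to a set of configurations. -/
def KK (E : Set (Cfg X)) : Set (Pt X) :=
  {P | P.Box ∧ ∀ (x : X) (π : Finset X) (g s : ℝ),
    (∀ c ∈ E, c.val x + g * (if c.1 = π then 0 else 1) ≤ s) → P.val x + g * (1 - P.1 π) ≤ s}

theorem isCompact_KK (E : Set (Cfg X)) : IsCompact (KK E) := by
  classical
  have : KK E = {P : Pt X | P.Box} ∩ ⋂ (x : X) (π : Finset X) (g : ℝ) (s : ℝ)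
      (_ : ∀ c ∈ E, c.val x + g * (if c.1 = π then 0 else 1) ≤ s),
        {P : Pt X | P.val x + g * (1 - P.1 π) ≤ s} := by
    ext P
    simp only [KK, mem_ofPred_eq, mem_inter_iff, mem_iInter]
  rw [this]
  refine Pt.isCompact_box.inter_right (isClosed_iInter fun x => isClosed_iInter fun π =>
    isClosed_iInter fun g => isClosed_iInter fun s => isClosed_iInter fun _ => ?_)
  exact isClosed_le ((Pt.continuous_val x).add
    (continuous_const.mul (continuous_const.sub (Pt.continuous_a π)))) continuous_const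

theorem mid_mem_KK {E : Set (Cfg X)} {P Q : Pt X} (hP : P ∈ KK E) (hQ : Q ∈ KK E) :
    Pt.mid P Q ∈ KK E := by
  refine ⟨hP.1.mid hQ.1, fun x π g s h => ?_⟩
  have h1 := hP.2 x π g s h
  have h2 := hQ.2 x π g s h
  rw [Pt.mid_val]
  simp only [Pt.mid, Pt.mk'_a]
  linarith

theorem exists_mem_KK {E : Set (Cfg X)} {c : Cfg X} (hc : c ∈ E) (h1 : ‖c.2.1‖ ≤ 1)
    (h2 : |c.2.2| ≤ 1) : ∃ P ∈ KK E, ∀ x, P.val x = c.val x := by
  classical
  refine ⟨Pt.mk' (fun π => if c.1 = π then 1 else 0) c.2.1 c.2.2,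
    ⟨⟨fun π => ?_, fun s => ?_, h1, h2⟩, fun x π g s h => ?_⟩, fun x => rfl⟩
  · simp only [Pt.mk'_a]
    split_ifs <;> norm_num
  · simp only [Pt.mk'_a, Finset.sum_ite_eq]
    split_ifs <;> norm_num
  · have h3 := h c hc
    have h4 : (Pt.mk' (fun π => if c.1 = π then 1 else 0) c.2.1 c.2.2).val x = c.val x := rfl
    rw [h4, Pt.mk'_a]
    split_ifs at h3 ⊢ <;> simpa using h3

theorem pos_of_pins {E : Set (Cfg X)} (hb : ∀ c ∈ E, ‖c.2.1‖ ≤ 1 ∧ |c.2.2| ≤ 1) {x : X}
    {π : Finset X} {g : ℝ} (hg : 0 < g)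
    (h : ∀ c ∈ E, c.1 ≠ π → ∃ c' ∈ E, c.val x + g ≤ c'.val x) {P : Pt X} (hP : P ∈ KK E)
    (hmax : ∀ Q ∈ KK E, Q.val x ≤ P.val x + g / 2) : 0 < P.1 π := by
  have h1 : ∀ c ∈ E, c.val x ≤ P.val x + g / 2 := fun c hc => by
    obtain ⟨Q, hQ, hQ'⟩ := exists_mem_KK hc (hb c hc).1 (hb c hc).2
    rw [← hQ' x]
    exact hmax Q hQ
  have h2 := hP.2 x π g (P.val x + g / 2) fun c hc => by
    split_ifs with h3
    · simpa using h1 c hc
    · obtain ⟨c', hc', h4⟩ := h c hc h3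
      linarith [h1 c' hc']
  by_contra h3
  push Not at h3
  nlinarith

theorem core {ι : Type*} [Countable ι] (E : ι → Set (Cfg X)) (hne : ∀ τ, (E τ).Nonempty)
    (hb : ∀ τ, ∀ c ∈ E τ, ‖c.2.1‖ ≤ 1 ∧ |c.2.2| ≤ 1)
    (Φ : Finset X → Set X) (hΦ : ∀ F, (Φ F).Countable)
    (Code : Finset X → Set (StrongDual ℝ X)) (hCc : ∀ F, (Code F).Countable)
    (hCm : ∀ F G, F ⊆ G → Code F ⊆ Code G) (hC0 : (Code ∅).Nonempty)
    (hC : ∀ A, Clo Φ A → ∀ ξ : StrongDual ℝ X, ∀ ε > 0, ∃ F : Finset X, (F : Set X) ⊆ A ∧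
      ∃ e ∈ Code F, ∀ u ∈ A, |(ξ - e) u| ≤ ε * ‖u‖)
    (hpin : ∀ x : X, ∃ S : Set X, (∀ A, Clo Φ A → S ⊆ A → x ∈ closure A) ∧
      ∀ π : Finset X, (π : Set X) ⊆ S → ∃ π' : Finset X, π ⊆ π' ∧ ∃ τ, Pins (E τ) x π') :
    HasC1Norm X := by
  classical
  have hι : Nonempty ι := by
    obtain ⟨S, -, h⟩ := hpin 0
    obtain ⟨_, -, τ, -⟩ := h ∅ (by simp)
    exact ⟨τ⟩
  obtain ⟨f, hf⟩ := exists_surjective_nat ι
  let K : ℕ → Set (Pt X) := fun n =>
    Nat.casesOn n {P | P.Box} fun n => KK (E (f (Nat.unpair n).1))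
  have hcomp : ∀ n, IsCompact (K n) := fun n => by
    cases n with
    | zero => exact Pt.isCompact_box
    | succ n => exact isCompact_KK _
  have hbox : ∀ n, ∀ P ∈ K n, P.Box := fun n P hP => by
    cases n with
    | zero => exact hP
    | succ n => exact hP.1
  have h0 : ∀ ξ : StrongDual ℝ X, ‖ξ‖ ≤ 1 → ∃ P ∈ K 0, P.fn = ξ ∧ P.2.2 = 0 := fun ξ hξ =>
    ⟨Pt.mk' 0 ξ 0, ⟨fun _ => le_rfl, fun s => by simp, hξ, by simp⟩, rfl, rfl⟩
  obtain ⟨Ψ, hΨc, hΦΨ, hΨ⟩ := exists_trunc K hcomp hbox Φ hΦ Code hCc hCm hC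
  have hen : ∀ π : Finset X, ∃ en : ℕ → StrongDual ℝ X,
      (⋃ F ∈ {F : Finset X | (F : Set X) ⊆ cl Ψ π}, Code F) = range en := fun π => by
    refine Set.Countable.exists_eq_range ?_ ?_
    · exact (countable_finsets (countable_cl hΨc π.countable_toSet)).biUnion fun F _ => hCc F
    · obtain ⟨e, he⟩ := hC0
      exact ⟨e, mem_biUnion (show ∅ ∈ {F : Finset X | (F : Set X) ⊆ cl Ψ π} by simp) he⟩
  choose en hen using hen
  refine hasC1Norm_of_trunc K en hcomp (fun n => ?_) hbox (fun n P hP Q hQ => ?_) h0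
    fun x ω hω => ?_
  · cases n with
    | zero => obtain ⟨P, hP, -⟩ := h0 0 (by simp); exact ⟨P, hP⟩
    | succ n =>
      obtain ⟨c, hc⟩ := hne (f (Nat.unpair n).1)
      obtain ⟨P, hP, -⟩ := exists_mem_KK hc (hb _ c hc).1 (hb _ c hc).2
      exact ⟨P, hP⟩
  · cases n with
    | zero => exact Pt.Box.mid hP hQ
    | succ n => exact mid_mem_KK hP hQ
  obtain ⟨S, hS1, hS2⟩ := hpin x
  have hA : Clo Ψ (cl Ψ S) := clo_cl S
  have hx : x ∈ closure (cl Ψ S) := hS1 _ (hA.of_subset hΦΨ) (subset_cl S)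
  choose ω' h1 h2 h3 h4 h5 h6 h7 using fun i => hΨ _ hA i (ω i) (hω i)
  refine ⟨ω', h1, fun i => ?_, fun π => ?_, fun i ε hε => ?_⟩
  · have : (ω' i).fn x = (ω i).fn x :=
      Set.EqOn.closure (fun u hu => h5 i u hu) (ω' i).fn.continuous (ω i).fn.continuous hx
    simp only [Pt.val, this, h4]
  · by_cases hπ : (π : Set X) ⊆ cl Ψ S
    · refine Or.inr ⟨fun n => h2 n π hπ, fun i l => ?_⟩
      have : en π l ∈ ⋃ F ∈ {F : Finset X | (F : Set X) ⊆ cl Ψ π}, Code F := by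
        rw [hen]; exact mem_range_self l
      obtain ⟨F, hF, he⟩ := mem_iUnion₂.1 this
      exact h6 i F (Subset.trans hF (cl_subset hA hπ)) _ he
    · exact Or.inl fun n => h3 n π hπ
  · obtain ⟨F, hF, e, he, he'⟩ := h7 i ε hε
    obtain ⟨π, hπ, hFπ⟩ := exists_finset_of_subset_cl F hF
    obtain ⟨π', hπ', τ, g, hg, hpins⟩ := hS2 π hπ
    have : e ∈ range (en π') := by
      rw [← hen]
      exact mem_biUnion (show F ∈ {F : Finset X | (F : Set X) ⊆ cl Ψ π'} from
        hFπ.trans (cl_mono (Finset.coe_subset.2 hπ'))) he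
    obtain ⟨l, rfl⟩ := this
    refine ⟨π', l, he', g / 2, half_pos hg, fun N => ?_⟩
    obtain ⟨a, rfl⟩ := hf τ
    refine ⟨Nat.pair a N + 1, (Nat.right_le_pair a N).trans (Nat.le_succ _), fun P hP hmax => ?_⟩
    have hK : K (Nat.pair a N + 1) = KK (E (f a)) := by simp [K]
    rw [hK] at hP hmax
    exact pos_of_pins (hb _) hg hpins hP hmax

end Pool.Agent.MP_151be3_an

end

-- part MP_151be3_an.Tower
section

/-! Towers of gadgets: pins are produced from slots by iterated translation. -/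

namespace Pool.Agent.MP_151be3_an

open Set Filter Topology Metric

variable {X : Type*} [NormedAddCommGroup X] [NormedSpace ℝ X]

/-- all near-maximisers of `p ↦ p.2 w` on the slot `F` carry the label `d`. -/
def PinS (F : Set (X × StrongDual ℝ X)) (w d : X) : Prop :=
  ∃ g > 0, ∀ p ∈ F, p.1 ≠ d → ∃ p' ∈ F, p.2 w + g ≤ p'.2 w

open Classical in
/-- truncation of a vector. -/
noncomputable def cut (R : ℕ) (u : X) : X := if ‖u‖ ≤ R then u else 0

omit [NormedSpace ℝ X] in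
theorem norm_cut_le (R : ℕ) (u : X) : ‖cut R u‖ ≤ R := by
  unfold cut
  split_ifs with h
  · exact h
  · simp

open Classical in
/-- adding one floor to a configuration. -/
noncomputable def glue (u : Finset X → X) (R : ℕ) (v : ℝ) (c : Cfg X)
    (p : X × StrongDual ℝ X) : Cfg X :=
  (insert p.1 c.1, (1 - v) • c.2.1 + (v / ((R : ℝ) + 1)) • p.2,
    (1 - v) * c.2.2 + v / ((R : ℝ) + 1) * p.2 (cut R (u c.1)))

theorem glue_val (u : Finset X → X) (R : ℕ) (v : ℝ) (c : Cfg X) (p : X × StrongDual ℝ X)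
    (x : X) : (glue u R v c p).val x =
      (1 - v) * c.val x + v / ((R : ℝ) + 1) * p.2 (x - cut R (u c.1)) := by
  simp only [glue, Cfg.val, add_apply, smul_apply, smul_eq_mul, map_sub]
  ring

theorem abs_apply_cut {ρ : StrongDual ℝ X} (h : ‖ρ‖ ≤ 1) (R : ℕ) (u : X) :
    |ρ (cut R u)| ≤ R := by
  have h1 := ρ.le_opNorm (cut R u)
  rw [Real.norm_eq_abs] at h1
  have h2 := norm_cut_le R u
  have h3 : ‖ρ‖ * ‖cut R u‖ ≤ ‖cut R u‖ := mul_le_of_le_one_left (norm_nonneg _) h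
  linarith

theorem glue_bound (u : Finset X → X) (R : ℕ) {v : ℝ} (hv0 : 0 ≤ v) (hv1 : v ≤ 1) {c : Cfg X}
    {p : X × StrongDual ℝ X} (hc : ‖c.2.1‖ ≤ 1 ∧ |c.2.2| ≤ 1) (hp : ‖p.2‖ ≤ 1) :
    ‖(glue u R v c p).2.1‖ ≤ 1 ∧ |(glue u R v c p).2.2| ≤ 1 := by
  have hR : (0 : ℝ) ≤ R := Nat.cast_nonneg R
  have h0 : 0 ≤ v / ((R : ℝ) + 1) := by positivity
  have h1 : v / ((R : ℝ) + 1) * ((R : ℝ) + 1) = v := by field_simp
  have h2 : 0 ≤ 1 - v := by linarith
  constructor
  · simp only [glue]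
    refine (norm_add_le _ _).trans ?_
    rw [norm_smul, norm_smul, Real.norm_eq_abs, Real.norm_eq_abs, abs_of_nonneg h2,
      abs_of_nonneg h0]
    nlinarith [hc.1, mul_le_mul_of_nonneg_left hp h0]
  · simp only [glue]
    refine (abs_add_le _ _).trans ?_
    rw [abs_mul, abs_mul, abs_of_nonneg h2, abs_of_nonneg h0]
    nlinarith [hc.2, mul_le_mul_of_nonneg_left (abs_apply_cut hp R (u c.1)) h0]

open Classical in
theorem pins_glue {E : Set (Cfg X)} {F : Set (X × StrongDual ℝ X)} (hF : ∀ p ∈ F, ‖p.2‖ ≤ 1)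
    {u : Finset X → X} {R : ℕ} {x d : X} {π : Finset X} (hE : Pins E x π)
    (hR : ‖u π‖ ≤ R) (hd : PinS F (x - u π) d) :
    ∃ t : ℕ, Pins (image2 (glue u R (1 / ((t : ℝ) + 2))) E F) x (insert d π) := by
  obtain ⟨g₁, hg₁, h₁⟩ := hE
  obtain ⟨g₂, hg₂, h₂⟩ := hd
  obtain ⟨t, ht⟩ := exists_nat_one_div_lt (show 0 < g₁ / 8 by positivity)
  set v : ℝ := 1 / ((t : ℝ) + 2) with hv
  have ht0 : (0 : ℝ) ≤ t := Nat.cast_nonneg t
  have hv0 : 0 < v := by positivity
  have hv1 : v ≤ 1 / 2 := by rw [hv]; gcongr; linarith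
  have hv2 : v ≤ g₁ / 8 := le_trans (by rw [hv]; gcongr; linarith) ht.le
  have hR0 : (0 : ℝ) ≤ R := Nat.cast_nonneg R
  have h0 : 0 < v / ((R : ℝ) + 1) := by positivity
  have h1 : v / ((R : ℝ) + 1) * ((R : ℝ) + 1) = v := by field_simp
  refine ⟨t, min (g₁ / 4) (v / ((R : ℝ) + 1) * g₂), by positivity, ?_⟩
  rintro _ ⟨c, hc, p, hp, rfl⟩ hne
  by_cases hcπ : c.1 = π
  · have hpd : p.1 ≠ d := fun h => hne (by simp only [glue, hcπ, h])
    obtain ⟨p', hp', h3⟩ := h₂ p hp hpd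
    refine ⟨_, mem_image2_of_mem hc hp', ?_⟩
    have h4 : cut R (u c.1) = u π := by rw [hcπ, cut, if_pos hR]
    rw [glue_val, glue_val, h4]
    have h5 := mul_le_mul_of_nonneg_left h3 h0.le
    linarith [min_le_right (g₁ / 4) (v / ((R : ℝ) + 1) * g₂)]
  · obtain ⟨c', hc', h3⟩ := h₁ c hc hcπ
    refine ⟨_, mem_image2_of_mem hc' hp, ?_⟩
    rw [glue_val, glue_val, map_sub, map_sub]
    have h4 := abs_le.1 (abs_apply_cut (hF p hp) R (u c.1))
    have h5 := abs_le.1 (abs_apply_cut (hF p hp) R (u c'.1))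
    have h6 := mul_le_mul_of_nonneg_left h3 (show 0 ≤ 1 - v by linarith)
    have h7 := mul_le_mul_of_nonneg_left h4.1 h0.le
    have h8 := mul_le_mul_of_nonneg_left h5.2 h0.le
    have h9 : 1 / 2 * g₁ ≤ (1 - v) * g₁ := by gcongr; linarith
    linarith [min_le_left (g₁ / 4) (v / ((R : ℝ) + 1) * g₂)]

/-- the towers. -/
noncomputable def tower {σ : Type*} (F : σ → Set (X × StrongDual ℝ X)) (en : Finset X → ℕ → X) :
    List (σ × ℕ × ℕ × ℕ) → Set (Cfg X)
  | [] => {(∅, 0, 0)}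
  | a :: l => image2 (glue (fun π => en π a.2.1) a.2.2.1 (1 / ((a.2.2.2 : ℝ) + 2)))
      (tower F en l) (F a.1)

open Classical in
/-- finite sets of labels reached from `x`. -/
inductive Reach {σ : Type*} (Φ : Finset X → Set X) (F : σ → Set (X × StrongDual ℝ X)) (x : X) :
    Finset X → Prop
  | nil : Reach Φ F x ∅
  | step (π : Finset X) (u : X) (s : σ) (d : X) :
      Reach Φ F x π → u ∈ cl Φ π → PinS (F s) (x - u) d → Reach Φ F x (insert d π)

open Classical in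
theorem Reach.union {σ : Type*} {Φ : Finset X → Set X} {F : σ → Set (X × StrongDual ℝ X)}
    {x : X} {π π' : Finset X} (h : Reach Φ F x π) (h' : Reach Φ F x π') :
    Reach Φ F x (π ∪ π') := by
  induction h' with
  | nil => simpa using h
  | step π' u s d _ hu hd ih =>
    rw [Finset.union_insert]
    exact Reach.step _ u s d ih
      (cl_mono (Finset.coe_subset.2 Finset.subset_union_right) hu) hd

theorem core2 {σ : Type*} [Countable σ] (F : σ → Set (X × StrongDual ℝ X))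
    (hFne : ∀ s, (F s).Nonempty) (hFb : ∀ s, ∀ p ∈ F s, ‖p.2‖ ≤ 1)
    (Φ : Finset X → Set X) (hΦ : ∀ G, (Φ G).Countable)
    (Code : Finset X → Set (StrongDual ℝ X)) (hCc : ∀ G, (Code G).Countable)
    (hCm : ∀ G H, G ⊆ H → Code G ⊆ Code H) (hC0 : (Code ∅).Nonempty)
    (hC : ∀ A, Clo Φ A → ∀ ξ : StrongDual ℝ X, ∀ ε > 0, ∃ G : Finset X, (G : Set X) ⊆ A ∧
      ∃ e ∈ Code G, ∀ u ∈ A, |(ξ - e) u| ≤ ε * ‖u‖)
    (hD : ∀ (x : X) (A : Set X), Clo Φ A →
      (∀ u ∈ A, ∀ s d, PinS (F s) (x - u) d → d ∈ A) → x ∈ closure A) :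
    HasC1Norm X := by
  classical
  have hen : ∀ π : Finset X, ∃ en : ℕ → X, insert 0 (cl Φ π) = range en := fun π =>
    ((countable_cl hΦ π.countable_toSet).insert 0).exists_eq_range (insert_nonempty _ _)
  choose en hen using hen
  refine core (tower F en) (fun l => ?_) (fun l => ?_) Φ hΦ Code hCc hCm hC0 hC fun x => ?_
  · induction l with
    | nil => exact singleton_nonempty _
    | cons a l ih => exact ih.image2 (hFne _)
  · induction l with
    | nil => rintro _ rfl; simp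
    | cons a l ih =>
      rintro _ ⟨c, hc, p, hp, rfl⟩
      have h0 : (0 : ℝ) ≤ a.2.2.2 := Nat.cast_nonneg _
      refine glue_bound _ _ (by positivity) ?_ (ih c hc) (hFb _ p hp)
      rw [div_le_one (by positivity)]
      linarith
  have hpins : ∀ π, Reach Φ F x π → ∃ l, Pins (tower F en l) x π := by
    intro π h
    induction h with
    | nil => exact ⟨[], 1, one_pos, by rintro _ rfl h; exact (h rfl).elim⟩
    | step π u s d _ hu hd ih =>
      obtain ⟨l, hl⟩ := ih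
      have : u ∈ range (en π) := by rw [← hen]; exact mem_insert_of_mem _ hu
      obtain ⟨j, rfl⟩ := this
      obtain ⟨R, hR⟩ := exists_nat_ge ‖en π j‖
      obtain ⟨t, ht⟩ := pins_glue (u := fun π => en π j) (hFb s) hl hR hd
      exact ⟨(s, j, R, t) :: l, ht⟩
  have hfin : ∀ π : Finset X, (π : Set X) ⊆ ⋃ π' ∈ {π' | Reach Φ F x π'}, (π' : Set X) →
      ∃ π' : Finset X, π ⊆ π' ∧ Reach Φ F x π' := by
    intro π
    induction π using Finset.induction_on with
    | empty => exact fun _ => ⟨∅, Finset.Subset.refl _, Reach.nil⟩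
    | insert a π _ ih =>
      intro h
      rw [Finset.coe_insert, insert_subset_iff] at h
      obtain ⟨π₁, h1, h2⟩ := ih h.2
      obtain ⟨π₂, h3, h4⟩ := mem_iUnion₂.1 h.1
      exact ⟨π₁ ∪ π₂, Finset.insert_subset (Finset.mem_union_right _ h4)
        (h1.trans Finset.subset_union_left), h2.union h3⟩
  refine ⟨⋃ π' ∈ {π' | Reach Φ F x π'}, (π' : Set X), fun A hA hS => ?_, fun π hπ => ?_⟩
  · refine closure_mono (cl_subset hA hS) (hD x _ (clo_cl _) fun u hu s d hd => ?_)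
    obtain ⟨π, h1, h2⟩ := exists_finset_of_subset_cl (Φ := Φ) {u} (by simpa using hu)
    obtain ⟨π', h3, h4⟩ := hfin π h1
    have h5 : u ∈ cl Φ π' := cl_mono (Finset.coe_subset.2 h3) (h2 (by simp))
    exact subset_cl _ (mem_biUnion (Reach.step π' u s d h4 h5 hd) (by simp))
  · obtain ⟨π', h1, h2⟩ := hfin π hπ
    exact ⟨π', h1, hpins π' h2⟩

end Pool.Agent.MP_151be3_an

end

-- part MP_151be3_an.Ekeland
section

/-! Ekeland's variational principle (weak form) for continuous functions on complete sets. -/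

namespace Pool.Agent.MP_151be3_an

open Set Filter Topology

theorem ekeland {E : Type*} [MetricSpace E] {W : Set E} (hW : IsComplete W) (hne : W.Nonempty)
    {f : E → ℝ} (hf : ContinuousOn f W) {m : ℝ} (hm : ∀ u ∈ W, m ≤ f u) {ε : ℝ} (hε : 0 < ε) :
    ∃ u ∈ W, ∀ v ∈ W, f u ≤ f v + ε * dist u v := by
  classical
  -- the sets `S u`
  let S : E → Set E := fun u => {v | v ∈ W ∧ f v + ε * dist u v ≤ f u}
  have hS : ∀ u ∈ W, u ∈ S u := fun u hu => ⟨hu, by simp⟩
  have htrans : ∀ u v w, v ∈ S u → w ∈ S v → w ∈ S u := by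
    intro u v w hv hw
    refine ⟨hw.1, ?_⟩
    have h1 := hv.2
    have h2 := hw.2
    have h3 := dist_triangle u v w
    nlinarith
  have hstep : ∀ (n : ℕ) (u : W), ∃ v : W, (v : E) ∈ S u ∧
      ∀ w ∈ S u, f v ≤ f w + (1 / 2) ^ n := by
    intro n u
    have hbd : BddBelow (f '' S u) := ⟨m, by rintro _ ⟨w, hw, rfl⟩; exact hm w hw.1⟩
    have hne' : (f '' S u).Nonempty := ⟨_, u, hS u u.2, rfl⟩
    have hpos : (0 : ℝ) < (1 / 2) ^ n := by positivity
    obtain ⟨_, ⟨v, hv, rfl⟩, hlt⟩ :=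
      exists_lt_of_csInf_lt hne' (lt_add_of_pos_right (sInf (f '' S u)) hpos)
    refine ⟨⟨v, hv.1⟩, hv, fun w hw => ?_⟩
    have := csInf_le hbd ⟨w, hw, rfl⟩
    simp only at hlt ⊢
    linarith
  choose g hg1 hg2 using hstep
  obtain ⟨u0, hu0⟩ := hne
  let u : ℕ → W := fun n => Nat.rec ⟨u0, hu0⟩ (fun k x => g k x) n
  have hu : ∀ n, u (n + 1) = g n (u n) := fun n => rfl
  have hmono : ∀ n k : ℕ, n ≤ k → (u k).1 ∈ S (u n).1 := by
    intro n k hk
    induction k, hk using Nat.le_induction with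
    | base => exact hS _ (u n).2
    | succ k _ ih => exact htrans _ _ _ ih (by rw [hu k]; exact hg1 k (u k))
  -- points of `S (u (n+1))` are close to `u (n+1)`
  have hclose : ∀ n, ∀ w ∈ S (u (n + 1)), ε * dist (u (n + 1) : E) w ≤ (1 / 2) ^ n := by
    intro n w hw
    have h1 := hg2 n (u n) w (htrans _ _ _ (hmono n (n + 1) (Nat.le_succ n)) hw)
    have h2 := hw.2
    rw [← hu n] at h1
    linarith
  have hlim : Tendsto (fun n : ℕ => (1 / 2 : ℝ) ^ n / ε) atTop (𝓝 0) := by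
    have := (tendsto_pow_atTop_nhds_zero_of_lt_one (r := (1 / 2 : ℝ)) (by norm_num)
      (by norm_num)).div_const ε
    simpa using this
  have hcau : CauchySeq (fun n => (u (n + 1) : E)) := by
    refine cauchySeq_of_le_tendsto_0' (fun n => (1 / 2 : ℝ) ^ n / ε) (fun n k hk => ?_) hlim
    rw [le_div_iff₀ hε, mul_comm]
    exact hclose n _ (hmono _ _ (Nat.succ_le_succ hk))
  obtain ⟨z, hzW, hz⟩ := cauchySeq_tendsto_of_isComplete hW (fun n => (u (n + 1)).2) hcau
  have hzf : Tendsto (fun n => f (u (n + 1))) atTop (𝓝 (f z)) :=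
    (hf z hzW).tendsto.comp
      (tendsto_nhdsWithin_iff.2 ⟨hz, Eventually.of_forall fun n => (u (n + 1)).2⟩)
  have hzS : ∀ n : ℕ, z ∈ S (u n).1 := by
    intro n
    refine ⟨hzW, ?_⟩
    have ht : Tendsto (fun k : ℕ => f (u (k + 1)).1 + ε * dist (u n).1 (u (k + 1)).1) atTop
        (𝓝 (f z + ε * dist (u n).1 z)) :=
      hzf.add ((tendsto_const_nhds.dist hz).const_mul ε)
    refine le_of_tendsto ht ?_
    filter_upwards [eventually_ge_atTop n] with k hk
    exact (hmono n (k + 1) (by omega)).2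
  refine ⟨z, hzW, fun v hv => ?_⟩
  by_contra hcon
  push Not at hcon
  have hvS : v ∈ S z := ⟨hv, hcon.le⟩
  have hvz : Tendsto (fun n => (u (n + 1) : E)) atTop (𝓝 v) := by
    rw [tendsto_iff_dist_tendsto_zero]
    refine squeeze_zero (fun _ => dist_nonneg) (fun n => ?_) hlim
    rw [le_div_iff₀ hε, mul_comm]
    exact hclose n _ (htrans _ _ _ (hzS (n + 1)) hvS)
  have : v = z := tendsto_nhds_unique hvz hz
  subst this
  simp at hcon

end Pool.Agent.MP_151be3_an

end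

-- part MP_151be3_an.Smooth
section

/-! Consequences of the existence of a `C¹` norm: Šmulyan's lemma, descent directions with
locally constant labels, and two applications of Ekeland's principle. -/

namespace Pool.Agent.MP_151be3_an

open Set Filter Topology Metric

variable {V : Type*} [NormedAddCommGroup V] [NormedSpace ℝ V]

theorem dir_ge {f : V → ℝ} {D : StrongDual ℝ V} {v w : V} {a : ℝ} (hD : HasFDerivAt f D v)
    (h : ∀ t : ℝ, 0 < t → t * a ≤ f (v + t • w) - f v) : a ≤ D w := by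
  have h1 : HasDerivAt (fun t : ℝ => v + t • w) w 0 := by
    simpa using ((hasDerivAt_id (0 : ℝ)).smul_const w).const_add v
  have h2 : HasDerivAt (fun t : ℝ => f (v + t • w)) (D w) 0 :=
    HasFDerivAt.comp_hasDerivAt_of_eq (0 : ℝ) hD h1 (by simp)
  refine ge_of_tendsto h2.tendsto_slope_zero_right ?_
  filter_upwards [self_mem_nhdsWithin] with t ht
  have ht' : 0 < t := ht
  have h3 := h t ht'
  simp only [zero_add, zero_smul, add_zero, smul_eq_mul]
  rw [← div_eq_inv_mul, le_div_iff₀ ht']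
  linarith

/-- data of an equivalent `C¹` norm. -/
structure SN (V : Type*) [NormedAddCommGroup V] [NormedSpace ℝ V] where
  N : Seminorm ℝ V
  c : ℝ
  C : ℝ
  J : V → StrongDual ℝ V
  hc : 0 < c
  hC : 0 < C
  low : ∀ v, c * ‖v‖ ≤ N v
  up : ∀ v, N v ≤ C * ‖v‖
  hJ : ∀ v, v ≠ 0 → HasFDerivAt (fun v => N v) (J v) v
  cont : ContinuousOn J {0}ᶜ

theorem HasC1Norm.nonempty_SN (h : HasC1Norm V) : Nonempty (SN V) := by
  obtain ⟨N, ⟨c, C, hc, hC, hN⟩, hs⟩ := h
  refine ⟨⟨N, c, C, fderiv ℝ (fun v => N v), hc, hC, fun v => (hN v).1, fun v => (hN v).2,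
    fun v hv => ?_, hs.continuousOn_fderiv_of_isOpen isOpen_compl_singleton le_rfl⟩⟩
  exact ((hs.differentiableOn one_ne_zero).differentiableAt
    (isOpen_compl_singleton.mem_nhds hv)).hasFDerivAt

namespace SN

variable (S : SN V)

/-- the dual unit ball of `N`. -/
def B : Set (StrongDual ℝ V) := {ρ | ∀ w, ρ w ≤ S.N w}

theorem zero_mem_B : (0 : StrongDual ℝ V) ∈ S.B := fun w => by simp

theorem norm_le_of_mem_B {ρ : StrongDual ℝ V} (h : ρ ∈ S.B) : ‖ρ‖ ≤ S.C := by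
  refine ρ.opNorm_le_bound S.hC.le fun w => ?_
  have h1 := h w
  have h2 := h (-w)
  rw [map_neg, map_neg_eq_map] at h2
  rw [Real.norm_eq_abs, abs_le]
  constructor <;> linarith [S.up w]

theorem continuous_N : Continuous fun v => S.N v := by
  refine S.N.continuous_of_le (q := S.C.toNNReal • normSeminorm ℝ V) ?_ fun v => ?_
  · exact continuous_norm.const_smul S.C.toNNReal
  · simpa [NNReal.smul_def, S.hC.le] using S.up v

theorem J_mem_B {v : V} (hv : v ≠ 0) : S.J v ∈ S.B := by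
  intro w
  have h := dir_ge (w := w) (a := -S.N w) (S.hJ v hv).neg fun t ht => by
    have h1 := map_add_le_add S.N v (t • w)
    rw [map_smul_eq_mul, Real.norm_eq_abs, abs_of_pos ht] at h1
    simp only [Pi.neg_apply]
    linarith
  simp only [neg_apply] at h
  linarith

theorem J_self {v : V} (hv : v ≠ 0) : S.J v v = S.N v := by
  refine le_antisymm (S.J_mem_B hv v) (dir_ge (S.hJ v hv) fun t ht => ?_)
  have : v + t • v = (1 + t) • v := by rw [add_smul, one_smul]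
  rw [this, map_smul_eq_mul, Real.norm_eq_abs, abs_of_pos (by linarith)]
  linarith

theorem smulyan {v : V} (hv : v ≠ 0) {ε : ℝ} (hε : 0 < ε) :
    ∃ δ > 0, ∀ ρ ∈ S.B, S.N v - δ < ρ v → ‖ρ - S.J v‖ ≤ ε := by
  have h := S.hJ v hv
  rw [hasFDerivAt_iff_isLittleO_nhds_zero, Asymptotics.isLittleO_iff] at h
  obtain ⟨r, hr, hr'⟩ := Metric.eventually_nhds_iff.1 (h (half_pos hε))
  refine ⟨ε / 2 * (r / 2), by positivity, fun ρ hρ hρv => ?_⟩
  have key : ∀ k : V, ‖k‖ = 1 → (ρ - S.J v) k ≤ ε := by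
    intro k hk
    have hr2 : 0 < r / 2 := by positivity
    have hk' : ‖(r / 2) • k‖ = r / 2 := by
      rw [norm_smul, hk, mul_one, Real.norm_eq_abs, abs_of_pos hr2]
    have h1 := hr' (y := (r / 2) • k) (by rw [dist_zero_right, hk']; linarith)
    rw [Real.norm_eq_abs, hk'] at h1
    have h2 := hρ (v + (r / 2) • k)
    rw [map_add] at h2
    simp only [map_smul, smul_eq_mul] at h1 h2
    rw [sub_apply]
    refine le_of_mul_le_mul_left ?_ hr2
    linarith [(abs_le.1 h1).2]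
  refine ContinuousLinearMap.opNorm_le_of_unit_norm hε.le fun k hk => ?_
  have h1 := key k hk
  have h2 := key (-k) (by rw [norm_neg, hk])
  rw [map_neg] at h2
  rw [Real.norm_eq_abs, abs_le]
  constructor <;> linarith

/-- labels: every near-maximiser of `ρ ↦ ρ w` on the dual ball carries the same label, which is a
descent direction at `w`. -/
theorem exists_lab : ∃ lab : ℕ → StrongDual ℝ V → V, ∀ w : V, w ≠ 0 →
    ∃ d : V, ‖d‖ ≤ 1 ∧ S.c / 2 < S.J w d ∧
      ∃ m : ℕ, ∃ δ > 0, ∀ ρ ∈ S.B, S.N w - δ < ρ w → lab m ρ = d := by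
  classical
  let r : V → V → Prop := WellOrderingRel
  have hwo : IsWellOrder V r := WellOrderingRel.isWellOrder
  let IsLab : StrongDual ℝ V → V → Prop := fun ρ d =>
    ‖d‖ ≤ 1 ∧ S.c / 2 < ρ d ∧ ∀ d', r d' d → ‖d'‖ ≤ 1 → ρ d' ≤ S.c / 2
  let Lab : ℕ → StrongDual ℝ V → V → Prop := fun m ρ d =>
    ∃ ρ', ‖ρ - ρ'‖ < 1 / ((m : ℝ) + 1) / 2 ∧ IsLab ρ' d ∧ S.c / 2 + 1 / ((m : ℝ) + 1) ≤ ρ' d
  have hlt : ∀ m ρ d d', Lab m ρ d → Lab m ρ d' → ¬ r d d' := by
    rintro m ρ d d' ⟨ρ₁, h1, h2, h3⟩ ⟨ρ₂, h4, h5, -⟩ hr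
    have h6 := h5.2.2 d hr h2.1
    have h7 : ‖ρ₁ - ρ₂‖ < 1 / ((m : ℝ) + 1) := by
      have : ρ₁ - ρ₂ = (ρ - ρ₂) - (ρ - ρ₁) := by abel
      rw [this]
      linarith [norm_sub_le (ρ - ρ₂) (ρ - ρ₁)]
    have h8 := (ρ₁ - ρ₂).le_opNorm d
    rw [Real.norm_eq_abs, sub_apply] at h8
    have h9 : ‖ρ₁ - ρ₂‖ * ‖d‖ ≤ ‖ρ₁ - ρ₂‖ := mul_le_of_le_one_right (norm_nonneg _) h2.1
    linarith [le_abs_self (ρ₁ d - ρ₂ d)]
  have huniq : ∀ m ρ d d', Lab m ρ d → Lab m ρ d' → d = d' := by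
    intro m ρ d d' h h'
    rcases trichotomous_of r d d' with h1 | h1 | h1
    · exact absurd h1 (hlt m ρ d d' h h')
    · exact h1
    · exact absurd h1 (hlt m ρ d' d h' h)
  refine ⟨fun m ρ => if h : ∃ d, Lab m ρ d then h.choose else 0, fun w hw => ?_⟩
  have hwn : 0 < ‖w‖ := norm_pos_iff.2 hw
  have hne : {d : V | ‖d‖ ≤ 1 ∧ S.c / 2 < S.J w d}.Nonempty := by
    refine ⟨‖w‖⁻¹ • w, ?_, ?_⟩
    · rw [norm_smul, norm_inv, norm_norm, inv_mul_cancel₀ hwn.ne']
    · rw [map_smul, S.J_self hw, smul_eq_mul, ← div_eq_inv_mul, lt_div_iff₀ hwn]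
      have := S.low w
      have := S.hc
      nlinarith
  obtain ⟨d, ⟨hd1, hd2⟩, hd3⟩ := hwo.wf.has_min _ hne
  have hlab : IsLab (S.J w) d := ⟨hd1, hd2, fun d' hr hd' => by
    by_contra hcon
    exact hd3 d' ⟨hd', not_le.1 hcon⟩ hr⟩
  obtain ⟨m, hm⟩ := exists_nat_one_div_lt (sub_pos.2 hd2)
  have hpos : 0 < 1 / ((m : ℝ) + 1) / 4 := by positivity
  obtain ⟨δ, hδ, hδ'⟩ := S.smulyan hw hpos
  refine ⟨d, hd1, hd2, m, δ, hδ, fun ρ hρ hρw => ?_⟩
  have hL : Lab m ρ d := ⟨S.J w, by linarith [hδ' ρ hρ hρw], hlab, by linarith⟩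
  have hex : ∃ d, Lab m ρ d := ⟨d, hL⟩
  simp only [dif_pos hex]
  exact huniq m ρ _ _ hex.choose_spec hL

end SN

/-- `A` is a rational subspace. -/
structure QSub (A : Set V) : Prop where
  zero : (0 : V) ∈ A
  add : ∀ a ∈ A, ∀ b ∈ A, a + b ∈ A
  smul : ∀ r : ℚ, ∀ a ∈ A, (r : ℝ) • a ∈ A

theorem QSub.neg {A : Set V} (h : QSub A) {a : V} (ha : a ∈ A) : -a ∈ A := by
  simpa using h.smul (-1) a ha

theorem QSub.sub {A : Set V} (h : QSub A) {a b : V} (ha : a ∈ A) (hb : b ∈ A) : a - b ∈ A := by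
  rw [sub_eq_add_neg]; exact h.add _ ha _ (h.neg hb)

/-- the closure of a rational subspace is a real subspace. -/
def QSub.clo {A : Set V} (h : QSub A) : Submodule ℝ V where
  carrier := closure A
  zero_mem' := subset_closure h.zero
  add_mem' := fun {a b} ha hb =>
    map_mem_closure₂ continuous_add ha hb fun x hx y hy => h.add x hx y hy
  smul_mem' := fun r a ha => by
    have hr : r ∈ closure (range ((↑) : ℚ → ℝ)) := Rat.denseRange_cast r
    exact map_mem_closure₂ continuous_smul hr ha (by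
      rintro _ ⟨q, rfl⟩ y hy
      exact h.smul q y hy)

namespace SN

variable (S : SN V) [CompleteSpace V]

theorem descent {A : Set V} (hA : QSub A) {w : V}
    (h : ∀ u ∈ A, w - u ≠ 0 → ∃ d ∈ A, ‖d‖ ≤ 1 ∧ S.c / 2 < S.J (w - u) d) :
    w ∈ closure A := by
  by_contra hw
  have hc := S.hc
  obtain ⟨u, hu, hu'⟩ := ekeland (W := closure A) isClosed_closure.isComplete
    ⟨0, subset_closure hA.zero⟩ (f := fun u => S.N (w - u))
    (S.continuous_N.comp (continuous_const.sub continuous_id)).continuousOn (m := 0)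
    (fun u _ => apply_nonneg _ _) (ε := S.c / 4) (by positivity)
  have hwu : w - u ≠ 0 := fun h0 => hw (by rw [sub_eq_zero.1 h0]; exact hu)
  have hsmall : ∀ d ∈ A, S.J (w - u) d ≤ S.c / 4 * ‖d‖ := by
    intro d hd
    have h1 := dir_ge (w := -d) (a := -(S.c / 4 * ‖d‖)) (S.hJ _ hwu) fun t ht => by
      have h2 := hu' (u + t • d)
        (hA.clo.add_mem hu (hA.clo.smul_mem t (subset_closure hd)))
      simp only [dist_self_add_right, norm_smul, Real.norm_eq_abs, abs_of_pos ht] at h2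
      have h3 : w - u + t • -d = w - (u + t • d) := by rw [smul_neg]; abel
      rw [h3]
      linarith
    rw [map_neg] at h1
    linarith
  have hcont : ContinuousAt (fun u' => S.J (w - u')) u :=
    ContinuousAt.comp (f := fun u' => w - u') (g := S.J)
      (S.cont.continuousAt (isOpen_compl_singleton.mem_nhds hwu))
      (continuous_const.sub continuous_id).continuousAt
  have hev : ∀ᶠ u' in 𝓝 u, dist (S.J (w - u')) (S.J (w - u)) < S.c / 4 :=
    Metric.tendsto_nhds.1 hcont _ (by positivity)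
  obtain ⟨u', hu1, hu2⟩ := mem_closure_iff_nhds.1 hu _ hev
  have hwu' : w - u' ≠ 0 := fun h0 => hw (by rw [sub_eq_zero.1 h0]; exact subset_closure hu2)
  obtain ⟨d, hd, hd1, hd2⟩ := h u' hu2 hwu'
  have h1 := hsmall d hd
  have h2 := (S.J (w - u') - S.J (w - u)).le_opNorm d
  have h3 : ‖S.J (w - u') - S.J (w - u)‖ < S.c / 4 := by rw [← dist_eq_norm]; exact hu1
  rw [Real.norm_eq_abs, sub_apply] at h2
  have h4 : ‖S.J (w - u') - S.J (w - u)‖ * ‖d‖ ≤ ‖S.J (w - u') - S.J (w - u)‖ :=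
    mul_le_of_le_one_right (norm_nonneg _) hd1
  have h5 : S.c / 4 * ‖d‖ ≤ S.c / 4 := mul_le_of_le_one_right (by positivity) hd1
  linarith [le_abs_self (S.J (w - u') d - S.J (w - u) d)]

theorem approx {A : Set V} (hA : QSub A) (g : StrongDual ℝ V) {ε : ℝ} (hε : 0 < ε) :
    ∃ u ∈ A, ∃ t : ℚ, ∀ a ∈ A, |g a - t * S.J u a| ≤ ε * ‖a‖ := by
  have hc := S.hc
  obtain ⟨u, hu, hu'⟩ := ekeland (W := closure A) isClosed_closure.isComplete
    ⟨0, subset_closure hA.zero⟩ (f := fun u => S.N u * S.N u / 2 - g u)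
    (((S.continuous_N.mul S.continuous_N).div_const 2).sub g.continuous).continuousOn
    (m := -(‖g‖ / S.c) ^ 2 / 2) (fun u _ => by
      have h1 := g.le_opNorm u
      rw [Real.norm_eq_abs] at h1
      have h2 := S.low u
      have h3 : ‖g‖ * ‖u‖ ≤ ‖g‖ / S.c * S.N u := by
        rw [div_mul_eq_mul_div, le_div_iff₀ hc]
        have := norm_nonneg g
        nlinarith
      nlinarith [le_abs_self (g u), sq_nonneg (S.N u - ‖g‖ / S.c)])
    (ε := ε / 2) (by positivity)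
  have habs : ∀ φ : StrongDual ℝ V, (∀ a ∈ A, -(ε / 2 * ‖a‖) ≤ φ a) →
      ∀ a ∈ A, |φ a| ≤ ε / 2 * ‖a‖ := by
    intro φ hφ a ha
    have h1 := hφ a ha
    have h2 := hφ _ (hA.neg ha)
    rw [map_neg, norm_neg] at h2
    rw [abs_le]; constructor <;> linarith
  by_cases hu0 : u = 0
  · subst hu0
    refine ⟨0, hA.zero, 0, fun a ha => ?_⟩
    have h1 := habs (-g) (fun a ha => by
      rw [neg_apply, neg_le_neg_iff]
      refine le_of_forall_pos_le_add fun η hη => ?_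
      have hN := apply_nonneg S.N a
      set t : ℝ := η / (S.N a * S.N a + 1) with ht
      have htpos : 0 < t := by positivity
      have h2 := hu' (t • a) (hA.clo.smul_mem t (subset_closure ha))
      simp only [map_zero, mul_zero, zero_div, sub_zero, dist_zero_left, map_smul_eq_mul,
        norm_smul, Real.norm_eq_abs, abs_of_pos htpos, map_smul, smul_eq_mul] at h2
      have h3 : t * (S.N a * S.N a + 1) = η := by rw [ht]; field_simp
      have h4 : t * g a ≤ t * (ε / 2 * ‖a‖ + η) := by nlinarith [mul_pos htpos htpos]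
      exact le_of_mul_le_mul_left h4 htpos) a ha
    rw [neg_apply, abs_neg] at h1
    simp only [Rat.cast_zero, zero_mul, sub_zero]
    nlinarith [norm_nonneg a]
  · have hD : HasFDerivAt (fun u => S.N u * S.N u / 2 - g u) (S.N u • S.J u - g) u := by
      have h1 := (((S.hJ u hu0).mul (S.hJ u hu0)).mul_const (1 / 2 : ℝ)).sub g.hasFDerivAt
      refine (h1.congr_fderiv ?_).congr_of_eventuallyEq (Eventually.of_forall fun y => ?_)
      · ext y
        simp only [sub_apply, smul_apply, add_apply,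
          smul_eq_mul]
        ring
      · simp only [Pi.sub_apply, Pi.mul_apply]; ring
    have h1 := habs (S.N u • S.J u - g) fun a ha => dir_ge hD fun t ht => by
      have h2 := hu' (u + t • a) (hA.clo.add_mem hu (hA.clo.smul_mem t (subset_closure ha)))
      simp only [dist_self_add_right, norm_smul, Real.norm_eq_abs, abs_of_pos ht] at h2
      linarith
    have hcont : ContinuousAt (fun p : ℝ × V => p.1 • S.J p.2) (S.N u, u) :=
      continuousAt_fst.smul (ContinuousAt.comp (f := fun p : ℝ × V => p.2) (g := S.J)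
        (S.cont.continuousAt (isOpen_compl_singleton.mem_nhds hu0)) continuousAt_snd)
    have hev : ∀ᶠ p : ℝ × V in 𝓝 (S.N u, u), dist (p.1 • S.J p.2) (S.N u • S.J u) < ε / 2 :=
      Metric.tendsto_nhds.1 hcont _ (by positivity)
    have hmem : (S.N u, u) ∈ closure (range ((↑) : ℚ → ℝ) ×ˢ A) := by
      rw [closure_prod_eq]
      exact ⟨Rat.denseRange_cast _, hu⟩
    obtain ⟨⟨_, u'⟩, hp1, ⟨t, rfl⟩, hu2⟩ := mem_closure_iff_nhds.1 hmem _ hev
    refine ⟨u', hu2, t, fun a ha => ?_⟩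
    have h2 := h1 a ha
    have h3 := ((t : ℝ) • S.J u' - S.N u • S.J u).le_opNorm a
    have h4 : ‖(t : ℝ) • S.J u' - S.N u • S.J u‖ < ε / 2 := by rw [← dist_eq_norm]; exact hp1
    have h5 : ‖(t : ℝ) • S.J u' - S.N u • S.J u‖ * ‖a‖ ≤ ε / 2 * ‖a‖ := by gcongr
    simp only [Real.norm_eq_abs, sub_apply, smul_apply, smul_eq_mul] at h2 h3
    rw [abs_le] at h2 h3 ⊢
    constructor <;> linarith [h2.1, h2.2, h3.1, h3.2]

end SN

end Pool.Agent.MP_151be3_an

end

-- part MP_151be3_an.Ext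
section

/-! Codes and slots for an extension of two spaces with `C¹` norms. -/

namespace Pool.Agent.MP_151be3_an

open Set Filter Topology Metric

variable {X Z : Type*} [NormedAddCommGroup X] [NormedSpace ℝ X]
  [NormedAddCommGroup Z] [NormedSpace ℝ Z]

theorem QSub.image {A : Set X} (hA : QSub A) (q : X →L[ℝ] Z) : QSub (q '' A) where
  zero := ⟨0, hA.zero, map_zero q⟩
  add := by
    rintro _ ⟨a, ha, rfl⟩ _ ⟨b, hb, rfl⟩
    exact ⟨a + b, hA.add a ha b hb, map_add q a b⟩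
  smul := by
    rintro r _ ⟨a, ha, rfl⟩
    exact ⟨_, hA.smul r a ha, map_smul q _ a⟩

theorem QSub.preimage {A : Set X} (hA : QSub A) (Y : Submodule ℝ X) :
    QSub {y : Y | (y : X) ∈ A} where
  zero := hA.zero
  add := fun _ ha _ hb => hA.add _ ha _ hb
  smul := fun r _ ha => hA.smul r _ ha

/-- Hahn-Banach splitting. -/
theorem hb_split {A : Set X} (hA : QSub A) (q : X →L[ℝ] Z) (ξ : StrongDual ℝ X) {K ε : ℝ}
    (hK : 0 ≤ K) (hε : 0 ≤ ε) (h : ∀ a ∈ A, |ξ a| ≤ ε * ‖a‖ + K * ‖q a‖) :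
    ∃ ψ : StrongDual ℝ Z, ∀ a ∈ A, |ξ a - ψ (q a)| ≤ ε * ‖a‖ := by
  have h' : ∀ a ∈ closure A, |ξ a| ≤ ε * ‖a‖ + K * ‖q a‖ :=
    closure_minimal h (isClosed_le (f := fun a => |ξ a|) (g := fun a => ε * ‖a‖ + K * ‖q a‖)
      (by fun_prop) (by fun_prop))
  let G : Submodule ℝ (X × Z) := hA.clo.map (LinearMap.id.prod (q : X →ₗ[ℝ] Z))
  let f : (X × Z) →ₗ[ℝ] ℝ := (ξ : X →ₗ[ℝ] ℝ).comp (LinearMap.fst ℝ X Z)
  obtain ⟨g, hg1, hg2⟩ := exists_extension_of_le_sublinear (f.toPMap G)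
    (fun p => ε * ‖p.1‖ + K * ‖p.2‖)
    (fun c hc p => by
      simp only [Prod.smul_fst, Prod.smul_snd, norm_smul, Real.norm_eq_abs, abs_of_pos hc]
      ring)
    (fun p p' => by
      have h1 := mul_le_mul_of_nonneg_left (norm_add_le p.1 p'.1) hε
      have h2 := mul_le_mul_of_nonneg_left (norm_add_le p.2 p'.2) hK
      simp only [Prod.fst_add, Prod.snd_add]
      linarith)
    (by
      rintro ⟨_, a, ha, rfl⟩
      exact (le_abs_self _).trans (h' a ha))
  have habs : ∀ p, |g p| ≤ ε * ‖p.1‖ + K * ‖p.2‖ := fun p => by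
    have h1 := hg2 p
    have h2 := hg2 (-p)
    simp only [map_neg, Prod.fst_neg, Prod.snd_neg, norm_neg] at h1 h2
    rw [abs_le]
    constructor <;> linarith
  refine ⟨(g.comp (LinearMap.inr ℝ X Z)).mkContinuous K fun z => by simpa using habs (0, z),
    fun a ha => ?_⟩
  have h1 : g (a, q a) = ξ a := hg1 ⟨(a, q a), a, subset_closure ha, rfl⟩
  have h2 : g (a, q a) = g (a, 0) + g (0, q a) := by rw [← map_add]; simp
  have h3 := habs (a, 0)
  have h4 : ξ a - g (0, q a) = g (a, 0) := by linarith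
  simpa [h4] using h3

/-- lifting of points in the closure of `q '' A`. -/
theorem lift_closure [CompleteSpace X] {A : Set X} (hA : QSub A) (q : X →L[ℝ] Z)
    (hK : ∀ a ∈ A, ∀ η > 0, ∃ b ∈ A, q b = q a ∧ ‖b‖ ≤ ‖q a‖ + η) {z : Z}
    (hz : z ∈ closure (q '' A)) : ∃ x ∈ closure A, q x = z := by
  have : CompleteSpace hA.clo := (isClosed_closure (s := A)).completeSpace_coe
  let f : NormedAddGroupHom hA.clo Z :=
    { toFun := fun x => q x
      map_add' := fun x y => by simp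
      bound' := ⟨‖q‖, fun x => q.le_opNorm x⟩ }
  let K : AddSubgroup Z :=
    { carrier := q '' A
      zero_mem' := (hA.image q).zero
      add_mem' := fun {a b} ha hb => (hA.image q).add a ha b hb
      neg_mem' := fun {a} ha => (hA.image q).neg ha }
  have h1 : f.SurjectiveOnWith K 2 := by
    rintro _ ⟨a, ha, rfl⟩
    by_cases h0 : q a = 0
    · exact ⟨0, by rw [h0, map_zero], by simp⟩
    · obtain ⟨b, hb, h2, h3⟩ := hK a ha _ (norm_pos_iff.2 h0)
      refine ⟨⟨b, subset_closure hb⟩, h2, ?_⟩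
      change ‖b‖ ≤ _
      linarith
  obtain ⟨x, hx, -⟩ := controlled_closure_of_complete two_pos one_pos h1 z hz
  exact ⟨x, x.2, hx⟩

theorem hasC1Norm_ext [CompleteSpace X] [CompleteSpace Z] (Y : Submodule ℝ X)
    (hY : IsClosed (Y : Set X)) (q : X →L[ℝ] Z) (hq1 : ∀ x, ‖q x‖ ≤ ‖x‖)
    (hq2 : ∀ z, ∀ η > 0, ∃ x, q x = z ∧ ‖x‖ < ‖z‖ + η) (hker : ∀ x, q x = 0 ↔ x ∈ Y)
    (SY : SN Y) (SZ : SN Z) : HasC1Norm X := by
  classical
  have : CompleteSpace Y := hY.completeSpace_coe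
  have hε : ∀ k : ℕ, (0 : ℝ) < 1 / ((k : ℝ) + 1) := fun k => by positivity
  choose lam hlam1 hlam2 using fun (z : Z) (k : ℕ) => hq2 z _ (hε k)
  choose ex hex1 hex2 using fun ρ : StrongDual ℝ Y => exists_extension_norm_eq Y ρ
  obtain ⟨labY, hlabY⟩ := SY.exists_lab
  obtain ⟨labZ, hlabZ⟩ := SZ.exists_lab
  let Φ : Finset X → Set X := fun G => {0} ∪ (image2 (· + ·) (G : Set X) G ∪
    ((⋃ r : ℚ, (fun a => (r : ℝ) • a) '' (G : Set X)) ∪ ⋃ k : ℕ, (fun a => lam (q a) k) '' G))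
  have hQ : ∀ A, Clo Φ A → QSub A := fun A hA =>
    ⟨hA ∅ (by simp) (Or.inl rfl),
      fun a ha b hb => hA {a, b} (by simp [insert_subset_iff, ha, hb])
        (Or.inr (Or.inl (mem_image2_of_mem (by simp) (by simp)))),
      fun r a ha => hA {a} (by simpa using ha)
        (Or.inr (Or.inr (Or.inl (mem_iUnion.2 ⟨r, a, by simp, rfl⟩))))⟩
  have hK : ∀ A, Clo Φ A → ∀ a ∈ A, ∀ η > 0, ∃ b ∈ A, q b = q a ∧ ‖b‖ ≤ ‖q a‖ + η := by
    intro A hA a ha η hη
    obtain ⟨k, hk⟩ := exists_nat_one_div_lt hη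
    exact ⟨lam (q a) k, hA {a} (by simpa using ha)
      (Or.inr (Or.inr (Or.inr (mem_iUnion.2 ⟨k, a, by simp, rfl⟩)))), hlam1 _ _,
      by linarith [hlam2 (q a) k]⟩
  let F : Bool × ℕ → Set (X × StrongDual ℝ X) := fun s =>
    if s.1 then (fun ψ => (lam (labZ s.2 ψ) 0, SZ.C⁻¹ • ψ.comp q)) '' SZ.B
    else (fun ξ => ((labY s.2 (ξ.comp Y.subtypeL) : X), SY.C⁻¹ • ξ)) ''
      {ξ : StrongDual ℝ X | ‖ξ‖ ≤ SY.C ∧ ξ.comp Y.subtypeL ∈ SY.B}
  let cd : Y × X × ℚ × ℚ → StrongDual ℝ X := fun a =>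
    (a.2.2.1 : ℝ) • ex (SY.J a.1) + (a.2.2.2 : ℝ) • (SZ.J (q a.2.1)).comp q
  let Code : Finset X → Set (StrongDual ℝ X) := fun G =>
    insert 0 (cd '' ({y : Y | (y : X) ∈ G} ×ˢ (G : Set X) ×ˢ univ))
  have hCY := SY.hC
  have hCZ := SZ.hC
  refine core2 F ?_ ?_ Φ (fun G => ?_) Code (fun G => ?_) (fun G H hGH => ?_)
    (insert_nonempty _ _) (fun A hA ξ ε hε => ?_) fun x A hA hpin => ?_
  · rintro ⟨b, m⟩
    cases b
    · exact ⟨_, 0, ⟨by simpa using hCY.le, by simpa using SY.zero_mem_B⟩, rfl⟩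
    · exact ⟨_, 0, SZ.zero_mem_B, rfl⟩
  · rintro ⟨b, m⟩
    cases b
    · rintro _ ⟨ξ, hξ, rfl⟩
      simp only [norm_smul, norm_inv, Real.norm_eq_abs, abs_of_pos hCY]
      rw [inv_mul_le_one₀ hCY]
      exact hξ.1
    · rintro _ ⟨ψ, hψ, rfl⟩
      simp only [norm_smul, norm_inv, Real.norm_eq_abs, abs_of_pos hCZ]
      rw [inv_mul_le_one₀ hCZ]
      refine ContinuousLinearMap.opNorm_le_bound _ hCZ.le fun x => ?_
      refine (ψ.le_opNorm (q x)).trans ?_
      exact mul_le_mul (SZ.norm_le_of_mem_B hψ) (hq1 x) (norm_nonneg _) hCZ.le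
  · have hG := G.countable_toSet
    exact (countable_singleton _).union ((hG.image2 hG _).union
      ((countable_iUnion fun r => hG.image _).union (countable_iUnion fun k => hG.image _)))
  · have hG := G.countable_toSet
    exact (((hG.preimage_of_injOn (f := fun y : Y => (y : X))
      Subtype.coe_injective.injOn).prod (hG.prod countable_univ)).image _).insert _
  · exact insert_subset_insert (image_mono (prod_mono (fun y hy => hGH hy)
      (prod_mono (Finset.coe_subset.2 hGH) Subset.rfl)))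
  · -- approximation by codes
    have hA' := hQ A hA
    have hε3 : 0 < ε / 3 := by positivity
    obtain ⟨u, hu, t, ht⟩ := SY.approx (hA'.preimage Y) (ξ.comp Y.subtypeL) hε3
    set ξ₁ : StrongDual ℝ X := ξ - (t : ℝ) • ex (SY.J u) with hξ₁
    have h1 : ∀ a ∈ A, |ξ₁ a| ≤ ε / 3 * ‖a‖ + (‖ξ₁‖ + ε / 3) * ‖q a‖ := by
      intro a ha
      refine le_of_forall_pos_le_add fun η hη => ?_
      have hK0 : 0 < ‖ξ₁‖ + ε / 3 := by positivity
      obtain ⟨b, hb, h2, h3⟩ := hK A hA a ha _ (div_pos hη hK0)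
      have h4 : a - b ∈ Y := (hker _).1 (by rw [map_sub, h2, sub_self])
      have h5 := ht ⟨a - b, h4⟩ (hA'.sub ha hb)
      have h6 : ξ₁ (a - b) = ξ (a - b) - t * SY.J u ⟨a - b, h4⟩ := by
        rw [hξ₁, sub_apply, smul_apply, smul_eq_mul, ← hex1]
      have h7 : |ξ₁ (a - b)| ≤ ε / 3 * ‖a - b‖ := by rw [h6]; exact h5
      have h8 := ξ₁.le_opNorm b
      rw [Real.norm_eq_abs] at h8
      have h9 : ξ₁ a = ξ₁ (a - b) + ξ₁ b := by rw [← map_add, sub_add_cancel]
      have h10 : ε / 3 * ‖a - b‖ ≤ ε / 3 * (‖a‖ + ‖b‖) := by gcongr; exact norm_sub_le a b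
      have h11 : (‖ξ₁‖ + ε / 3) * ‖b‖ ≤ (‖ξ₁‖ + ε / 3) * (‖q a‖ + η / (‖ξ₁‖ + ε / 3)) := by
        gcongr
      have h12 : (‖ξ₁‖ + ε / 3) * (η / (‖ξ₁‖ + ε / 3)) = η := by field_simp
      rw [h9]
      linarith [abs_add_le (ξ₁ (a - b)) (ξ₁ b)]
    obtain ⟨ψ, hψ⟩ := hb_split hA' q ξ₁ (by positivity) hε3.le h1
    obtain ⟨_, ⟨u', hu', rfl⟩, t', ht'⟩ := SZ.approx (hA'.image q) ψ hε3
    refine ⟨{(u : X), u'}, by simpa [insert_subset_iff] using ⟨hu, hu'⟩, cd (u, u', t, t'),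
      mem_insert_of_mem _ ⟨(u, u', t, t'), ⟨by simp, by simp, trivial⟩, rfl⟩, fun a ha => ?_⟩
    have h2 := abs_le.1 (hψ a ha)
    have h3 := abs_le.1 (ht' _ ⟨a, ha, rfl⟩)
    have h4 : ε / 3 * ‖q a‖ ≤ ε / 3 * ‖a‖ := by gcongr; exact hq1 a
    have h5 : (ξ - cd (u, u', t, t')) a = ξ₁ a - t' * SZ.J (q u') (q a) := by
      simp only [cd, hξ₁, sub_apply, add_apply, smul_apply, smul_eq_mul,
        ContinuousLinearMap.comp_apply]
      ring
    have h6 : 0 ≤ ε * ‖a‖ := by positivity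
    rw [h5, abs_le]
    constructor <;> linarith [h2.1, h2.2, h3.1, h3.2]
  · -- descent
    have hA' := hQ A hA
    have h1 : q x ∈ closure (q '' A) := by
      refine SZ.descent (hA'.image q) ?_
      rintro _ ⟨u, hu, rfl⟩ hne
      obtain ⟨d, hd1, hd2, m, δ, hδ, hlab⟩ := hlabZ _ hne
      refine ⟨d, ⟨lam d 0, hpin u hu (true, m) _ ⟨SZ.C⁻¹ * δ, by positivity, ?_⟩, hlam1 _ _⟩,
        hd1, hd2⟩
      rintro _ ⟨ψ, hψ, rfl⟩ hne'
      refine ⟨_, ⟨_, SZ.J_mem_B hne, rfl⟩, ?_⟩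
      have h2 : ψ (q x - q u) ≤ SZ.N (q x - q u) - δ := by
        by_contra h3
        exact hne' (by simp only [hlab ψ hψ (not_le.1 h3)])
      simp only [smul_apply, ContinuousLinearMap.comp_apply, smul_eq_mul]
      rw [map_sub q, SZ.J_self hne, ← mul_add]
      gcongr
      linarith
    obtain ⟨x', hx', hqx'⟩ := lift_closure hA' q (hK A hA) h1
    have hy : x - x' ∈ Y := (hker _).1 (by rw [map_sub, hqx', sub_self])
    have h2 : (⟨x - x', hy⟩ : Y) ∈ closure {y : Y | (y : X) ∈ A} := by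
      refine SY.descent (hA'.preimage Y) fun u hu hne => ?_
      obtain ⟨d, hd1, hd2, m, δ, hδ, hlab⟩ := hlabY _ hne
      obtain ⟨u₁, hu₁, hdist⟩ := Metric.mem_closure_iff.1 hx' (δ / 4 / SY.C) (by positivity)
      refine ⟨d, hpin (u + u₁) (hA'.add _ hu _ hu₁) (false, m) _
        ⟨SY.C⁻¹ * (δ / 2), by positivity, ?_⟩, hd1, hd2⟩
      set w : Y := ⟨x - x', hy⟩ - u with hw
      have hsplit : x - (u + u₁) = w + (x' - u₁) := by
        simp only [hw, AddSubgroupClass.coe_sub]; abel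
      have hsmall : ∀ ξ : StrongDual ℝ X, ‖ξ‖ ≤ SY.C → |ξ (x' - u₁)| ≤ δ / 4 := fun ξ hξ => by
        have h3 := ξ.le_opNorm (x' - u₁)
        rw [dist_eq_norm, lt_div_iff₀ hCY] at hdist
        rw [Real.norm_eq_abs] at h3
        have h4 : ‖ξ‖ * ‖x' - u₁‖ ≤ SY.C * ‖x' - u₁‖ := by gcongr
        linarith
      have hJn : ‖ex (SY.J w)‖ ≤ SY.C := by
        rw [hex2]; exact SY.norm_le_of_mem_B (SY.J_mem_B hne)
      have hJe : (ex (SY.J w)).comp Y.subtypeL = SY.J w := by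
        ext v; exact hex1 _ v
      rintro _ ⟨ξ, hξ, rfl⟩ hne'
      refine ⟨_, ⟨ex (SY.J w), ⟨hJn, by rw [hJe]; exact SY.J_mem_B hne⟩, rfl⟩, ?_⟩
      have h3 : ξ w ≤ SY.N w - δ := by
        by_contra h4
        exact hne' (by simp only [hlab _ hξ.2 (not_le.1 h4)])
      simp only [smul_apply, smul_eq_mul]
      rw [hsplit, map_add, map_add, hex1, SY.J_self hne, ← mul_add]
      refine mul_le_mul_of_nonneg_left ?_ (inv_pos.2 hCY).le
      linarith [(abs_le.1 (hsmall ξ hξ.1)).2, (abs_le.1 (hsmall _ hJn)).1]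
    have h3 : x - x' ∈ closure A :=
      map_mem_closure (f := fun y : Y => (y : X)) continuous_subtype_val h2 fun y hy => hy
    have h4 := hA'.clo.add_mem h3 hx'
    rw [sub_add_cancel] at h4
    exact h4

end Pool.Agent.MP_151be3_an

end
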