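import Mathlib

attribute [-instance] AddQuantale.instAddLeftMono Valued.toUniformSpace NumberField.to_charZero
  NonUnitalNonAssocRing.toAddCommGroup AddGroupWithOne.toAddGroup
  NonUnitalNormedRing.toNonUnitalSeminormedRing TotallySeparatedSpace.t2Space
  IsTopologicalTorsor.toContinuousSMul AddQuantale.instAddRightMono
  NonUnitalNonAssocSemiring.toAddCommMonoid IdemSemiring.toCanonicallyOrderedAdd
  NonUnitalNormedCommRing.toNonUnitalSeminormedCommRing RKHS.instFunLike Ring.toAddCommGroup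
  continuousSub_of_discreteTopology LinearOrderedCommMonoidWithZero.toPosMulStrictMono
  LieAdmissibleAlgebra.toModule DenselyNormedField.toNormedField CStarAlgebra.instOrderClosedTopology
  Quantale.instMulRightMono continuousSub_of_indiscreteTopology
  NonarchimedeanAddGroup.toIsTopologicalAddGroup ProperSMul.toContinuousSMul
  SeminormedRing.toNonUnitalSeminormedRing Topology.IsScott.instClosedIicTopologyOfUnivSet
  LieRing.toAddCommGroup

-- part MP_151be3_an.H28.Phi
section

/-! Scalar tools: the squared positive part, the switch functions and a smooth supremum. -/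

namespace Pool.Agent.MP_151be3_an.H28

open Set Filter Topology

/-- The squared positive part. -/
def bb (s : ℝ) : ℝ := (max s 0) ^ 2

theorem bb_nonneg (s : ℝ) : 0 ≤ bb s := sq_nonneg _

theorem bb_of_nonpos {s : ℝ} (h : s ≤ 0) : bb s = 0 := by simp only [bb, max_eq_right h, ne_eq, OfNat.ofNat_ne_zero, not_false_eq_true, zero_pow]

theorem bb_of_nonneg {s : ℝ} (h : 0 ≤ s) : bb s = s ^ 2 := by simp only [bb, max_eq_left h]

theorem bb_mono : Monotone bb := fun _ _ h =>
  pow_le_pow_left₀ (le_max_right _ _) (max_le_max h le_rfl) 2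

theorem le_one_of_bb {s : ℝ} (h : bb s ≤ 1) : s ≤ 1 := by
  by_contra hs
  push Not at hs
  rw [bb_of_nonneg (by linarith)] at h
  nlinarith only [h, hs]

theorem continuous_bb : Continuous bb := by
  unfold bb
  fun_prop

theorem hasDerivAt_bb (s : ℝ) : HasDerivAt bb (2 * max s 0) s := by
  rcases lt_trichotomy s 0 with h | h | h
  · rw [max_eq_right h.le, mul_zero]
    refine (hasDerivAt_const s (0 : ℝ)).congr_of_eventuallyEq ?_
    filter_upwards [gt_mem_nhds h] with t ht
    exact bb_of_nonpos ht.le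
  · subst h
    rw [hasDerivAt_iff_isLittleO_nhds_zero]
    simp only [zero_add, max_self, mul_zero, smul_zero, sub_zero, bb_of_nonpos le_rfl]
    refine Asymptotics.IsBigO.trans_isLittleO (g := fun t : ℝ => t ^ 2) ?_
      (Asymptotics.isLittleO_pow_id (by norm_num))
    refine Asymptotics.IsBigO.of_bound 1 (Eventually.of_forall fun t => ?_)
    rw [one_mul, Real.norm_of_nonneg (bb_nonneg t), Real.norm_of_nonneg (sq_nonneg t)]
    rcases le_total t 0 with ht | ht
    · rw [bb_of_nonpos ht]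
      positivity
    · rw [bb_of_nonneg ht]
  · rw [max_eq_left h.le]
    have h2 : HasDerivAt (fun t : ℝ => t ^ 2) (2 * s) s := by
      simpa using hasDerivAt_pow 2 s
    refine h2.congr_of_eventuallyEq ?_
    filter_upwards [lt_mem_nhds h] with t ht
    exact bb_of_nonneg ht.le

theorem hasStrictDerivAt_bb (s : ℝ) : HasStrictDerivAt bb (2 * max s 0) s :=
  hasStrictDerivAt_of_hasDerivAt_of_continuousAt (f' := fun t => 2 * max t 0)
    (Eventually.of_forall hasDerivAt_bb) (by fun_prop)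

theorem contDiff_bb : ContDiff ℝ 1 bb := by
  rw [contDiff_one_iff_deriv]
  refine ⟨fun s => (hasDerivAt_bb s).differentiableAt, ?_⟩
  have : deriv bb = fun s => 2 * max s 0 := funext fun s => (hasDerivAt_bb s).deriv
  rw [this]
  fun_prop

open Classical in
/-- The switch function: constant `1/2` when the flag holds, a slow arctangent otherwise. -/
noncomputable def ps (l : Prop) (s : ℝ) : ℝ :=
  if l then 1 / 2 else -1 + Real.arctan ((s - 2) / 8)

theorem ps_le_one (l : Prop) (s : ℝ) : ps l s ≤ 1 := by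
  unfold ps
  split_ifs
  · norm_num
  · have := Real.arctan_lt_pi_div_two ((s - 2) / 8)
    have := Real.pi_lt_four
    linarith

theorem ps_deriv (l : Prop) (s : ℝ) : ∃ d : ℝ, |d| ≤ 1 / 8 ∧ HasStrictDerivAt (ps l) d s := by
  by_cases hl : l
  · refine ⟨0, by norm_num, ?_⟩
    have : ps l = fun _ => 1 / 2 := funext fun t => by simp [ps, hl]
    rw [this]
    exact hasStrictDerivAt_const s _
  · have : ps l = fun t => -1 + Real.arctan ((t - 2) / 8) := funext fun t => by simp [ps, hl]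
    rw [this]
    have h1 : HasStrictDerivAt (fun t : ℝ => (t - 2) / 8) (1 / 8) s := by
      have h0 : HasStrictDerivAt (fun t : ℝ => t - 2) 1 s := by
        simpa using (hasStrictDerivAt_id s).fun_sub (hasStrictDerivAt_const s (2 : ℝ))
      exact h0.div_const 8
    have h2 := ((Real.hasStrictDerivAt_arctan ((s - 2) / 8)).comp s h1).const_add (-1)
    refine ⟨_, ?_, h2⟩
    have h3 : 0 < 1 + ((s - 2) / 8) ^ 2 := by positivity
    have h4 : 1 / (1 + ((s - 2) / 8) ^ 2) ≤ 1 := by
      rw [div_le_one h3]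
      nlinarith only []
    rw [abs_of_nonneg (by positivity)]
    linarith only [h4]

theorem ps_lip (l : Prop) (s t : ℝ) : |ps l s - ps l t| ≤ 1 / 8 * |s - t| := by
  choose d hd1 hd2 using ps_deriv l
  have := Convex.norm_image_sub_le_of_norm_hasDerivWithin_le (f := ps l) (f' := d) (C := 1 / 8)
    (s := univ) (x := t) (y := s) (fun x _ => (hd2 x).hasDerivAt.hasDerivWithinAt)
    (fun x _ => hd1 x) convex_univ (mem_univ _) (mem_univ _)
  simpa only [one_div, ge_iff_le, Real.norm_eq_abs] using this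

theorem ps_large : ∃ K : ℝ, ∀ (l : Prop) (s : ℝ), (l ∨ K ≤ s) → 1 / 2 ≤ ps l s := by
  have h : ∀ᶠ y in atTop, 3 / 2 < Real.arctan y := by
    refine (Real.tendsto_arctan_atTop.mono_right nhdsWithin_le_nhds).eventually
      (lt_mem_nhds ?_)
    have := Real.pi_gt_three
    linarith
  obtain ⟨y, hy⟩ := eventually_atTop.1 h
  refine ⟨8 * y + 2, fun l s hs => ?_⟩
  unfold ps
  split_ifs with hl
  · exact le_rfl
  · have h1 := hs.resolve_left hl
    have := hy ((s - 2) / 8) (by linarith only [h1])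
    linarith

theorem ps_small {l : Prop} {s : ℝ} (h : -1 < ps l s) : l ∨ 2 < s := by
  by_cases hl : l
  · exact Or.inl hl
  · right
    simp only [ps, hl, if_false] at h
    by_contra hs
    have : Real.arctan ((s - 2) / 8) ≤ 0 := Real.arctan_le_zero.2 (by linarith)
    linarith

/-- The value of one candidate. -/
noncomputable def jump (l : Prop) (τ A B : ℝ) : ℝ := A + τ * ps l ((A - B) / τ)

theorem jump_le (l : Prop) {τ : ℝ} (hτ : 0 < τ) (A B : ℝ) : jump l τ A B ≤ A + τ := by
  have := ps_le_one l ((A - B) / τ)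
  unfold jump
  nlinarith

theorem jump_lip (l : Prop) {τ : ℝ} (hτ : 0 < τ) (A B A' B' c : ℝ) :
    |jump l τ A B - jump l τ A' B' - c| ≤ 9 / 8 * |A - A' - c| + 1 / 8 * |B - B' - c| := by
  have h1 := ps_lip l ((A - B) / τ) ((A' - B') / τ)
  have h2 : (A - B) / τ - (A' - B') / τ = ((A - A' - c) - (B - B' - c)) / τ := by ring
  rw [h2, abs_div, abs_of_pos hτ] at h1
  have h3 : |τ * (ps l ((A - B) / τ) - ps l ((A' - B') / τ))| ≤
      1 / 8 * |(A - A' - c) - (B - B' - c)| := by
    rw [abs_mul, abs_of_pos hτ]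
    calc τ * _ ≤ τ * (1 / 8 * (|(A - A' - c) - (B - B' - c)| / τ)) :=
          mul_le_mul_of_nonneg_left h1 hτ.le
      _ = _ := by field_simp
  have h4 := abs_sub (A - A' - c) (B - B' - c)
  have h5 : jump l τ A B - jump l τ A' B' - c =
      (A - A' - c) + τ * (ps l ((A - B) / τ) - ps l ((A' - B') / τ)) := by
    unfold jump
    ring
  rw [h5]
  have h6 := abs_add_le (A - A' - c) (τ * (ps l ((A - B) / τ) - ps l ((A' - B') / τ)))
  linarith only [h3, h4, h6]

section Phi

variable {ι : Type*}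

/-- Admissible levels for the smooth supremum. -/
def good (σ u : ι → ℝ) : Set ℝ := {ρ | ∀ F : Finset ι, ∑ i ∈ F, bb ((u i - ρ) / σ i) ≤ 1}

/-- The smooth supremum of the family `u` with widths `σ`. -/
noncomputable def Phi (σ u : ι → ℝ) : ℝ := sInf (good σ u)

variable {σ u v : ι → ℝ}

theorem mem_good (hσ : ∀ i, 0 < σ i) {ρ : ℝ} (h : ∀ i, u i ≤ ρ) : ρ ∈ good σ u := fun F => by
  rw [Finset.sum_eq_zero]
  · norm_num
  · intro i _
    exact bb_of_nonpos (div_nonpos_of_nonpos_of_nonneg (by linarith [h i]) (hσ i).le)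

theorem le_of_mem_good (hσ : ∀ i, 0 < σ i) {ρ : ℝ} (h : ρ ∈ good σ u) (i : ι) :
    u i - σ i ≤ ρ := by
  have h1 := h {i}
  rw [Finset.sum_singleton] at h1
  have h2 := le_one_of_bb h1
  rw [div_le_one (hσ i)] at h2
  linarith

theorem good_shift (hσ : ∀ i, 0 < σ i) {c ρ ρ' : ℝ} (h : ∀ i, u i ≤ v i + c) (hρ : ρ ∈ good σ v)
    (h' : ρ + c ≤ ρ') : ρ' ∈ good σ u := fun F =>
  le_trans (Finset.sum_le_sum fun i _ => bb_mono
    (div_le_div_of_nonneg_right (by linarith [h i]) (hσ i).le)) (hρ F)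

theorem bddBelow_good [Nonempty ι] (hσ : ∀ i, 0 < σ i) : BddBelow (good σ u) :=
  ⟨_, fun _ h => le_of_mem_good hσ h (Classical.arbitrary ι)⟩

theorem Phi_le [Nonempty ι] (hσ : ∀ i, 0 < σ i) {M : ℝ} (h : ∀ i, u i ≤ M) : Phi σ u ≤ M :=
  csInf_le (bddBelow_good hσ) (mem_good hσ h)

theorem le_Phi (hσ : ∀ i, 0 < σ i) {M : ℝ} (h : ∀ i, u i ≤ M) (i : ι) : u i - σ i ≤ Phi σ u :=
  le_csInf ⟨M, mem_good hσ h⟩ fun _ hρ => le_of_mem_good hσ hρ i

theorem Phi_le_add [Nonempty ι] (hσ : ∀ i, 0 < σ i) {M c : ℝ} (hM : ∀ i, v i ≤ M)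
    (h : ∀ i, u i ≤ v i + c) : Phi σ u ≤ Phi σ v + c := by
  rw [← sub_le_iff_le_add]
  refine le_csInf ⟨M, mem_good hσ hM⟩ fun ρ hρ => ?_
  rw [sub_le_iff_le_add]
  exact csInf_le (bddBelow_good hσ) (good_shift hσ h hρ le_rfl)

theorem abs_Phi_sub_le [Nonempty ι] (hσ : ∀ i, 0 < σ i) {M M' c d : ℝ} (hM : ∀ i, u i ≤ M)
    (hM' : ∀ i, v i ≤ M') (h : ∀ i, |u i - v i - c| ≤ d) : |Phi σ u - Phi σ v - c| ≤ d := by
  have h1 := Phi_le_add (u := u) (v := v) (c := c + d) hσ hM' fun i => by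
    linarith [(abs_le.1 (h i)).2]
  have h2 := Phi_le_add (u := v) (v := u) (c := d - c) hσ hM fun i => by
    linarith [(abs_le.1 (h i)).1]
  rw [abs_le]
  constructor <;> linarith

/-- The implicit equation satisfied by the smooth supremum when only finitely many candidates
are active. -/
theorem Phi_eq [Nonempty ι] (hσ : ∀ i, 0 < σ i) {M ρ₁ : ℝ} (hM : ∀ i, u i ≤ M) (F : Finset ι)
    (h1 : ρ₁ < Phi σ u) (h2 : ∀ i ∉ F, u i ≤ ρ₁) :
    ∑ i ∈ F, bb ((u i - Phi σ u) / σ i) = 1 := by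
  classical
  have hG : Continuous fun ρ : ℝ => ∑ i ∈ F, bb ((u i - ρ) / σ i) :=
    continuous_finsetSum _ fun i _ => continuous_bb.comp (by fun_prop)
  apply le_antisymm
  · refine le_of_tendsto ((hG.tendsto (Phi σ u)).mono_left
      (nhdsWithin_le_nhds (s := Ioi (Phi σ u)))) ?_
    filter_upwards [self_mem_nhdsWithin] with ρ hρ
    obtain ⟨ρ', hρ', hlt⟩ := exists_lt_of_csInf_lt ⟨M, mem_good hσ hM⟩ hρ
    exact good_shift (c := 0) hσ (fun i => by simp) hρ' (by linarith) F
  · refine ge_of_tendsto ((hG.tendsto (Phi σ u)).mono_left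
      (nhdsWithin_le_nhds (s := Iio (Phi σ u)))) ?_
    filter_upwards [Ioo_mem_nhdsLT h1] with ρ hρ
    by_contra hcon
    push Not at hcon
    have hg : ρ ∈ good σ u := fun F' => by
      calc ∑ i ∈ F', bb ((u i - ρ) / σ i) = ∑ i ∈ F' ∩ F, bb ((u i - ρ) / σ i) := by
            refine (Finset.sum_subset Finset.inter_subset_left fun i hi hi' => ?_).symm
            have : i ∉ F := fun h => hi' (Finset.mem_inter.2 ⟨hi, h⟩)
            exact bb_of_nonpos (div_nonpos_of_nonpos_of_nonneg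
              (by linarith only [h2 i this, hρ.1]) (hσ i).le)
        _ ≤ ∑ i ∈ F, bb ((u i - ρ) / σ i) :=
            Finset.sum_le_sum_of_subset_of_nonneg Finset.inter_subset_right
              fun i _ _ => bb_nonneg _
        _ ≤ 1 := hcon.le
    exact absurd (csInf_le (bddBelow_good hσ) hg) (not_le.2 hρ.2)

end Phi

end Pool.Agent.MP_151be3_an.H28

end

-- part MP_151be3_an.H28.Rough
section

/-! A calculus for the defect of strict differentiability. -/

namespace Pool.Agent.MP_151be3_an.H28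

open Set Filter Topology Asymptotics

set_option linter.unusedSectionVars false

variable {X : Type*} [NormedAddCommGroup X] [NormedSpace ℝ X]

/-- `f` is strictly differentiable at `x` up to a defect `r`. -/
def Rough (f : X → ℝ) (x : X) (r : ℝ) : Prop :=
  ∀ η : ℝ, 0 < η → ∃ ξ : StrongDual ℝ X, ∀ᶠ z : X × X in 𝓝 (x, x),
    |f z.1 - f z.2 - ξ (z.1 - z.2)| ≤ (r + η) * ‖z.1 - z.2‖

/-- `f` is Lipschitz. -/
def Lip (f : X → ℝ) : Prop := ∃ L : ℝ, ∀ y z : X, |f y - f z| ≤ L * ‖y - z‖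

theorem Lip.continuous {f : X → ℝ} (h : Lip f) : Continuous f := by
  obtain ⟨L, hL⟩ := h
  refine (LipschitzWith.of_dist_le' (K := L) fun y z => ?_).continuous
  rw [Real.dist_eq, dist_eq_norm]
  exact hL y z

theorem Lip.sub {f g : X → ℝ} (hf : Lip f) (hg : Lip g) : Lip fun y => f y - g y := by
  obtain ⟨L, hL⟩ := hf
  obtain ⟨M, hM⟩ := hg
  refine ⟨L + M, fun y z => ?_⟩
  have h1 := abs_sub (f y - f z) (g y - g z)
  have h2 : f y - g y - (f z - g z) = f y - f z - (g y - g z) := by ring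
  rw [h2]
  linarith [hL y z, hM y z]

theorem Lip.div_const {f : X → ℝ} (hf : Lip f) (c : ℝ) : Lip fun y => f y / c := by
  obtain ⟨L, hL⟩ := hf
  refine ⟨L / |c|, fun y z => ?_⟩
  rw [← sub_div, abs_div, div_mul_eq_mul_div]
  exact div_le_div_of_nonneg_right (hL y z) (abs_nonneg c)

theorem lip_of_centre {f : X → ℝ} {e : StrongDual ℝ X} {r : ℝ}
    (h : ∀ y z, |f y - f z - e (y - z)| ≤ r * ‖y - z‖) : Lip f := by
  refine ⟨r + ‖e‖, fun y z => ?_⟩
  have h1 := e.le_opNorm (y - z)
  rw [Real.norm_eq_abs] at h1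
  have h2 := abs_add_le (f y - f z - e (y - z)) (e (y - z))
  rw [sub_add_cancel] at h2
  linarith [h y z]

theorem Rough.mono {f : X → ℝ} {x : X} {r s : ℝ} (h : Rough f x r) (hrs : r ≤ s) :
    Rough f x s := fun η hη => by
  obtain ⟨ξ, hξ⟩ := h η hη
  refine ⟨ξ, hξ.mono fun z hz => hz.trans ?_⟩
  exact mul_le_mul_of_nonneg_right (by linarith) (norm_nonneg _)

theorem Rough.add {f g : X → ℝ} {x : X} {r s : ℝ} (hf : Rough f x r) (hg : Rough g x s) :
    Rough (fun y => f y + g y) x (r + s) := fun η hη => by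
  obtain ⟨ξ, hξ⟩ := hf (η / 2) (by linarith)
  obtain ⟨ζ, hζ⟩ := hg (η / 2) (by linarith only [hη])
  refine ⟨ξ + ζ, ?_⟩
  filter_upwards [hξ, hζ] with z h1 h2
  have h3 := abs_add_le (f z.1 - f z.2 - ξ (z.1 - z.2)) (g z.1 - g z.2 - ζ (z.1 - z.2))
  have h4 : f z.1 + g z.1 - (f z.2 + g z.2) - (ξ + ζ) (z.1 - z.2) =
      (f z.1 - f z.2 - ξ (z.1 - z.2)) + (g z.1 - g z.2 - ζ (z.1 - z.2)) := by
    rw [add_apply]
    ring
  rw [h4]
  linarith only [h1, h2, h3]

theorem Rough.const_mul {f : X → ℝ} {x : X} {r : ℝ} (hf : Rough f x r) (c : ℝ) :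
    Rough (fun y => c * f y) x (|c| * r) := fun η hη => by
  have hc : 0 < |c| + 1 := by positivity
  obtain ⟨ξ, hξ⟩ := hf (η / (|c| + 1)) (by positivity)
  refine ⟨c • ξ, hξ.mono fun z hz => ?_⟩
  have h4 : c * f z.1 - c * f z.2 - (c • ξ) (z.1 - z.2) =
      c * (f z.1 - f z.2 - ξ (z.1 - z.2)) := by
    rw [smul_apply, smul_eq_mul]
    ring
  rw [h4, abs_mul]
  have h5 : |c| * (η / (|c| + 1)) ≤ η := by
    rw [mul_div_assoc', div_le_iff₀ hc]
    linarith only [hη]
  calc |c| * _ ≤ |c| * ((r + η / (|c| + 1)) * ‖z.1 - z.2‖) :=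
        mul_le_mul_of_nonneg_left hz (abs_nonneg c)
    _ = (|c| * r + |c| * (η / (|c| + 1))) * ‖z.1 - z.2‖ := by ring
    _ ≤ _ := mul_le_mul_of_nonneg_right (by linarith only [h5]) (norm_nonneg _)

theorem rough_zero (x : X) : Rough (fun _ => (0 : ℝ)) x 0 := fun η hη =>
  ⟨0, Eventually.of_forall fun z => by
    simp only [sub_self, zero_apply, abs_zero]
    positivity⟩

theorem rough_sum {ι : Type*} (F : Finset ι) {f : ι → X → ℝ} {x : X} {r : ι → ℝ}
    (h : ∀ i ∈ F, Rough (f i) x (r i)) : Rough (fun y => ∑ i ∈ F, f i y) x (∑ i ∈ F, r i) := by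
  classical
  induction F using Finset.induction_on with
  | empty => simpa using rough_zero x
  | insert a s ha ih =>
    simp only [Finset.sum_insert ha]
    exact (h a (Finset.mem_insert_self _ _)).add
      (ih fun i hi => h i (Finset.mem_insert_of_mem hi))

theorem Rough.of_littleO {f g : X → ℝ} {x : X} {r : ℝ} (hg : Rough g x r)
    (h : (fun z : X × X => f z.1 - f z.2 - (g z.1 - g z.2)) =o[𝓝 (x, x)]
      fun z => z.1 - z.2) : Rough f x r := fun η hη => by
  obtain ⟨ξ, hξ⟩ := hg (η / 2) (by linarith)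
  refine ⟨ξ, ?_⟩
  filter_upwards [hξ, h.def (by linarith only [hη] : 0 < η / 2)] with z h1 h2
  rw [Real.norm_eq_abs] at h2
  have h3 := abs_add_le (f z.1 - f z.2 - (g z.1 - g z.2)) (g z.1 - g z.2 - ξ (z.1 - z.2))
  have h4 : f z.1 - f z.2 - (g z.1 - g z.2) + (g z.1 - g z.2 - ξ (z.1 - z.2)) =
      f z.1 - f z.2 - ξ (z.1 - z.2) := by ring
  rw [h4] at h3
  linarith

theorem comp_littleO {φ : ℝ → ℝ} {d : ℝ} {f : X → ℝ} {x : X} (hφ : HasStrictDerivAt φ d (f x))
    (hf : Lip f) :
    (fun z : X × X => φ (f z.1) - φ (f z.2) - d * (f z.1 - f z.2)) =o[𝓝 (x, x)]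
      fun z => z.1 - z.2 := by
  have hc := hf.continuous
  have ht : Tendsto (fun z : X × X => (f z.1, f z.2)) (𝓝 (x, x)) (𝓝 (f x, f x)) :=
    (by fun_prop : Continuous fun z : X × X => (f z.1, f z.2)).tendsto (x, x)
  have h1 := hφ.hasStrictFDerivAt.isLittleO.comp_tendsto ht
  obtain ⟨L, hL⟩ := hf
  have h2 : (fun z : X × X => f z.1 - f z.2) =O[𝓝 (x, x)] fun z => z.1 - z.2 :=
    IsBigO.of_bound L (Eventually.of_forall fun z => hL z.1 z.2)
  refine IsLittleO.trans_isBigO ?_ h2
  refine h1.congr (fun z => ?_) (fun z => rfl)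
  simp [mul_comm]

theorem rough_jump (l : Prop) {τ : ℝ} (hτ : 0 < τ) {A B : X → ℝ} {x : X} {a b : ℝ}
    (ha : 0 ≤ a) (hb : 0 ≤ b) (hA : Rough A x a) (hB : Rough B x b) (lA : Lip A) (lB : Lip B) :
    Rough (fun y => jump l τ (A y) (B y)) x (9 / 8 * a + 1 / 8 * b) := by
  obtain ⟨d, hd, hd'⟩ := ps_deriv l ((A x - B x) / τ)
  have h1 := (comp_littleO (f := fun y => (A y - B y) / τ) hd' ((lA.sub lB).div_const τ)).const_mul_left τ
  have h2 := ((hA.add (hA.const_mul d)).add (hB.const_mul (-d))).mono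
    (s := 9 / 8 * a + 1 / 8 * b) (by rw [abs_neg]; nlinarith)
  refine h2.of_littleO (h1.congr (fun z => ?_) (fun z => rfl))
  unfold jump
  field_simp
  ring

theorem rough_implicit {ι : Type*} (F : Finset ι) {σ : ι → ℝ} (hσ : ∀ i, 0 < σ i)
    {u : ι → X → ℝ} {N : X → ℝ} {x : X} {r : ℝ} (hu : ∀ i, Rough (u i) x r)
    (lu : ∀ i, Lip (u i)) (lN : Lip N)
    (heq : ∀ᶠ y in 𝓝 x, ∑ i ∈ F, bb ((u i y - N y) / σ i) = 1) : Rough N x r := by
  set a : ι → ℝ := fun i => 2 * max ((u i x - N x) / σ i) 0 / σ i with ha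
  have ha0 : ∀ i, 0 ≤ a i := fun i =>
    div_nonneg (mul_nonneg (by norm_num) (le_max_right _ _)) (hσ i).le
  have hpos : 0 < ∑ i ∈ F, a i := by
    have h1 := heq.self_of_nhds
    obtain ⟨i, hi, hne⟩ := Finset.exists_ne_zero_of_sum_ne_zero (h1.trans_ne one_ne_zero)
    refine Finset.sum_pos' (fun j _ => ha0 j) ⟨i, hi, ?_⟩
    have h2 : 0 < (u i x - N x) / σ i := by
      by_contra h
      exact hne (bb_of_nonpos (not_lt.1 h))
    exact div_pos (mul_pos (by norm_num) (lt_max_of_lt_left h2)) (hσ i)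
  set S := ∑ i ∈ F, a i with hS
  have h1 : Rough (fun y => ∑ i ∈ F, a i / S * u i y) x (∑ i ∈ F, |a i / S| * r) :=
    rough_sum F fun i _ => (hu i).const_mul _
  have h2 : ∑ i ∈ F, |a i / S| * r = r := by
    rw [← Finset.sum_mul, Finset.sum_congr rfl
      (fun i _ => abs_of_nonneg (div_nonneg (ha0 i) hpos.le)), ← Finset.sum_div, ← hS,
      div_self hpos.ne', one_mul]
  rw [h2] at h1
  refine h1.of_littleO ?_
  have h3 := (IsLittleO.sum (s := F) fun i _ =>
    comp_littleO (f := fun y => (u i y - N y) / σ i) (x := x) (hasStrictDerivAt_bb _)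
      (((lu i).sub lN).div_const _)).const_mul_left (1 / S)
  refine h3.congr' ?_ EventuallyEq.rfl
  have e1 : ∀ᶠ z : X × X in 𝓝 (x, x), ∑ i ∈ F, bb ((u i z.1 - N z.1) / σ i) = 1 :=
    (continuous_fst.tendsto (x, x)).eventually heq
  have e2 : ∀ᶠ z : X × X in 𝓝 (x, x), ∑ i ∈ F, bb ((u i z.2 - N z.2) / σ i) = 1 :=
    (continuous_snd.tendsto (x, x)).eventually heq
  filter_upwards [e1, e2] with z z1 z2
  rw [Finset.sum_apply, Finset.sum_sub_distrib, Finset.sum_sub_distrib, z1, z2]
  have h4 : ∀ i ∈ F, 2 * max ((u i x - N x) / σ i) 0 *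
      ((u i z.1 - N z.1) / σ i - (u i z.2 - N z.2) / σ i) =
      a i * (u i z.1 - u i z.2) - a i * (N z.1 - N z.2) := fun i _ => by
    rw [ha]
    ring
  rw [Finset.sum_congr rfl h4, Finset.sum_sub_distrib, ← Finset.sum_mul, ← hS,
    ← Finset.sum_sub_distrib]
  have h5 : ∀ i ∈ F, a i / S * u i z.1 - a i / S * u i z.2 =
      1 / S * (a i * (u i z.1 - u i z.2)) := fun i _ => by ring
  rw [Finset.sum_congr rfl h5, ← Finset.mul_sum]
  field_simp
  ring

theorem norm_sub_le_of_approx {f : X → ℝ} {x : X} {ξ ζ : StrongDual ℝ X} {a b : ℝ}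
    (hab : 0 ≤ a + b)
    (h1 : ∀ᶠ z : X × X in 𝓝 (x, x), |f z.1 - f z.2 - ξ (z.1 - z.2)| ≤ a * ‖z.1 - z.2‖)
    (h2 : ∀ᶠ z : X × X in 𝓝 (x, x), |f z.1 - f z.2 - ζ (z.1 - z.2)| ≤ b * ‖z.1 - z.2‖) :
    ‖ξ - ζ‖ ≤ a + b := by
  refine ContinuousLinearMap.opNorm_le_of_nhds_zero hab ?_
  have ht : Tendsto (fun v : X => (x + v, x)) (𝓝 0) (𝓝 (x, x)) := by
    have := (by fun_prop : Continuous fun v : X => (x + v, x)).tendsto 0
    simpa only [add_zero] using this
  filter_upwards [ht.eventually h1, ht.eventually h2] with v v1 v2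
  simp only [add_sub_cancel_left] at v1 v2
  rw [sub_apply, Real.norm_eq_abs]
  have h3 := abs_sub (f (x + v) - f x - ζ v) (f (x + v) - f x - ξ v)
  have h4 : f (x + v) - f x - ζ v - (f (x + v) - f x - ξ v) = ξ v - ζ v := by ring
  rw [h4] at h3
  linarith

theorem Rough.exists_deriv {f : X → ℝ} {x : X} (h : Rough f x 0) :
    ∃ ξ : StrongDual ℝ X, ∀ η : ℝ, 0 < η → ∀ᶠ z : X × X in 𝓝 (x, x),
      |f z.1 - f z.2 - ξ (z.1 - z.2)| ≤ η * ‖z.1 - z.2‖ := by
  have hp : ∀ n : ℕ, (0 : ℝ) < (1 / 2) ^ n := fun n => by positivity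
  choose ξ hξ using fun n : ℕ => h _ (hp n)
  simp only [zero_add] at hξ
  have hd : ∀ n, dist (ξ n) (ξ (n + 1)) ≤ 2 * (1 / 2) ^ n := fun n => by
    rw [dist_eq_norm]
    refine (norm_sub_le_of_approx (add_pos (hp n) (hp (n + 1))).le (hξ n) (hξ (n + 1))).trans ?_
    rw [pow_succ]
    linarith [hp n]
  obtain ⟨D, hD⟩ := cauchySeq_tendsto_of_complete
    (cauchySeq_of_le_geometric (1 / 2) 2 (by norm_num) hd)
  refine ⟨D, fun η hη => ?_⟩
  obtain ⟨n, hn⟩ := exists_pow_lt_of_lt_one (by linarith : 0 < η / 5) (by norm_num : (1 / 2 : ℝ) < 1)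
  have h1 := dist_le_of_le_geometric_of_tendsto (1 / 2) 2 (by norm_num) hd hD n
  rw [dist_eq_norm] at h1
  filter_upwards [hξ n] with z hz
  have h2 := (ξ n - D).le_opNorm (z.1 - z.2)
  rw [sub_apply, Real.norm_eq_abs] at h2
  have h3 := abs_add_le (f z.1 - f z.2 - ξ n (z.1 - z.2)) (ξ n (z.1 - z.2) - D (z.1 - z.2))
  have h4 : f z.1 - f z.2 - ξ n (z.1 - z.2) + (ξ n (z.1 - z.2) - D (z.1 - z.2)) =
      f z.1 - f z.2 - D (z.1 - z.2) := by ring
  rw [h4] at h3
  have h5 : ‖ξ n - D‖ ≤ 4 * (1 / 2) ^ n := h1.trans (le_of_eq (by ring))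
  have h6 := mul_le_mul_of_nonneg_right h5 (norm_nonneg (z.1 - z.2))
  have h7 := mul_le_mul_of_nonneg_right hn.le (norm_nonneg (z.1 - z.2))
  linarith only [hz, h2, h3, h6, h7]

/-- A function with zero defect everywhere is `C¹`. -/
theorem contDiff_of_rough {f : X → ℝ} (h : ∀ x, Rough f x 0) : ContDiff ℝ 1 f := by
  choose D hD using fun x => (h x).exists_deriv
  have hs : ∀ x, HasFDerivAt f (D x) x := fun x => by
    refine HasStrictFDerivAt.hasFDerivAt ?_
    refine .of_isLittleO (IsLittleO.of_bound fun c hc => ?_)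
    exact hD x c hc
  rw [contDiff_one_iff_fderiv]
  refine ⟨fun x => (hs x).differentiableAt, ?_⟩
  have : fderiv ℝ f = D := funext fun x => (hs x).fderiv
  rw [this, continuous_iff_continuousAt]
  intro x
  rw [ContinuousAt, Metric.tendsto_nhds]
  intro ε hε
  have h1 := (hD x (ε / 3) (by linarith)).eventually_nhds
  have ht : Tendsto (fun y : X => (y, y)) (𝓝 x) (𝓝 (x, x)) :=
    (by fun_prop : Continuous fun y : X => (y, y)).tendsto x
  filter_upwards [ht.eventually h1] with y hy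
  have := norm_sub_le_of_approx (by linarith only [hε]) (hD y (ε / 3) (by linarith)) hy
  rw [dist_eq_norm]
  linarith

theorem rough_zero_of_geom {f : X → ℝ} {x : X} {C κ : ℝ} (hκ0 : 0 ≤ κ) (hκ : κ < 1)
    (h : ∀ n : ℕ, Rough f x (C * κ ^ n)) : Rough f x 0 := fun η hη => by
  have ht := (tendsto_pow_atTop_nhds_zero_of_lt_one hκ0 hκ).const_mul C
  rw [mul_zero] at ht
  obtain ⟨n, hn⟩ := (ht.eventually (gt_mem_nhds (by linarith : 0 < η / 2))).exists
  obtain ⟨ξ, hξ⟩ := h n (η / 2) (by linarith only [hη])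
  refine ⟨ξ, hξ.mono fun z hz => hz.trans ?_⟩
  exact mul_le_mul_of_nonneg_right (by linarith only [hn]) (norm_nonneg _)

end Pool.Agent.MP_151be3_an.H28

end

-- part MP_151be3_an.H28.Core
section

/-! The smooth recursion along an abstract fragmentation tree. -/

namespace Pool.Agent.MP_151be3_an.H28

open Set Filter Topology

universe u v w

set_option linter.checkUnivs false in
/-- An abstract fragmentation tree: nodes with a radius, a centre and a support function, and
for every node a family of children, each with a `down` node and a `side` node. -/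
structure FTree (X : Type u) [NormedAddCommGroup X] [NormedSpace ℝ X] where
  P : Type v
  Ch : P → Type w
  r : P → ℝ
  e : P → StrongDual ℝ X
  h : P → X → ℝ
  down : ∀ p, Ch p → P
  side : ∀ p, Ch p → P
  last : ∀ p, Ch p → Prop
  r_nonneg : ∀ p, 0 ≤ r p
  lip : ∀ p x y, |h p x - h p y - e p (x - y)| ≤ r p * ‖x - y‖
  r_down : ∀ p β, r (down p β) = r p / 2
  e_down : ∀ p β, ‖e (down p β) - e p‖ ≤ r p
  h_down : ∀ p β x, h (down p β) x ≤ h p x
  r_side : ∀ p β, r (side p β) = r p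
  e_side : ∀ p β, e (side p β) = e p
  first : ∀ p x, ∃ β, h p x ≤ h (down p β) x ∧ (last p β ∨ h (side p β) x < h p x)
  records : ∀ p x (c : ℝ), 0 < c →
    {β | last p β ∨ c ≤ h (down p β) x - h (side p β) x}.Finite

/-- The scales. -/
noncomputable def tau (k : ℕ) : ℝ := (1 / 2) ^ k

theorem tau_pos (k : ℕ) : 0 < tau k := by
  unfold tau
  positivity

theorem tau_le (m n : ℕ) : 2 * tau (m + 1 + n) ≤ tau m := by
  unfold tau
  have h1 : (1 / 2 : ℝ) ^ n ≤ 1 := pow_le_one₀ (by norm_num) (by norm_num)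
  have h2 : (0 : ℝ) < (1 / 2) ^ m := by positivity
  rw [pow_add, pow_succ]
  nlinarith only [h1, h2]

theorem tau_tendsto (m : ℕ) : Tendsto (fun n => tau (m + 1 + n)) atTop (𝓝 0) := by
  unfold tau
  refine (tendsto_pow_atTop_nhds_zero_of_lt_one (by norm_num) (by norm_num)).comp ?_
  exact tendsto_atTop_mono (fun n => Nat.le_add_left n (m + 1)) tendsto_id

namespace FTree

variable {X : Type u} [NormedAddCommGroup X] [NormedSpace ℝ X] (T : FTree.{u, v, w} X)

/-- The candidates at a node. -/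
noncomputable def cand (N : T.P → ℕ → X → ℝ) (p : T.P) (m : ℕ) (x : X) (i : T.Ch p × ℕ) : ℝ :=
  jump (T.last p i.1) (tau (m + 1 + i.2)) (N (T.down p i.1) (m + 1 + i.2) x)
    (N (T.side p i.1) (m + 1 + i.2) x)

/-- The widths of the candidates. -/
noncomputable def sig (p : T.P) (m : ℕ) (i : T.Ch p × ℕ) : ℝ := tau (m + 1 + i.2) / 4

/-- One step of the recursion. -/
noncomputable def step (N : T.P → ℕ → X → ℝ) (p : T.P) (m : ℕ) (x : X) : ℝ :=
  Phi (T.sig p m) (T.cand N p m x)

/-- The sandwich invariant. -/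
def Inv (N : T.P → ℕ → X → ℝ) : Prop :=
  ∀ p m x, T.h p x ≤ N p m x ∧ N p m x ≤ T.h p x + tau m

/-- The Lipschitz invariant. -/
def LipI (N : T.P → ℕ → X → ℝ) : Prop :=
  ∀ p m x y, |N p m x - N p m y - T.e p (x - y)| ≤ 4 * T.r p * ‖x - y‖

theorem nonempty_ch (p : T.P) : Nonempty (T.Ch p × ℕ) :=
  ⟨((T.first p 0).choose, 0)⟩

theorem sig_pos (p : T.P) (m : ℕ) (i : T.Ch p × ℕ) : 0 < T.sig p m i :=
  div_pos (tau_pos _) (by norm_num)

variable {T} {N N' : T.P → ℕ → X → ℝ}

theorem cand_le' (hN : T.Inv N) (p : T.P) (m : ℕ) (x : X) (i : T.Ch p × ℕ) :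
    T.cand N p m x i ≤ T.h p x + 2 * tau (m + 1 + i.2) := by
  have h1 := jump_le (T.last p i.1) (tau_pos (m + 1 + i.2)) (N (T.down p i.1) (m + 1 + i.2) x)
    (N (T.side p i.1) (m + 1 + i.2) x)
  have h2 := (hN (T.down p i.1) (m + 1 + i.2) x).2
  have h3 := T.h_down p i.1 x
  unfold cand
  linarith

theorem cand_le (hN : T.Inv N) (p : T.P) (m : ℕ) (x : X) (i : T.Ch p × ℕ) :
    T.cand N p m x i ≤ T.h p x + tau m := by
  linarith [cand_le' hN p m x i, tau_le m i.2]

theorem step_gt (hN : T.Inv N) (p : T.P) (m : ℕ) (x : X) : T.h p x < T.step N p m x := by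
  obtain ⟨K, hK⟩ := ps_large
  obtain ⟨β, h1, h2⟩ := T.first p x
  have key : ∃ n : ℕ, T.last p β ∨ K ≤ (N (T.down p β) (m + 1 + n) x -
      N (T.side p β) (m + 1 + n) x) / tau (m + 1 + n) := by
    rcases h2 with h2 | h2
    · exact ⟨0, Or.inl h2⟩
    · have ht := (tau_tendsto m).const_mul (K + 1)
      rw [mul_zero] at ht
      obtain ⟨n, hn⟩ := (ht.eventually (gt_mem_nhds (sub_pos.2 h2))).exists
      refine ⟨n, Or.inr ?_⟩
      rw [le_div_iff₀ (tau_pos _)]
      have h3 := (hN (T.down p β) (m + 1 + n) x).1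
      have h4 := (hN (T.side p β) (m + 1 + n) x).2
      linarith
  obtain ⟨n, hn⟩ := key
  have h3 := hK _ _ hn
  have h4 := le_Phi (T.sig_pos p m) (cand_le hN p m x) (β, n)
  have h5 := (hN (T.down p β) (m + 1 + n) x).1
  have h6 := tau_pos (m + 1 + n)
  have h7 := mul_le_mul_of_nonneg_left h3 h6.le
  simp only [cand, sig, jump] at h4
  unfold step
  linarith only [h1, h4, h5, h6, h7]

theorem inv_step (hN : T.Inv N) : T.Inv (T.step N) := fun p m x =>
  haveI := T.nonempty_ch p
  ⟨(step_gt hN p m x).le, Phi_le (T.sig_pos p m) (cand_le hN p m x)⟩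

theorem step_contr (hN : T.Inv N) (hN' : T.Inv N') {d : ℝ} (hd : 0 ≤ d)
    (h : ∀ p m x, |N p m x - N' p m x| ≤ d * tau m) (p : T.P) (m : ℕ) (x : X) :
    |T.step N p m x - T.step N' p m x| ≤ 5 / 8 * d * tau m := by
  have := T.nonempty_ch p
  have := abs_Phi_sub_le (c := 0) (d := 5 / 8 * d * tau m) (T.sig_pos p m) (cand_le hN p m x)
    (cand_le hN' p m x) fun i => by
      refine (jump_lip _ (tau_pos _) _ _ _ _ 0).trans ?_
      simp only [sub_zero]
      have h1 := h (T.down p i.1) (m + 1 + i.2) x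
      have h2 := h (T.side p i.1) (m + 1 + i.2) x
      have h3 := mul_le_mul_of_nonneg_left (tau_le m i.2) hd
      linarith
  simpa only [step, ge_iff_le, sub_zero] using this

theorem lip_down (hL : T.LipI N) (p : T.P) (β : T.Ch p) (k : ℕ) (x y : X) :
    |N (T.down p β) k x - N (T.down p β) k y - T.e p (x - y)| ≤ 3 * T.r p * ‖x - y‖ := by
  have h1 := hL (T.down p β) k x y
  rw [T.r_down] at h1
  have h2 := (T.e (T.down p β) - T.e p).le_opNorm (x - y)
  rw [sub_apply, Real.norm_eq_abs] at h2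
  have h3 := mul_le_mul_of_nonneg_right (T.e_down p β) (norm_nonneg (x - y))
  have h4 := abs_add_le (N (T.down p β) k x - N (T.down p β) k y - T.e (T.down p β) (x - y))
    (T.e (T.down p β) (x - y) - T.e p (x - y))
  rw [sub_add_sub_cancel] at h4
  linarith

theorem lip_cand (hL : T.LipI N) (p : T.P) (m : ℕ) (i : T.Ch p × ℕ) (x y : X) :
    |T.cand N p m x i - T.cand N p m y i - T.e p (x - y)| ≤ 4 * T.r p * ‖x - y‖ := by
  refine (jump_lip _ (tau_pos _) _ _ _ _ _).trans ?_
  have h1 := lip_down hL p i.1 (m + 1 + i.2) x y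
  have h2 := hL (T.side p i.1) (m + 1 + i.2) x y
  rw [T.r_side, T.e_side] at h2
  have h3 := mul_nonneg (T.r_nonneg p) (norm_nonneg (x - y))
  linarith

theorem lip_step (hN : T.Inv N) (hL : T.LipI N) : T.LipI (T.step N) := fun p m x y =>
  haveI := T.nonempty_ch p
  abs_Phi_sub_le (T.sig_pos p m) (cand_le hN p m x) (cand_le hN p m y)
    fun i => lip_cand hL p m i x y

variable (T) in
theorem exists_fix : ∃ N : T.P → ℕ → X → ℝ, T.Inv N ∧ T.LipI N ∧ T.step N = N := by
  let M : ℕ → T.P → ℕ → X → ℝ := fun n => T.step^[n] fun p _ x => T.h p x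
  have hM : ∀ n, M (n + 1) = T.step (M n) := fun n => Function.iterate_succ_apply' _ _ _
  have hI : ∀ n, T.Inv (M n) ∧ T.LipI (M n) := by
    intro n
    induction n with
    | zero =>
      refine ⟨fun p m x => ⟨le_rfl, le_add_of_nonneg_right (tau_pos m).le⟩, fun p m x y => ?_⟩
      have h3 := mul_nonneg (T.r_nonneg p) (norm_nonneg (x - y))
      exact (T.lip p x y).trans (by linarith)
    | succ n ih =>
      rw [hM]
      exact ⟨inv_step ih.1, lip_step ih.1 ih.2⟩
  have hd : ∀ n p m x, |M n p m x - M (n + 1) p m x| ≤ (5 / 8) ^ n * tau m := by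
    intro n
    induction n with
    | zero =>
      intro p m x
      have h1 := (hI 1).1 p m x
      change |T.h p x - M 1 p m x| ≤ _
      rw [abs_le]
      constructor <;> linarith [tau_pos m]
    | succ n ih =>
      intro p m x
      rw [hM (n + 1), hM n, pow_succ']
      rw [hM n] at ih
      exact step_contr (hI n).1 (inv_step (hI n).1) (by positivity) ih p m x
  have hd' : ∀ p m x n, dist (M n p m x) (M (n + 1) p m x) ≤ tau m * (5 / 8) ^ n :=
    fun p m x n => by
      rw [Real.dist_eq, mul_comm]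
      exact hd n p m x
  choose N hN using fun p m x => cauchySeq_tendsto_of_complete
    (cauchySeq_of_le_geometric (5 / 8) (tau m) (by norm_num) (hd' p m x))
  have hIN : T.Inv N := fun p m x =>
    ⟨ge_of_tendsto' (hN p m x) fun n => ((hI n).1 p m x).1,
      le_of_tendsto' (hN p m x) fun n => ((hI n).1 p m x).2⟩
  refine ⟨N, hIN, fun p m x y => ?_, ?_⟩
  · exact le_of_tendsto' (((hN p m x).sub (hN p m y)).sub_const _).abs
      fun n => (hI n).2 p m x y
  · funext p m x
    have h1 : ∀ n p m x, |M n p m x - N p m x| ≤ 8 / 3 * (5 / 8) ^ n * tau m := fun n p m x => by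
      have := dist_le_of_le_geometric_of_tendsto (5 / 8) (tau m) (by norm_num) (hd' p m x)
        (hN p m x) n
      rw [Real.dist_eq] at this
      exact this.trans (le_of_eq (by ring))
    have h2 : Tendsto (fun n => M (n + 1) p m x) atTop (𝓝 (T.step N p m x)) := by
      rw [tendsto_iff_dist_tendsto_zero]
      have h3 := (((tendsto_pow_atTop_nhds_zero_of_lt_one (r := (5 / 8 : ℝ)) (by norm_num)
        (by norm_num)).const_mul (8 / 3)).const_mul (5 / 8)).mul_const (tau m)
      simp only [mul_zero, zero_mul] at h3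
      refine squeeze_zero (fun _ => dist_nonneg) (fun n => ?_) h3
      rw [Real.dist_eq, hM]
      exact step_contr (hI n).1 hIN (by positivity) (h1 n) p m x
    exact tendsto_nhds_unique h2 ((hN p m x).comp (tendsto_add_atTop_nat 1))

theorem lip_gap (p : T.P) (β : T.Ch p) (x y : X) :
    T.h (T.down p β) y - T.h (T.side p β) y ≤
      T.h (T.down p β) x - T.h (T.side p β) x + 3 * T.r p * ‖y - x‖ := by
  have h1 := T.lip (T.down p β) y x
  have h2 := T.lip (T.side p β) y x
  rw [T.r_down] at h1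
  rw [T.r_side, T.e_side] at h2
  have h3 := (T.e (T.down p β) - T.e p).le_opNorm (y - x)
  rw [sub_apply, Real.norm_eq_abs] at h3
  have h4 := mul_le_mul_of_nonneg_right (T.e_down p β) (norm_nonneg (y - x))
  have h5 := mul_nonneg (T.r_nonneg p) (norm_nonneg (y - x))
  linarith [(abs_le.1 h1).2, (abs_le.1 h2).1, le_abs_self (T.e (T.down p β) (y - x) - T.e p (y - x))]

/-- Local finiteness: near each point only finitely many candidates are active. -/
theorem local_eq (hN : T.Inv N) (hL : T.LipI N) (hfix : T.step N = N) (p : T.P) (m : ℕ) (x : X) :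
    ∃ F : Finset (T.Ch p × ℕ), ∀ᶠ y in 𝓝 x,
      ∑ i ∈ F, bb ((T.cand N p m y i - N p m y) / T.sig p m i) = 1 := by
  have := T.nonempty_ch p
  have h0 := step_gt hN p m x
  rw [hfix] at h0
  set δ := (N p m x - T.h p x) / 4 with hδ
  have hδ0 : 0 < δ := by linarith
  have hR := T.records p x (δ / 4) (by linarith only [hδ0])
  have hn : {n : ℕ | δ < 2 * tau (m + 1 + n)}.Finite := by
    have ht := (tau_tendsto m).const_mul 2
    rw [mul_zero, ← Nat.cofinite_eq_atTop] at ht
    have := ht.eventually (ge_mem_nhds hδ0)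
    rw [eventually_cofinite] at this
    simpa using this
  refine ⟨(hR.prod hn).toFinset, ?_⟩
  have c1 : Continuous fun y => N p m y - T.h p y :=
    (lip_of_centre (hL p m)).continuous.sub (lip_of_centre (T.lip p)).continuous
  have e1 : ∀ᶠ y in 𝓝 x, δ < N p m y - T.h p y :=
    (c1.tendsto x).eventually (lt_mem_nhds (by linarith only [hδ, hδ0]))
  have c2 : Continuous fun y => 3 * T.r p * ‖y - x‖ := by fun_prop
  have e2 : ∀ᶠ y in 𝓝 x, 3 * T.r p * ‖y - x‖ < δ / 4 :=
    (c2.tendsto x).eventually (gt_mem_nhds (by simp; linarith only [hδ0]))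
  filter_upwards [e1, e2] with y y1 y2
  have hy : N p m y = Phi (T.sig p m) (T.cand N p m y) := by
    conv_lhs => rw [← hfix]
    rfl
  rw [hy]
  refine Phi_eq (ρ₁ := T.h p y + δ) (T.sig_pos p m) (cand_le hN p m y) _ (by linarith only [y1, hy]) ?_
  intro i hi
  by_contra hcon
  push Not at hcon
  apply hi
  rw [Finite.mem_toFinset]
  have h1 := cand_le' hN p m y i
  have h2 : δ < 2 * tau (m + 1 + i.2) := by linarith only [hcon, h1]
  refine ⟨?_, h2⟩
  have h3 := hN (T.down p i.1) (m + 1 + i.2) y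
  have h4 := hN (T.side p i.1) (m + 1 + i.2) y
  have h5 := T.h_down p i.1 y
  have h6 := tau_pos (m + 1 + i.2)
  simp only [cand, jump] at hcon
  have h7 : -1 < ps (T.last p i.1) ((N (T.down p i.1) (m + 1 + i.2) y -
      N (T.side p i.1) (m + 1 + i.2) y) / tau (m + 1 + i.2)) := by
    by_contra h
    have := mul_le_mul_of_nonneg_left (not_lt.1 h) h6.le
    linarith only [h3.2, hδ0, hcon, h5, this]
  rcases ps_small h7 with h8 | h8
  · exact Or.inl h8
  · right
    rw [lt_div_iff₀ h6] at h8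
    have := lip_gap p i.1 x y
    linarith only [h3.2, h4.1, y2, h2, h8, this]

theorem rough_fix (hN : T.Inv N) (hL : T.LipI N) (hfix : T.step N = N) (n : ℕ) :
    ∀ p m x, Rough (N p m) x (4 * T.r p * (11 / 16) ^ n) := by
  induction n with
  | zero =>
    intro p m x η hη
    refine ⟨T.e p, Eventually.of_forall fun z => (hL p m z.1 z.2).trans ?_⟩
    exact mul_le_mul_of_nonneg_right (by linarith) (norm_nonneg _)
  | succ n ih =>
    intro p m x
    obtain ⟨F, hF⟩ := local_eq hN hL hfix p m x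
    refine rough_implicit F (T.sig_pos p m) (u := fun i y => T.cand N p m y i) (fun i => ?_)
      (fun i => lip_of_centre (lip_cand hL p m i)) (lip_of_centre (hL p m)) hF
    have hp : ∀ q, 0 ≤ 4 * T.r q * (11 / 16) ^ n := fun q =>
      mul_nonneg (mul_nonneg (by norm_num) (T.r_nonneg q)) (by positivity)
    refine (rough_jump _ (tau_pos _) (hp _) (hp _) (ih _ _ x) (ih _ _ x)
      (lip_of_centre (hL _ _)) (lip_of_centre (hL _ _))).mono (le_of_eq ?_)
    rw [T.r_down, T.r_side]
    ring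

variable (T) in
/-- Every support function of the tree has a `C¹` approximation. -/
theorem exists_smooth (p : T.P) :
    ∃ f : X → ℝ, ContDiff ℝ 1 f ∧ Lip f ∧ ∀ x, T.h p x ≤ f x ∧ f x ≤ T.h p x + 1 := by
  obtain ⟨N, hN, hL, hfix⟩ := T.exists_fix
  refine ⟨N p 0, contDiff_of_rough fun x => rough_zero_of_geom (by norm_num) (by norm_num)
    fun n => rough_fix hN hL hfix n p 0 x, lip_of_centre (hL p 0), fun x => ?_⟩
  simpa only [tau, one_div, pow_zero] using hN p 0 x

end FTree

end Pool.Agent.MP_151be3_an.H28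

end

-- part MP_151be3_an.H28.Frag
section

/-! From a fragmented compact family of functionals to a fragmentation tree. -/

namespace Pool.Agent.MP_151be3_an.H28

open Set Filter Topology

universe u

variable {X : Type u} [NormedAddCommGroup X] [NormedSpace ℝ X]
  {T : Type u} [TopologicalSpace T]

/-- Every nonempty closed set has relatively open pieces that are small in the dual norm. -/
def Fragm (ev : T → StrongDual ℝ X) : Prop :=
  ∀ K : Set T, IsClosed K → K.Nonempty → ∀ ε : ℝ, 0 < ε →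
    ∃ U : Set T, IsOpen U ∧ ∃ c ∈ K ∩ U, ∀ t ∈ K ∩ U, ‖ev t - ev c‖ ≤ ε

theorem isClosed_ball {ev : T → StrongDual ℝ X} (hc : ∀ x, Continuous fun t => ev t x)
    (c : StrongDual ℝ X) {r : ℝ} (hr : 0 ≤ r) : IsClosed {t | ‖ev t - c‖ ≤ r} := by
  have : {t | ‖ev t - c‖ ≤ r} = ⋂ x, {t | |ev t x - c x| ≤ r * ‖x‖} := by
    ext t
    simp only [mem_ofPred_eq, mem_iInter]
    rw [ContinuousLinearMap.opNorm_le_iff hr]
    rfl
  rw [this]
  exact isClosed_iInter fun x => isClosed_le ((hc x).sub continuous_const).abs continuous_const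

/-- What is left of `C` after removing the pieces with index in `S`. -/
def rest {I : Type u} (W : I → Set T) (C : Set T) (S : Set I) : Set T := C \ ⋃ l ∈ S, W l

omit [TopologicalSpace T] in
theorem rest_anti {I : Type u} (W : I → Set T) (C : Set T) {S S' : Set I} (h : S ⊆ S') :
    rest W C S' ⊆ rest W C S :=
  sdiff_subset_sdiff_right (biUnion_subset_biUnion_left h)

theorem isClosed_rest {I : Type u} {W : I → Set T} (hW : ∀ l, IsOpen (W l)) {C : Set T}
    (hC : IsClosed C) (S : Set I) : IsClosed (rest W C S) :=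
  hC.sdiff (isOpen_biUnion fun l _ => hW l)

/-- A well-ordered fragmentation of every closed set at every scale. -/
theorem exists_frag {ev : T → StrongDual ℝ X} (hf : Fragm ev) [Nonempty T] {I : Type u}
    [LinearOrder I] [WellFoundedLT I] (hI : ∀ f : I → T, ¬ Function.Injective f)
    (C : Set T) (ε : ℝ) : ∃ (W : I → Set T) (c : I → T), (∀ l, IsOpen (W l)) ∧
      (IsClosed C → 0 < ε → (∀ β, (rest W C (Iio β)).Nonempty →
        c β ∈ rest W C (Iio β) ∩ W β ∧ ∀ t ∈ rest W C (Iio β) ∩ W β, ‖ev t - ev (c β)‖ ≤ ε) ∧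
        C ⊆ ⋃ l, W l) := by
  have h1 : ∀ K : Set T, ∃ U : Set T, ∃ c : T, IsOpen U ∧ (IsClosed K → K.Nonempty → 0 < ε →
      c ∈ K ∩ U ∧ ∀ t ∈ K ∩ U, ‖ev t - ev c‖ ≤ ε) := fun K => by
    by_cases h : IsClosed K ∧ K.Nonempty ∧ 0 < ε
    · obtain ⟨U, hU, c, hc1, hc2⟩ := hf K h.1 h.2.1 ε h.2.2
      exact ⟨U, c, hU, fun _ _ _ => ⟨hc1, hc2⟩⟩
    · exact ⟨∅, Classical.arbitrary T, isOpen_empty, fun a b c => absurd ⟨a, b, c⟩ h⟩
  choose U c hU hc using h1
  let W : I → Set T := (wellFounded_lt (α := I)).fix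
    fun β rec => U (C \ ⋃ l, ⋃ h : l < β, rec l h)
  have hW : ∀ β, W β = U (rest W C (Iio β)) := fun β => WellFounded.fix_eq _ _ β
  have hO : ∀ l, IsOpen (W l) := fun l => by
    rw [hW]
    exact hU _
  refine ⟨W, fun β => c (rest W C (Iio β)), hO, fun hC hε => ?_⟩
  have h2 : ∀ β, (rest W C (Iio β)).Nonempty →
      c (rest W C (Iio β)) ∈ rest W C (Iio β) ∩ W β ∧
        ∀ t ∈ rest W C (Iio β) ∩ W β, ‖ev t - ev (c (rest W C (Iio β)))‖ ≤ ε := fun β hβ => by
    rw [hW β]
    exact hc _ (isClosed_rest hO hC _) hβ hε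
  refine ⟨h2, fun t ht => ?_⟩
  by_contra hcon
  have h3 : ∀ β, (rest W C (Iio β)).Nonempty := fun β =>
    ⟨t, ht, fun h => hcon (biUnion_subset_biUnion_left (subset_univ _) h |> fun h' => by
      simpa only [mem_iUnion, mem_univ, iUnion_true] using h')⟩
  have h4 : ∀ a b, a < b → c (rest W C (Iio a)) ≠ c (rest W C (Iio b)) := fun a b hab he => by
    have ha := (h2 a (h3 a)).1.2
    have hb := (h2 b (h3 b)).1.1.2
    rw [he] at ha
    exact hb (mem_biUnion hab ha)
  refine hI (fun β => c (rest W C (Iio β))) fun a b hab => ?_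
  rcases lt_trichotomy a b with h | h | h
  · exact absurd hab (h4 a b h)
  · exact h
  · exact absurd hab.symm (h4 b a h)

/-- The support function of a set of functionals. -/
noncomputable def supp (ev : T → StrongDual ℝ X) (K : Set T) (x : X) : ℝ :=
  sSup ((fun t => ev t x) '' K)

section Compact

variable [CompactSpace T] {ev : T → StrongDual ℝ X}

theorem le_supp (hc : ∀ x, Continuous fun t => ev t x) {K : Set T} {t : T} (ht : t ∈ K) (x : X) :
    ev t x ≤ supp ev K x :=
  le_csSup ((isCompact_range (hc x)).bddAbove.mono (image_subset_range _ _)) ⟨t, ht, rfl⟩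

theorem exists_supp (hc : ∀ x, Continuous fun t => ev t x) {K : Set T} (hK : IsClosed K)
    (hne : K.Nonempty) (x : X) : ∃ t ∈ K, supp ev K x = ev t x :=
  hK.isCompact.exists_sSup_image_eq hne (hc x).continuousOn

theorem supp_mono (hc : ∀ x, Continuous fun t => ev t x) {K L : Set T} (hK : IsClosed K)
    (hne : K.Nonempty) (h : K ⊆ L) (x : X) : supp ev K x ≤ supp ev L x := by
  obtain ⟨t, ht, he⟩ := exists_supp hc hK hne x
  rw [he]
  exact le_supp hc (h ht) x

theorem supp_lip (hc : ∀ x, Continuous fun t => ev t x) {K : Set T} (hK : IsClosed K)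
    (hne : K.Nonempty) {c : StrongDual ℝ X} {r : ℝ} (h : ∀ t ∈ K, ‖ev t - c‖ ≤ r) (x y : X) :
    |supp ev K x - supp ev K y - c (x - y)| ≤ r * ‖x - y‖ := by
  have key : ∀ t ∈ K, |ev t x - ev t y - c (x - y)| ≤ r * ‖x - y‖ := fun t ht => by
    have h1 := (ev t - c).le_opNorm (x - y)
    rw [sub_apply, Real.norm_eq_abs, map_sub (ev t)] at h1
    exact h1.trans (mul_le_mul_of_nonneg_right (h t ht) (norm_nonneg _))
  obtain ⟨s, hs, es⟩ := exists_supp hc hK hne x
  obtain ⟨t, ht, et⟩ := exists_supp hc hK hne y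
  have h1 := le_supp hc hs y
  have h2 := le_supp hc ht x
  rw [abs_le]
  constructor
  · linarith [(abs_le.1 (key t ht)).1]
  · linarith [(abs_le.1 (key s hs)).2]

end Compact

/-- The nodes of the fragmentation tree. -/
structure Node (ev : T → StrongDual ℝ X) {I : Type u} [LinearOrder I]
    (W : Set T → ℝ → I → Set T) where
  C : Set T
  r : ℝ
  c : StrongDual ℝ X
  S : Set I
  hC : IsClosed C
  hr : 0 < r
  hc : ∀ t ∈ C, ‖ev t - c‖ ≤ r
  hS : IsLowerSet S
  hne : (rest (W C (r / 2)) C S).Nonempty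

theorem finite_of_gap {I : Type*} [LinearOrder I] {R : Set I} {g : I → ℝ} {c a b : ℝ}
    (hc : 0 < c) (hb : ∀ i ∈ R, a ≤ g i ∧ g i ≤ b)
    (hg : ∀ i ∈ R, ∀ j ∈ R, i < j → g j + c ≤ g i) : R.Finite := by
  have hlt : ∀ i ∈ R, ∀ j ∈ R, i < j → ⌊g j / c⌋ < ⌊g i / c⌋ := fun i hi j hj hij => by
    have h1 : g j / c + 1 ≤ g i / c := by
      rw [div_add_one hc.ne']
      exact div_le_div_of_nonneg_right (hg i hi j hj hij) hc.le
    have h2 := Int.floor_mono h1
    rw [Int.floor_add_one] at h2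
    omega
  refine Finite.of_finite_image (f := fun i => ⌊g i / c⌋)
    ((finite_Icc ⌊a / c⌋ ⌊b / c⌋).subset ?_) ?_
  · rintro _ ⟨i, hi, rfl⟩
    exact ⟨Int.floor_mono (div_le_div_of_nonneg_right (hb i hi).1 hc.le),
      Int.floor_mono (div_le_div_of_nonneg_right (hb i hi).2 hc.le)⟩
  · intro i hi j hj hij
    rcases lt_trichotomy i j with h | h | h
    · exact absurd hij (hlt i hi j hj h).ne'
    · exact h
    · exact absurd hij (hlt j hj i hi h).ne

theorem exists_cover_le {I : Type*} [LinearOrder I] {W : I → Set T} (hW : ∀ l, IsOpen (W l))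
    {M : Set T} (hM : IsCompact M) (hne : M.Nonempty) {S : Set I} (h : M ⊆ ⋃ l ∈ S, W l) :
    ∃ β ∈ S, M ⊆ ⋃ l ∈ Iic β, W l := by
  obtain ⟨F, hFS, hF, hM'⟩ := hM.elim_finite_subcover_image (fun l _ => hW l) h
  have hFne : F.Nonempty := by
    obtain ⟨t, ht⟩ := hne
    obtain ⟨l, hl, _⟩ := mem_iUnion₂.1 (hM' ht)
    exact ⟨l, hl⟩
  obtain ⟨β, hβ, hmax⟩ := F.exists_max_image id hF hFne
  exact ⟨β, hFS hβ, hM'.trans (biUnion_subset_biUnion_left fun l hl => hmax l hl)⟩

/-- The support function of a fragmented compact family has a `C¹` approximation. -/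
theorem smooth_of_fragm [CompactSpace T] [Nonempty T] {ev : T → StrongDual ℝ X}
    (hc : ∀ x, Continuous fun t => ev t x) (hb : ∀ t, ‖ev t‖ ≤ 1) (hf : Fragm ev) :
    ∃ f : X → ℝ, ContDiff ℝ 1 f ∧ Lip f ∧
      ∀ x, supp ev univ x ≤ f x ∧ f x ≤ supp ev univ x + 1 := by
  classical
  obtain ⟨I, _, _, hI⟩ : ∃ (I : Type u) (_ : LinearOrder I) (_ : WellFoundedLT I),
      ∀ f : I → T, ¬ Function.Injective f := by
    obtain ⟨h1, h2⟩ := exists_wellFoundedLT (Set T)
    exact ⟨Set T, h1, h2, Function.cantor_injective⟩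
  choose W c hO hW using exists_frag hf hI
  let R : Node ev W → Set I → Set T := fun p S => rest (W p.C (p.r / 2)) p.C S
  have hRc : ∀ p S, IsClosed (R p S) := fun p S => isClosed_rest (hO _ _) p.hC S
  have hRs : ∀ p S, R p S ⊆ p.C := fun p S => sdiff_subset
  have hW1 : ∀ (p : Node ev W) β, (R p (Iio β)).Nonempty →
      c p.C (p.r / 2) β ∈ R p (Iio β) ∩ W p.C (p.r / 2) β ∧
        ∀ t ∈ R p (Iio β) ∩ W p.C (p.r / 2) β, ‖ev t - ev (c p.C (p.r / 2) β)‖ ≤ p.r / 2 :=
    fun p => (hW p.C (p.r / 2) p.hC (half_pos p.hr)).1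
  have hW2 : ∀ p : Node ev W, p.C ⊆ ⋃ l, W p.C (p.r / 2) l :=
    fun p => (hW p.C (p.r / 2) p.hC (half_pos p.hr)).2
  have hre : ∀ (V : I → Set T) (C : Set T), rest V C ∅ = C := fun V C => by simp only [rest, mem_empty_iff_false, iUnion_of_empty, iUnion_empty, sdiff_empty]
  let Ch : Node ev W → Type u := fun p => {β : I // β ∉ p.S ∧ (R p (Iio β)).Nonempty}
  let D : ∀ p : Node ev W, I → Set T := fun p β =>
    R p (Iio β) ∩ {t | ‖ev t - ev (c p.C (p.r / 2) β)‖ ≤ p.r / 2}
  have hDc : ∀ p β, IsClosed (D p β) := fun p β =>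
    (hRc p _).inter (isClosed_ball hc _ (half_pos p.hr).le)
  have hDn : ∀ p (β : Ch p), (D p β.1).Nonempty := fun p β =>
    ⟨_, (hW1 p β.1 β.2.2).1.1, by simpa only [mem_ofPred_eq, sub_self, norm_zero] using (half_pos p.hr).le⟩
  let down : ∀ p : Node ev W, Ch p → Node ev W := fun p β =>
    ⟨D p β.1, p.r / 2, ev (c p.C (p.r / 2) β.1), ∅, hDc p _, half_pos p.hr, fun t ht => ht.2,
      isLowerSet_empty, by rw [hre]; exact hDn p β⟩
  let side : ∀ p : Node ev W, Ch p → Node ev W := fun p β =>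
    if h : (R p (Iic β.1)).Nonempty then
      ⟨p.C, p.r, p.c, Iic β.1, p.hC, p.hr, p.hc, isLowerSet_Iic _, h⟩ else p
  let hh : Node ev W → X → ℝ := fun p => supp ev (R p p.S)
  have hdown : ∀ p β, hh (down p β) = supp ev (D p β.1) := fun p β => by
    change supp ev (rest _ _ ∅) = _
    rw [hre]
  have hside : ∀ p (β : Ch p), (R p (Iic β.1)).Nonempty →
      hh (side p β) = supp ev (R p (Iic β.1)) := fun p β h => by
    simp only [side, dif_pos h]
    rfl
  have hsub : ∀ (p : Node ev W) β, β ∉ p.S → R p (Iio β) ⊆ R p p.S := fun p β hβ =>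
    rest_anti _ _ fun l hl => by
      by_contra h
      exact hβ (p.hS (not_lt.1 h) hl)
  let Tr : FTree.{u, u, u} X :=
    { P := Node ev W
      Ch := Ch
      r := fun p => p.r
      e := fun p => p.c
      h := hh
      down := down
      side := side
      last := fun p β => ¬ (R p (Iic β.1)).Nonempty
      r_nonneg := fun p => p.hr.le
      lip := fun p => supp_lip hc (hRc p _) p.hne fun t ht => p.hc t (hRs p _ ht)
      r_down := fun p β => rfl
      e_down := fun p β => p.hc _ (hRs p _ (hW1 p β.1 β.2.2).1.1)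
      h_down := fun p β x => by
        rw [hdown]
        exact supp_mono hc (hDc p _) (hDn p β) (inter_subset_left.trans (hsub p _ β.2.1)) x
      r_side := fun p β => by
        simp only [side]
        split_ifs <;> rfl
      e_side := fun p β => by
        simp only [side]
        split_ifs <;> rfl
      first := fun p x => by
        let M : Set T := R p p.S ∩ {t | ev t x = hh p x}
        have hM : IsCompact M :=
          ((hRc p _).inter (isClosed_eq (hc x) continuous_const)).isCompact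
        have hMn : M.Nonempty := by
          obtain ⟨t, ht, he⟩ := exists_supp hc (hRc p _) p.hne x
          exact ⟨t, ht, he.symm⟩
        have h1 : ∃ β, M ⊆ ⋃ l ∈ Iic β, W p.C (p.r / 2) l := by
          obtain ⟨β, _, hβ⟩ := exists_cover_le (S := univ) (hO p.C (p.r / 2)) hM hMn
            (fun t ht => by simpa only [mem_univ, iUnion_true, mem_iUnion] using hW2 p (hRs p _ ht.1))
          exact ⟨β, hβ⟩
        obtain ⟨β, hβ, hmin⟩ := (wellFounded_lt (α := I)).has_min
          {β | M ⊆ ⋃ l ∈ Iic β, W p.C (p.r / 2) l} h1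
        have h2 : β ∉ p.S := fun h => by
          obtain ⟨t, ht⟩ := hMn
          exact ht.1.2 (biUnion_subset_biUnion_left (fun l hl => p.hS hl h) (hβ ht))
        have h3 : ∃ t ∈ M, t ∉ ⋃ l ∈ Iio β, W p.C (p.r / 2) l := by
          by_contra h
          push Not at h
          obtain ⟨γ, hγ, hγ'⟩ := exists_cover_le (hO p.C (p.r / 2)) hM hMn h
          exact hmin γ hγ' hγ
        obtain ⟨t, ht, ht'⟩ := h3
        have h4 : t ∈ R p (Iio β) := ⟨hRs p _ ht.1, ht'⟩
        have h5 : t ∈ W p.C (p.r / 2) β := by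
          obtain ⟨l, hl, hl'⟩ := mem_iUnion₂.1 (hβ ht)
          rcases eq_or_lt_of_le (mem_Iic.1 hl) with h | h
          · exact h ▸ hl'
          · exact absurd (mem_biUnion (mem_Iio.2 h) hl') ht'
        refine ⟨⟨β, h2, t, h4⟩, ?_, ?_⟩
        · rw [hdown, ← ht.2]
          exact le_supp hc (K := D p β) ⟨h4, (hW1 p β ⟨t, h4⟩).2 t ⟨h4, h5⟩⟩ x
        · by_cases h : (R p (Iic β)).Nonempty
          · right
            rw [hside p ⟨β, h2, t, h4⟩ h]
            obtain ⟨s, hs, es⟩ := exists_supp hc (hRc p _) h x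
            have hs' : s ∈ R p p.S := hsub p β h2 (rest_anti _ _ Iio_subset_Iic_self hs)
            rw [es]
            exact lt_of_le_of_ne (le_supp hc hs' x) fun he => hs.2 (hβ ⟨hs', he⟩)
          · exact Or.inl h
      records := fun p x δ hδ => by
        refine finite_of_gap (g := fun β => hh (down p β) x) (a := -‖x‖) (b := ‖x‖) hδ
          (fun β _ => ?_) (fun β hβ γ _ hlt => ?_)
        · rw [hdown]
          obtain ⟨s, _, es⟩ := exists_supp hc (hDc p _) (hDn p β) x
          have h1 := (ev s).le_opNorm x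
          have h2 := mul_le_mul_of_nonneg_right (hb s) (norm_nonneg x)
          rw [es, ← abs_le, ← Real.norm_eq_abs]
          linarith
        · have h1 : R p (Iio γ.1) ⊆ R p (Iic β.1) :=
            rest_anti _ _ fun l hl => lt_of_le_of_lt hl hlt
          have h2 : (R p (Iic β.1)).Nonempty := γ.2.2.mono h1
          have h3 := hβ.resolve_left (not_not.2 h2)
          rw [hside p β h2] at h3
          have h4 := supp_mono hc (hDc p _) (hDn p γ) (inter_subset_left.trans h1) x
          rw [← hdown] at h4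
          linarith only [h3, h4] }
  let root : Node ev W := ⟨univ, 1, 0, ∅, isClosed_univ, one_pos, fun t _ => by simpa only [sub_zero] using hb t,
    isLowerSet_empty, by rw [hre]; exact univ_nonempty⟩
  obtain ⟨f, h1, h2, h3⟩ := Tr.exists_smooth root
  refine ⟨f, h1, h2, fun x => ?_⟩
  have : Tr.h root = supp ev univ := by
    change supp ev (rest _ _ ∅) = _
    rw [hre]
  rw [← this]
  exact h3 x

end Pool.Agent.MP_151be3_an.H28

end
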