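import Pool.Agent.MP_151be3_an.Mg.H28_Frag
import Pool.Agent.MP_151be3_an.H28.BumpDefs

attribute [-instance] IsScalarTower.complexToReal Valued.toUniformSpace Module.complexToReal
  LieRinehartAlgebra.toIsScalarTower RKHS.instFunLike NonUnitalNonAssocSemiring.toAddCommMonoid
  NonUnitalNonAssocRing.toAddCommGroup TotallySeparatedSpace.t2Space
  NonUnitalNormedRing.toNonUnitalSeminormedRing Ring.toAddCommGroup AddQuantale.instAddLeftMono
  T5Space.toT1Space CoalgHomClass.toSemilinearMapClass RightPreLieAlgebra.toModule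
  LeftPreLieAlgebra.toModule NumberField.to_charZero
  NonUnitalNormedCommRing.toNonUnitalSeminormedCommRing
  NonUnitalAlgSemiHomClass.toDistribMulActionSemiHomClass littleWedderburn AddGroupWithOne.toAddGroup
  LinearOrderedCommMonoidWithZero.toPosMulStrictMono GrpTypeEquivalenceGrp.grpGroup
  RingHomClass.toLinearMapClassNNRat SemilinearIsometryClass.toSemilinearMapClass

/-! Bumps give small weak-star slices; fragmentability is a three-space property. -/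

namespace Pool.Agent.MP_151be3_an.H28

open Set Filter Topology

universe u

/-- Ekeland's variational principle (weak form); proof shared with the norm file. -/
theorem ekeland_weak {E : Type*} [MetricSpace E] {W : Set E} (hW : IsComplete W) (hne : W.Nonempty)
    {f : E → ℝ} (hf : ContinuousOn f W) {m : ℝ} (hm : ∀ u ∈ W, m ≤ f u) {ε : ℝ} (hε : 0 < ε) :
    ∃ u ∈ W, ∀ v ∈ W, f u ≤ f v + ε * dist u v := by
  classical
  -- the sets `S u`
  let S : E → Set E := fun u => {v | v ∈ W ∧ f v + ε * dist u v ≤ f u}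
  have hS : ∀ u ∈ W, u ∈ S u := fun u hu => ⟨hu, by simp⟩
  have htrans : ∀ u v w, v ∈ S u → w ∈ S v → w ∈ S u := by
    intro u v w hv hw
    refine ⟨hw.1, ?_⟩
    have h1 := hv.2
    have h2 := hw.2
    have h3 := dist_triangle u v w
    nlinarith only [hε, h1, h2, h3]
  have hstep : ∀ (n : ℕ) (u : W), ∃ v : W, (v : E) ∈ S u ∧
      ∀ w ∈ S u, f v ≤ f w + (1 / 2) ^ n := by
    intro n u
    have hbd : BddBelow (f '' S u) := ⟨m, by rintro _ ⟨w, hw, rfl⟩; exact hm w hw.1⟩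
    have hne' : (f '' S u).Nonempty := ⟨_, u, hS u u.2, rfl⟩
    have hpos : (0 : ℝ) < (1 / 2) ^ n := by positivity
    obtain ⟨_, ⟨v, hv, rfl⟩, hlt⟩ :=
      exists_lt_of_csInf_lt hne' (lt_add_of_pos_right (sInf (f '' S u)) hpos)
    refine ⟨⟨v, hv.1⟩, hv, fun w hw => ?_⟩
    have := csInf_le hbd ⟨w, hw, rfl⟩
    simp only at hlt ⊢
    linarith only [hlt, this]
  choose g hg1 hg2 using hstep
  obtain ⟨u0, hu0⟩ := hne
  let u : ℕ → W := fun n => Nat.rec ⟨u0, hu0⟩ (fun k x => g k x) n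
  have hu : ∀ n, u (n + 1) = g n (u n) := fun n => rfl
  have hmono : ∀ n k : ℕ, n ≤ k → (u k).1 ∈ S (u n).1 := by
    intro n k hk
    induction k, hk using Nat.le_induction with
    | base => exact hS _ (u n).2
    | succ k _ ih => exact htrans _ _ _ ih (by rw [hu k]; exact hg1 k (u k))
  -- points of `S (u (n+1))` are close to `u (n+1)`
  have hclose : ∀ n, ∀ w ∈ S (u (n + 1)), ε * dist (u (n + 1) : E) w ≤ (1 / 2) ^ n := by
    intro n w hw
    have h1 := hg2 n (u n) w (htrans _ _ _ (hmono n (n + 1) (Nat.le_succ n)) hw)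
    have h2 := hw.2
    rw [← hu n] at h1
    linarith
  have hlim : Tendsto (fun n : ℕ => (1 / 2 : ℝ) ^ n / ε) atTop (𝓝 0) := by
    have := (tendsto_pow_atTop_nhds_zero_of_lt_one (r := (1 / 2 : ℝ)) (by norm_num)
      (by norm_num)).div_const ε
    simpa using this
  have hcau : CauchySeq (fun n => (u (n + 1) : E)) := by
    refine cauchySeq_of_le_tendsto_0' (fun n => (1 / 2 : ℝ) ^ n / ε) (fun n k hk => ?_) hlim
    rw [le_div_iff₀ hε, mul_comm]
    exact hclose n _ (hmono _ _ (Nat.succ_le_succ hk))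
  obtain ⟨z, hzW, hz⟩ := cauchySeq_tendsto_of_isComplete hW (fun n => (u (n + 1)).2) hcau
  have hzf : Tendsto (fun n => f (u (n + 1))) atTop (𝓝 (f z)) :=
    (hf z hzW).tendsto.comp
      (tendsto_nhdsWithin_iff.2 ⟨hz, Eventually.of_forall fun n => (u (n + 1)).2⟩)
  have hzS : ∀ n : ℕ, z ∈ S (u n).1 := by
    intro n
    refine ⟨hzW, ?_⟩
    have ht : Tendsto (fun k : ℕ => f (u (k + 1)).1 + ε * dist (u n).1 (u (k + 1)).1) atTop
        (𝓝 (f z + ε * dist (u n).1 z)) :=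
      hzf.add ((tendsto_const_nhds.dist hz).const_mul ε)
    refine le_of_tendsto ht ?_
    filter_upwards [eventually_ge_atTop n] with k hk
    exact (hmono n (k + 1) (by omega)).2
  refine ⟨z, hzW, fun v hv => ?_⟩
  by_contra hcon
  push Not at hcon
  have hvS : v ∈ S z := ⟨hv, hcon.le⟩
  have hvz : Tendsto (fun n => (u (n + 1) : E)) atTop (𝓝 v) := by
    rw [tendsto_iff_dist_tendsto_zero]
    refine squeeze_zero (fun _ => dist_nonneg) (fun n => ?_) hlim
    rw [le_div_iff₀ hε, mul_comm]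
    exact hclose n _ (htrans _ _ _ (hzS (n + 1)) hvS)
  have : v = z := tendsto_nhds_unique hvz hz
  subst this
  simp at hcon

/-- Bounded sets of functionals have weak-star slices of small diameter. -/
def Dent (V : Type*) [NormedAddCommGroup V] [NormedSpace ℝ V] : Prop :=
  ∀ C : Set (StrongDual ℝ V), C.Nonempty → ∀ M : ℝ, (∀ ξ ∈ C, ‖ξ‖ ≤ M) → ∀ ε : ℝ, 0 < ε →
    ∃ (u : V) (a : ℝ), (∃ ξ ∈ C, a < ξ u) ∧
      ∀ ξ ∈ C, ∀ ζ ∈ C, a < ξ u → a < ζ u → ‖ξ - ζ‖ ≤ ε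

theorem dent_of_bump {V : Type*} [NormedAddCommGroup V] [NormedSpace ℝ V] [CompleteSpace V]
    {b : V → ℝ} (hb : Differentiable ℝ b) (hne : ∃ v, b v ≠ 0)
    (hbd : Bornology.IsBounded {v | b v ≠ 0}) : Dent V := by
  intro C hC M hM ε₀ hε₀
  set ε := ε₀ / 6 with hε6
  have hε : 0 < ε := by linarith
  obtain ⟨x₁, hx₁⟩ := hne
  obtain ⟨R, hR⟩ := hbd.exists_norm_le
  have hR0 : 0 ≤ R := (norm_nonneg _).trans (hR x₁ hx₁)
  have hM0 : 0 ≤ M := (norm_nonneg _).trans (hM _ hC.some_mem)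
  let h : V → ℝ := fun x => sSup ((fun ξ : StrongDual ℝ V => ξ x) '' C)
  have hval : ∀ ξ ∈ C, ∀ x, |ξ x| ≤ M * ‖x‖ := fun ξ hξ x =>
    (ξ.le_opNorm x).trans (mul_le_mul_of_nonneg_right (hM ξ hξ) (norm_nonneg x))
  have hle : ∀ ξ ∈ C, ∀ x, ξ x ≤ h x := fun ξ hξ x =>
    le_csSup ⟨M * ‖x‖, by
      rintro _ ⟨ζ, hζ, rfl⟩
      exact (abs_le.1 (hval ζ hζ x)).2⟩ ⟨ξ, hξ, rfl⟩
  have hlip : ∀ x y, h x ≤ h y + M * ‖x - y‖ := fun x y =>
    csSup_le (hC.image _) (by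
      rintro _ ⟨ζ, hζ, rfl⟩
      have h1 := (abs_le.1 (hval ζ hζ (x - y))).2
      rw [map_sub] at h1
      linarith only [hle ζ hζ y, h1])
  have hcont : Continuous h := Lip.continuous ⟨M, fun x y => by
    have h1 := hlip x y
    have h2 := hlip y x
    rw [norm_sub_rev] at h2
    rw [abs_le]
    constructor <;> linarith only [h2, h1]⟩
  have hα : 0 < Real.arctan (b x₁ ^ 2) := Real.arctan_pos.2 (by positivity)
  set K := ((M + ε) * (2 * R + 1) + 1) / Real.arctan (b x₁ ^ 2) with hK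
  have hK0 : 0 < K := by positivity
  have hK1 : K * Real.arctan (b x₁ ^ 2) = (M + ε) * (2 * R + 1) + 1 := by
    rw [hK]
    field_simp
  let φ : V → ℝ := fun x => -(K * Real.arctan (b x ^ 2))
  have hφ : Differentiable ℝ φ :=
    ((Real.differentiable_arctan.comp (hb.pow 2)).const_mul K).neg
  obtain ⟨u, hu, hmin⟩ := ekeland_weak (W := Metric.closedBall (0 : V) (R + 1))
    Metric.isClosed_closedBall.isComplete ⟨0, by simp only [Metric.mem_closedBall, dist_self]; linarith only [hR0]⟩ (f := fun x => φ x - h x)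
    (hφ.continuous.sub hcont).continuousOn (m := -(K * 2) - (h 0 + M * (R + 1)))
    (fun v hv => by
      have h1 := hlip v 0
      rw [sub_zero] at h1
      rw [mem_closedBall_zero_iff] at hv
      have h2 := mul_le_mul_of_nonneg_left hv hM0
      have h3 := Real.arctan_lt_pi_div_two (b v ^ 2)
      have h4 := Real.pi_lt_four
      have h5 : K * Real.arctan (b v ^ 2) ≤ K * 2 :=
        mul_le_mul_of_nonneg_left (by linarith only [h3, h4]) hK0.le
      simp only [φ]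
      linarith only [h1, h2, h5]) hε
  rw [mem_closedBall_zero_iff] at hu
  have huR : ‖u‖ ≤ R := by
    refine hR u fun h0 => ?_
    have h1 := hmin x₁ (by
      rw [mem_closedBall_zero_iff]
      linarith only [hR x₁ hx₁])
    have h2 := hlip u x₁
    have h3 : ‖u - x₁‖ ≤ 2 * R + 1 := by
      linarith only [norm_sub_le u x₁, hR x₁ hx₁, hu]
    rw [dist_eq_norm] at h1
    simp only [φ, h0] at h1
    have h4 := mul_le_mul_of_nonneg_left h3 (add_pos_of_nonneg_of_pos hM0 hε).le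
    simp only [ne_eq, OfNat.ofNat_ne_zero, not_false_eq_true, zero_pow, Real.arctan_zero,
      mul_zero, neg_zero] at h1
    linarith only [hK1, h2, h4, h1]
  have hD := (hφ u).hasFDerivAt
  set D := fderiv ℝ φ u
  have h1 := (hasFDerivAt_iff_isLittleO_nhds_zero.1 hD).def hε
  obtain ⟨δ₀, hδ₀, h2⟩ := Metric.eventually_nhds_iff.1 h1
  set δ := min (δ₀ / 2) 1 with hδ
  have hδ0 : 0 < δ := lt_min (by linarith only [hδ₀]) one_pos
  have h3 : ∀ v : V, ‖v‖ = δ → h (u + v) - h u ≤ D v + 2 * ε * δ := fun v hv => by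
    have h4 := h2 (y := v) (by
      rw [dist_zero_right, hv]
      linarith only [min_le_left (δ₀ / 2) 1, hδ0])
    have h5 := hmin (u + v) (by
      rw [mem_closedBall_zero_iff]
      linarith only [norm_add_le u v, min_le_right (δ₀ / 2) 1, huR, hv])
    rw [dist_self_add_right, hv] at h5
    rw [Real.norm_eq_abs, hv] at h4
    linarith only [(abs_le.1 h4).2, h5]
  have h4 : ∀ ξ ∈ C, h u - ε * δ < ξ u → ‖ξ - D‖ ≤ 3 * ε := fun ξ hξ hs => by
    have h5 : ∀ v : V, ‖v‖ = δ → (ξ - D) v ≤ 3 * ε * δ := fun v hv => by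
      have h6 := hle ξ hξ (u + v)
      rw [map_add] at h6
      rw [sub_apply]
      linarith only [h3 v hv, hs, h6]
    refine ContinuousLinearMap.opNorm_le_bound' _ (by positivity) fun w hw => ?_
    have hw0 : 0 < ‖w‖ := lt_of_le_of_ne (norm_nonneg w) (Ne.symm hw)
    have hn : ‖(δ / ‖w‖) • w‖ = δ := by
      rw [norm_smul, Real.norm_of_nonneg (by positivity)]
      field_simp
    have h6 := h5 _ hn
    have h7 := h5 (-((δ / ‖w‖) • w)) (by rw [norm_neg, hn])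
    rw [map_neg] at h7
    have h8 : |(ξ - D) ((δ / ‖w‖) • w)| ≤ 3 * ε * δ := abs_le.2 ⟨by linarith only [h7], h6⟩
    rw [map_smul, smul_eq_mul, abs_mul, abs_of_pos (by positivity), div_mul_eq_mul_div,
      div_le_iff₀ hw0] at h8
    rw [Real.norm_eq_abs]
    refine le_of_mul_le_mul_left ?_ hδ0
    linarith only [h8]
  refine ⟨u, h u - ε * δ, ?_, fun ξ hξ ζ hζ s1 s2 => ?_⟩
  · obtain ⟨_, ⟨ξ, hξ, rfl⟩, hlt⟩ := exists_lt_of_lt_csSup (hC.image fun ξ : StrongDual ℝ V => ξ u)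
      (sub_lt_self (h u) (mul_pos hε hδ0))
    exact ⟨ξ, hξ, hlt⟩
  · have h5 := norm_sub_le_norm_sub_add_norm_sub ξ D ζ
    rw [norm_sub_rev D] at h5
    linarith only [h4 ξ hξ s1, h4 ζ hζ s2, hε6, h5]

theorem exists_ball_space (V : Type u) [NormedAddCommGroup V] [NormedSpace ℝ V] (R : ℝ) :
    ∃ (S : Type u) (_ : TopologicalSpace S) (_ : CompactSpace S) (_ : T2Space S)
      (ev : S → StrongDual ℝ V), (∀ x, Continuous fun s => ev s x) ∧ (∀ s, ‖ev s‖ ≤ R) ∧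
        ∀ ξ : StrongDual ℝ V, ‖ξ‖ ≤ R → ∃ s, ev s = ξ := by
  let B : Set (WeakDual ℝ V) := WeakDual.toStrongDual ⁻¹' Metric.closedBall 0 R
  refine ⟨B, inferInstance, isCompact_iff_compactSpace.1 (WeakDual.isCompact_closedBall 0 R),
    inferInstance, fun s => WeakDual.toStrongDual s.1, fun x => ?_, fun s => ?_, fun ξ hξ => ?_⟩
  · exact (WeakDual.eval_continuous x).comp continuous_subtype_val
  · exact mem_closedBall_zero_iff.1 s.2
  · exact ⟨⟨StrongDual.toWeakDual ξ, mem_closedBall_zero_iff.2 hξ⟩, rfl⟩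

theorem exists_minimal_closed {α β : Type*} [TopologicalSpace α] [CompactSpace α]
    [TopologicalSpace β] [T1Space β] {π : α → β} (hπ : Continuous π) {E : Set α}
    (hE : IsClosed E) : ∃ E₀ ⊆ E, IsClosed E₀ ∧ π '' E ⊆ π '' E₀ ∧
      ∀ E₁ ⊆ E₀, IsClosed E₁ → π '' E ⊆ π '' E₁ → E₀ ⊆ E₁ := by
  obtain ⟨E₀, h1, h2⟩ := zorn_superset_nonempty {A : Set α | IsClosed A ∧ π '' E ⊆ π '' A}
    (fun c hc hch hne => by
      refine ⟨⋂₀ c, ⟨isClosed_sInter fun A hA => (hc hA).1, fun y hy => ?_⟩,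
        fun A hA => sInter_subset_of_mem hA⟩
      have := hne.to_subtype
      obtain ⟨t, ht⟩ := IsCompact.nonempty_iInter_of_directed_nonempty_isCompact_isClosed
        (fun A : c => A.1 ∩ π ⁻¹' {y})
        (fun A B => by
          rcases hch.total A.2 B.2 with h | h
          · exact ⟨A, le_rfl, inter_subset_inter_left _ h⟩
          · exact ⟨B, inter_subset_inter_left _ h, le_rfl⟩)
        (fun A => by
          obtain ⟨t, ht, he⟩ := (hc A.2).2 hy
          exact ⟨t, ht, he⟩)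
        (fun A => ((hc A.2).1.inter (isClosed_singleton.preimage hπ)).isCompact)
        (fun A => (hc A.2).1.inter (isClosed_singleton.preimage hπ))
      rw [mem_iInter] at ht
      exact ⟨t, fun A hA => (ht ⟨A, hA⟩).1, (ht ⟨_, hne.some_mem⟩).2⟩) E ⟨hE, subset_rfl⟩
  exact ⟨E₀, h1, h2.prop.1, h2.prop.2, fun E₁ h hc hs => h2.le_of_le ⟨hc, hs⟩ h⟩

section Three

variable {X : Type u} [NormedAddCommGroup X] [NormedSpace ℝ X]

theorem split_dual (Y : Submodule ℝ X) [IsClosed (Y : Set X)] (ξ : StrongDual ℝ X) {ε M : ℝ}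
    (h : ‖ξ.comp Y.subtypeL‖ ≤ ε) (hM : ‖ξ‖ ≤ M) :
    ∃ ζ : StrongDual ℝ (X ⧸ Y), ‖ζ‖ ≤ M + ε ∧ ‖ξ - ζ.comp Y.mkQL‖ ≤ ε := by
  obtain ⟨g, hg1, hg2⟩ := exists_extension_norm_eq Y (ξ.comp Y.subtypeL)
  have hker : Y ≤ (ξ - g).ker := fun y hy => by
    have := hg1 ⟨y, hy⟩
    simp only [ContinuousLinearMap.comp_apply, Submodule.subtypeL_apply] at this
    simp [this]
  have hn : ‖ξ - g‖ ≤ M + ε := by linarith [norm_sub_le ξ g]
  have h0 : 0 ≤ M + ε := (norm_nonneg _).trans hn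
  refine ⟨Y.liftQL (ξ - g) hker, ?_, ?_⟩
  · refine ContinuousLinearMap.opNorm_le_bound _ h0 fun z => ?_
    refine le_of_forall_pos_le_add fun η hη => ?_
    obtain ⟨x, rfl, hx⟩ := Submodule.Quotient.norm_mk_lt z (div_pos hη (by linarith only [h0] : 0 < M + ε + 1))
    have h1 : Y.liftQL (ξ - g) hker (Submodule.Quotient.mk x) = (ξ - g) x := rfl
    rw [h1]
    have h2 := (ξ - g).le_opNorm x
    have h3 := mul_le_mul hn hx.le (norm_nonneg x) h0
    have h4 : (M + ε) * (η / (M + ε + 1)) ≤ η := by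
      rw [mul_div_assoc', div_le_iff₀ (by linarith only [h0])]
      linarith only [hη]
    linarith only [h2, h3, h4]
  · have : ξ - (Y.liftQL (ξ - g) hker).comp Y.mkQL = g := by
      ext x
      have h1 : (Y.liftQL (ξ - g) hker).comp Y.mkQL x = (ξ - g) x := rfl
      rw [sub_apply, h1, sub_apply]
      ring
    rw [this, hg2]
    exact h

theorem norm_comp_mkQL (Y : Submodule ℝ X) [IsClosed (Y : Set X)] (ζ : StrongDual ℝ (X ⧸ Y)) :
    ‖ζ.comp Y.mkQL‖ ≤ ‖ζ‖ :=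
  ContinuousLinearMap.opNorm_le_bound _ ζ.opNorm_nonneg fun x =>
    (ζ.le_opNorm _).trans
      (mul_le_mul_of_nonneg_left (Submodule.Quotient.norm_mk_le Y x) ζ.opNorm_nonneg)

theorem fragm_of_dent (Y : Submodule ℝ X) [IsClosed (Y : Set X)] (hY : Dent Y)
    (hZ : Dent (X ⧸ Y)) {T : Type u} [TopologicalSpace T] [CompactSpace T] [T2Space T]
    {ev : T → StrongDual ℝ X} (hc : ∀ x, Continuous fun t => ev t x) (hb : ∀ t, ‖ev t‖ ≤ 1) :
    Fragm ev := by
  intro K _ hKn ε₀ hε₀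
  set ε := ε₀ / 3 with hε3
  have hε : 0 < ε := by linarith
  let ρ : T → StrongDual ℝ Y := fun t => (ev t).comp Y.subtypeL
  have hρ : ∀ y, Continuous fun t => ρ t y := fun y => hc y
  obtain ⟨y, a, ⟨_, ⟨t₀, ht₀, rfl⟩, ha⟩, hsm⟩ := hY (ρ '' K) (hKn.image _) 1 (by
    rintro _ ⟨t, _, rfl⟩
    refine ContinuousLinearMap.opNorm_le_bound _ zero_le_one fun y => ?_
    exact ((ev t).le_opNorm y).trans (mul_le_mul_of_nonneg_right (hb t) (norm_nonneg _))) ε hε
  let U : Set T := {t | a < ρ t y}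
  have hU : IsOpen U := isOpen_lt continuous_const (hρ y)
  let L : Set T := closure (K ∩ U)
  have hL : ∀ t ∈ L, ‖ρ t - ρ t₀‖ ≤ ε :=
    closure_minimal (fun t ht => hsm _ ⟨t, ht.1, rfl⟩ _ ⟨t₀, ht₀, rfl⟩ ht.2 ha)
      (isClosed_ball hρ (ρ t₀) hε.le)
  obtain ⟨S, _, _, _, ew, hw1, hw2, hw3⟩ := exists_ball_space (X ⧸ Y) (2 + ε)
  let E : Set (T × S) := {q | q.1 ∈ L} ∩ {q | ‖(ev q.1 - (ew q.2).comp Y.mkQL) - ev t₀‖ ≤ ε}
  have hE : IsClosed E := (isClosed_closure.preimage continuous_fst).inter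
    (isClosed_ball (ev := fun q : T × S => ev q.1 - (ew q.2).comp Y.mkQL)
      (fun x => ((hc x).comp continuous_fst).sub ((hw1 (Y.mkQL x)).comp continuous_snd)) _ hε.le)
  have hLE : L ⊆ Prod.fst '' E := fun t ht => by
    obtain ⟨ζ, h1, h2⟩ := split_dual Y (ev t - ev t₀) (ε := ε) (M := 2)
      (by rw [ContinuousLinearMap.sub_comp]; exact hL t ht)
      (by linarith only [norm_sub_le (ev t) (ev t₀), hb t, hb t₀])
    obtain ⟨s, rfl⟩ := hw3 ζ h1
    refine ⟨(t, s), ⟨ht, ?_⟩, rfl⟩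
    rw [mem_ofPred_eq, sub_right_comm]
    exact h2
  have hEL : Prod.fst '' E ⊆ L := by
    rintro _ ⟨q, hq, rfl⟩
    exact hq.1
  obtain ⟨E₀, h0, hE₀, hon, hmin⟩ := exists_minimal_closed continuous_fst hE
  have hne : E₀.Nonempty := by
    obtain ⟨q, hq, _⟩ := hon (hLE (subset_closure ⟨ht₀, ha⟩))
    exact ⟨q, hq⟩
  obtain ⟨z, a', ⟨_, ⟨q₀, hq₀, rfl⟩, ha'⟩, hsm'⟩ := hZ ((fun q : T × S => ew q.2) '' E₀)
    (hne.image _) (2 + ε) (by
      rintro _ ⟨q, _, rfl⟩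
      exact hw2 _) ε hε
  let E₁ : Set (T × S) := E₀ ∩ {q | ew q.2 z ≤ a'}
  have hE₁ : IsClosed E₁ :=
    hE₀.inter (isClosed_le ((hw1 z).comp continuous_snd) continuous_const)
  have hV : IsOpen (Prod.fst '' E₁)ᶜ := (hE₁.isCompact.image continuous_fst).isClosed.isOpen_compl
  have h1 : ∃ t ∈ L, t ∉ Prod.fst '' E₁ := by
    by_contra h
    push Not at h
    exact not_le.2 ha' (hmin E₁ inter_subset_left hE₁ (fun t ht => h t (hEL ht)) hq₀).2
  obtain ⟨t₁, ht₁, ht₁'⟩ := h1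
  obtain ⟨c, hc1, hc2⟩ := mem_closure_iff.1 ht₁ _ hV ht₁'
  have key : ∀ t ∈ K ∩ (U ∩ (Prod.fst '' E₁)ᶜ), ∃ s, (t, s) ∈ E₀ ∧ a' < ew s z := fun t ht => by
    obtain ⟨⟨t', s⟩, hq, rfl⟩ := hon (hLE (subset_closure ⟨ht.1, ht.2.1⟩))
    refine ⟨s, hq, ?_⟩
    by_contra h
    exact ht.2.2 ⟨(t', s), ⟨hq, not_lt.1 h⟩, rfl⟩
  refine ⟨U ∩ (Prod.fst '' E₁)ᶜ, hU.inter hV, c, ⟨hc2.1, hc2.2, hc1⟩, fun t ht => ?_⟩
  obtain ⟨s, hs, hs'⟩ := key t ht
  obtain ⟨s', hr, hr'⟩ := key c ⟨hc2.1, hc2.2, hc1⟩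
  have h2 := hsm' _ ⟨_, hs, rfl⟩ _ ⟨_, hr, rfl⟩ hs' hr'
  have h3 : ‖(ev t - (ew s).comp Y.mkQL) - ev t₀‖ ≤ ε := (h0 hs).2
  have h4 : ‖(ev c - (ew s').comp Y.mkQL) - ev t₀‖ ≤ ε := (h0 hr).2
  have h5 := norm_comp_mkQL Y (ew s - ew s')
  have h6 : ev t - ev c = ((ev t - (ew s).comp Y.mkQL) - ev t₀) -
      ((ev c - (ew s').comp Y.mkQL) - ev t₀) + (ew s - ew s').comp Y.mkQL := by
    rw [ContinuousLinearMap.sub_comp]
    abel
  rw [h6]
  refine (norm_add_le _ _).trans ?_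
  linarith only [norm_sub_le ((ev t - (ew s).comp Y.mkQL) - ev t₀)
    ((ev c - (ew s').comp Y.mkQL) - ev t₀), hε3, h2, h3, h4, h5]

/-- If `Y` and `X ⧸ Y` have small weak-star slices, `X` has a `C¹` bump. -/
theorem bump_of_dent (Y : Submodule ℝ X) [IsClosed (Y : Set X)] (hY : Dent Y)
    (hZ : Dent (X ⧸ Y)) : HasC1Bump X := by
  obtain ⟨T, _, _, _, ev, hc, hb, hs⟩ := exists_ball_space X 1
  have : Nonempty T := ⟨(hs 0 (by simp)).choose⟩
  obtain ⟨f, h1, _, h3⟩ := smooth_of_fragm hc hb (fragm_of_dent Y hY hZ hc hb)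
  refine ⟨fun x => bb (2 - f x), contDiff_bb.comp (contDiff_const.sub h1), ⟨0, ?_⟩, ?_⟩
  · obtain ⟨t, _, ht⟩ := exists_supp hc isClosed_univ univ_nonempty (0 : X)
    have h4 := (h3 0).2
    rw [ht, map_zero] at h4
    change bb (2 - f 0) ≠ 0
    rw [bb_of_nonneg (by linarith)]
    exact pow_ne_zero 2 (by linarith)
  · refine (Metric.isBounded_closedBall (x := (0 : X)) (r := 2)).subset fun x hx => ?_
    rw [mem_closedBall_zero_iff]
    obtain ⟨g, hg1, hg2⟩ := exists_dual_vector'' ℝ x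
    obtain ⟨t, rfl⟩ := hs g hg1
    have h4 := le_supp hc (mem_univ t) x
    have h5 : ev t x = ‖x‖ := by simpa using hg2
    by_contra h
    exact hx (bb_of_nonpos (by linarith [(h3 x).1]))

end Three

end Pool.Agent.MP_151be3_an.H28
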